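import Pool.Agent.H56.RD.MTL

/-!
# Module HUR: Hurwitz's theorem

PROOF. `hur_hit`. `G` is differentiable on `U` (`jc_diff`), analytic at `z` and not locally constant: there is `s > 0` with `closedBall z s ⊆ U ∩ V`-interior and `G w ≠ G z` on the circle `‖w - z‖ = s` (isolated zeros of `G - G z`: `AnalyticAt.eventually_eq_zero_or_eventually_ne_zero`). Let `m > 0` be the minimum of `‖G w - G z‖` on the circle.
For large `k`: `‖F k w - G w‖ < m / 4` on `closedBall z s` (`jc_unif`). If `F k w ≠ G z` for all `w ∈ closedBall z s` then `1 / (F k w - G z)` is holomorphic in the disc, continuous on the closed disc, of modulus `≤ 4 / (3 m)` on the circle but `≥ 4 / m` at the centre: contradiction to the maximum principle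
(`Complex.norm_le_of_forall_mem_frontier_norm_le`).
`hur_map`. Suppose `G z ∉ W`, `z ∈ U`. `G` is not locally constant at `z`: otherwise it is constant on `U` (identity theorem, `U` preconnected: `AnalyticOnNhd.eqOn_of_preconnected_of_eventuallyEq`), so `deriv G = 0` on `U`, against `hn`. `hur_hit` with `V = U`: some `w ∈ U`, `k` with `F k w = G z`, but `F k w ∈ W`.
`hur_nz`. If `G z = 0` and `G` is locally constant at `z` then `G = 0` on `U`, against `hG`. Otherwise `hur_hit` gives `F k w = 0`, against `h0`.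
-/

set_option autoImplicit false

open Filter Topology Metric Set

namespace Pool.Agent.H56.RD

variable {F : ℕ → ℂ → ℂ} {G : ℂ → ℂ} {U W : Set ℂ}

theorem hur_hit (hU : IsOpen U) (hF : ∀ k, DifferentiableOn ℂ (F k) U) (h : JC F G U) {z : ℂ}
    (hz : z ∈ U) {V : Set ℂ} (hV : V ∈ 𝓝 z) (hn : ¬ ∀ᶠ w in 𝓝 z, G w = G z) :
    ∀ᶠ k in atTop, ∃ w ∈ V, F k w = G z := by
  have hGd : DifferentiableOn ℂ G U := jc_diff hU hF h
  have han : AnalyticAt ℂ (fun w => G w - G z) z :=
    (hGd.analyticAt (hU.mem_nhds hz)).sub analyticAt_const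
  have hne : ∀ᶠ w in 𝓝 z, w ≠ z → G w ≠ G z := by
    rcases han.eventually_eq_zero_or_eventually_ne_zero with h0 | h0
    · exact absurd (h0.mono fun w hw => sub_eq_zero.1 hw) hn
    · rw [eventually_nhdsWithin_iff] at h0
      exact h0.mono fun w hw hwz => sub_ne_zero.1 (hw hwz)
  have hall : ∀ᶠ w in 𝓝 z, w ∈ U ∧ w ∈ V ∧ (w ≠ z → G w ≠ G z) :=
    Filter.Eventually.and (hU.mem_nhds hz) (Filter.Eventually.and hV hne)
  obtain ⟨s, hs, hball⟩ := Metric.nhds_basis_closedBall.mem_iff.1 hall
  have hsU : closedBall z s ⊆ U := fun w hw => (hball hw).1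
  have hcont : ContinuousOn (fun w => ‖G w - G z‖) (sphere z s) :=
    ((hGd.continuousOn.mono (sphere_subset_closedBall.trans hsU)).sub continuousOn_const).norm
  have hsne : (sphere z s).Nonempty := NormedSpace.sphere_nonempty.2 hs.le
  obtain ⟨w0, hw0, hmin⟩ := (isCompact_sphere z s).exists_isMinOn hsne hcont
  set m := ‖G w0 - G z‖ with hm
  have hmpos : 0 < m := by
    apply norm_pos_iff.2
    apply sub_ne_zero.2
    apply (hball (sphere_subset_closedBall hw0)).2.2
    intro hc
    rw [hc, mem_sphere, dist_self] at hw0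
    linarith
  have hunif := jc_unif hU h (isCompact_closedBall z s) hsU (show 0 < m / 4 by positivity)
  refine hunif.mono fun k hk => ?_
  by_contra hcon
  push Not at hcon
  have hnz : ∀ w ∈ closedBall z s, F k w - G z ≠ 0 := fun w hw =>
    sub_ne_zero.2 (hcon w (hball hw).2.1)
  have hdiff : DiffContOnCl ℂ (fun w => (F k w - G z)⁻¹) (ball z s) := by
    apply DifferentiableOn.diffContOnCl
    rw [closure_ball z hs.ne']
    exact (((hF k).mono hsU).sub_const (G z)).inv hnz
  have hbd : ∀ w ∈ frontier (ball z s), ‖(F k w - G z)⁻¹‖ ≤ 4 / (3 * m) := by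
    intro w hw
    rw [frontier_ball z hs.ne'] at hw
    have h1 := hmin hw
    simp only [mem_ofPred_eq] at h1
    have h2 := hk w (sphere_subset_closedBall hw)
    have h3 : ‖G w - G z‖ ≤ ‖F k w - G z‖ + ‖F k w - G w‖ := by
      have e : G w - G z = (F k w - G z) - (F k w - G w) := by ring
      rw [e]
      exact norm_sub_le _ _
    have h4 : 3 * m / 4 ≤ ‖F k w - G z‖ := by linarith
    rw [norm_inv, inv_le_comm₀ (by linarith) (by positivity)]
    calc (4 / (3 * m))⁻¹ = 3 * m / 4 := by rw [inv_div]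
      _ ≤ _ := h4
  have hfin := Complex.norm_le_of_forall_mem_frontier_norm_le Metric.isBounded_ball hdiff hbd
    (subset_closure (mem_ball_self hs))
  have h5 := hk z (mem_closedBall_self hs.le)
  have h6 : 0 < ‖F k z - G z‖ := norm_pos_iff.2 (hnz z (mem_closedBall_self hs.le))
  rw [norm_inv, inv_le_comm₀ h6 (by positivity), inv_div] at hfin
  linarith

theorem hur_map (hU : IsOpen U) (hc : IsPreconnected U) (hF : ∀ k, DifferentiableOn ℂ (F k) U)
    (hm : ∀ k, MapsTo (F k) U W) (h : JC F G U) (hn : ∃ z ∈ U, deriv G z ≠ 0) : MapsTo G U W := by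
  intro z hz
  by_contra hcon
  have hGd : DifferentiableOn ℂ G U := jc_diff hU hF h
  have hnc : ¬ ∀ᶠ w in 𝓝 z, G w = G z := by
    intro hev
    have hGa : AnalyticOnNhd ℂ G U := hGd.analyticOnNhd hU
    have heq : EqOn G (fun _ => G z) U :=
      hGa.eqOn_of_preconnected_of_eventuallyEq analyticOnNhd_const hc hz hev
    obtain ⟨z1, hz1, hd⟩ := hn
    apply hd
    have h1 : G =ᶠ[𝓝 z1] fun _ => G z := by
      filter_upwards [hU.mem_nhds hz1] with w hw
      exact heq hw
    rw [h1.deriv_eq]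
    simp
  obtain ⟨k, w, hw, hwk⟩ := (hur_hit hU hF h hz (hU.mem_nhds hz) hnc).exists
  exact hcon (hwk ▸ hm k hw)

theorem hur_nz (hU : IsOpen U) (hc : IsPreconnected U) (hF : ∀ k, DifferentiableOn ℂ (F k) U)
    (h0 : ∀ k, ∀ z ∈ U, F k z ≠ 0) (h : JC F G U) (hG : ∃ z ∈ U, G z ≠ 0) : ∀ z ∈ U, G z ≠ 0 := by
  intro z hz hGz
  have hGd : DifferentiableOn ℂ G U := jc_diff hU hF h
  have hnc : ¬ ∀ᶠ w in 𝓝 z, G w = G z := by
    intro hev
    have hGa : AnalyticOnNhd ℂ G U := hGd.analyticOnNhd hU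
    have heq : EqOn G (fun _ => G z) U :=
      hGa.eqOn_of_preconnected_of_eventuallyEq analyticOnNhd_const hc hz hev
    obtain ⟨z1, hz1, hd⟩ := hG
    apply hd
    rw [heq hz1]
    exact hGz
  obtain ⟨k, w, hw, hwk⟩ := (hur_hit hU hF h hz (hU.mem_nhds hz) hnc).exists
  rw [hGz] at hwk
  exact h0 k w hw hwk

end Pool.Agent.H56.RD
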