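import Pool.Agent.H56.RD.MTL
import Pool.Agent.H44.DN.NNL

/-!
# Module MTM: Montel's theorem for locally bounded sequences

PROOF. Let `z ∈ U` and `r, B, K` as in `hB`, with `ball z r ⊆ U` (decrease `r`). For `k ≥ K` Cauchy's estimate gives `‖F k x - F k y‖ ≤ (2 B / r) ‖x - y‖` for `x, y ∈ ball z (r / 2)` (see the proof of `montel1`, H44/DN/NNL, which you may copy or use).
Let `D ⊆ U` be countable and dense in `U` (`TopologicalSpace.exists_countable_dense` for the subtype `U`, or the points of a countable dense subset of `ℂ` in `U`); if `U` is empty everything is trivial. For `q ∈ D` the sequence `F k q` is bounded (eventually bounded by `B`).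
Diagonal argument: the sequence `k ↦ (F k q)_(q ∈ D)` is in the product of the compact discs `closedBall 0 (M q)`, which is compact (`isCompact_univ_pi`) in the first countable space `D → ℂ`: `IsCompact.tendsto_subseq` gives `σ` strictly increasing such that `F (σ k) q` converges for every `q ∈ D`.
Then `F (σ k) z` is a Cauchy sequence for every `z ∈ U` (take `q ∈ D` with `(2 B / r) ‖z - q‖ < ε / 3`), so it converges to some `G z` (choice; `G z = 0` outside `U`). Continuous convergence at `z`: `‖F (σ k) y - G z‖ ≤ ‖F (σ k) y - F (σ k) z‖ + ‖F (σ k) z - G z‖ ≤ (2 B / r) ‖y - z‖ + o(1)` for `y ∈ ball z (r / 2)`. `jc_diff`.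
(Alternative: cover `U` by countably many balls, apply `montel1` on each successively and take the diagonal sequence.)
-/

set_option autoImplicit false

open Filter Topology Metric Set

namespace Pool.Agent.H56.RD

private theorem mtm_lip {f : ℂ → ℂ} {x : ℂ} {r B : ℝ} (hr : 0 < r)
    (hf : DifferentiableOn ℂ f (ball x r)) (hB : ∀ z ∈ ball x r, ‖f z‖ ≤ B) :
    ∀ z ∈ ball x (r / 2), ∀ w ∈ ball x (r / 2), ‖f z - f w‖ ≤ B / (r / 2) * ‖z - w‖ := by
  have hsub : ball x (r / 2) ⊆ ball x r := ball_subset_ball (by linarith)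
  have hderiv : ∀ z ∈ ball x (r / 2), ‖deriv f z‖ ≤ B / (r / 2) := by
    intro z hz
    have hcl : closedBall z (r / 2) ⊆ ball x r := by
      intro w hw
      rw [mem_closedBall] at hw
      rw [mem_ball] at hz ⊢
      calc dist w x ≤ dist w z + dist z x := dist_triangle _ _ _
        _ < r := by linarith
    refine Complex.norm_deriv_le_of_forall_mem_sphere_norm_le (half_pos hr) ?_ ?_
    · refine DifferentiableOn.diffContOnCl ?_
      refine hf.mono ?_
      rw [closure_ball _ (half_pos hr).ne']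
      exact hcl
    · intro w hw
      exact hB w (hcl (sphere_subset_closedBall hw))
  intro z hz w hw
  refine Convex.norm_image_sub_le_of_norm_deriv_le (𝕜 := ℂ) (s := ball x (r / 2)) ?_
    hderiv (convex_ball x (r / 2)) hw hz
  intro y hy
  exact hf.differentiableAt (isOpen_ball.mem_nhds (hsub hy))

private theorem mtm_bd {a : ℕ → ℂ} {B : ℝ} (h : ∀ᶠ k in atTop, ‖a k‖ ≤ B) :
    ∃ M : ℝ, ∀ k, ‖a k‖ ≤ M := by
  obtain ⟨K, hK⟩ := eventually_atTop.1 h
  refine ⟨|B| + ∑ k ∈ Finset.range K, ‖a k‖, fun k => ?_⟩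
  have h0 : 0 ≤ ∑ k ∈ Finset.range K, ‖a k‖ := Finset.sum_nonneg fun _ _ => norm_nonneg _
  rcases lt_or_ge k K with hk | hk
  · have h1 := Finset.single_le_sum (f := fun k => ‖a k‖) (s := Finset.range K)
      (fun _ _ => norm_nonneg _) (Finset.mem_range.2 hk)
    have h2 := abs_nonneg B
    have h3 : ‖a k‖ ≤ ∑ k ∈ Finset.range K, ‖a k‖ := h1
    linarith
  · have h1 := hK k hk
    linarith [le_abs_self B]

private theorem mtm_sub {F : ℕ → ℂ → ℂ} {U : Set ℂ}
    (hB : ∀ z ∈ U, ∃ B : ℝ, ∀ᶠ k in atTop, ‖F k z‖ ≤ B) :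
    ∃ (D : Set ℂ) (σ : ℕ → ℕ), Dense D ∧ StrictMono σ ∧
      ∀ q ∈ D, q ∈ U → ∃ b, Tendsto (fun k => F (σ k) q) atTop (𝓝 b) := by
  obtain ⟨D, hDc, hD⟩ := TopologicalSpace.exists_countable_dense ℂ
  have hc : Countable {q : ℂ // q ∈ D ∧ q ∈ U} :=
    (hDc.mono (fun q (hq : q ∈ {q | q ∈ D ∧ q ∈ U}) => hq.1)).to_subtype
  have hM : ∀ q : {q : ℂ // q ∈ D ∧ q ∈ U}, ∃ M : ℝ, ∀ k, ‖F k q‖ ≤ M := by
    intro q
    obtain ⟨B, hB'⟩ := hB q q.2.2
    exact mtm_bd hB'
  choose M hM' using hM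
  have hcpt : IsCompact (Set.pi univ fun q : {q : ℂ // q ∈ D ∧ q ∈ U} => closedBall (0 : ℂ) (M q)) :=
    isCompact_univ_pi fun q => isCompact_closedBall _ _
  obtain ⟨b, -, σ, hσ, hlim⟩ := hcpt.tendsto_subseq
    (x := fun k (q : {q : ℂ // q ∈ D ∧ q ∈ U}) => F k q)
    (fun k q _ => mem_closedBall_zero_iff.2 (hM' q k))
  refine ⟨D, σ, hD, hσ, fun q hq hqU => ⟨b ⟨q, hq, hqU⟩, ?_⟩⟩
  exact (tendsto_pi_nhds.1 hlim) ⟨q, hq, hqU⟩

theorem mtm {F : ℕ → ℂ → ℂ} {U : Set ℂ} (hU : IsOpen U) (hF : ∀ k, DifferentiableOn ℂ (F k) U)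
    (hB : ∀ z ∈ U, ∃ r : ℝ, 0 < r ∧ ∃ B : ℝ, ∀ᶠ k in atTop, ∀ w ∈ ball z r, ‖F k w‖ ≤ B) :
    ∃ (σ : ℕ → ℕ) (G : ℂ → ℂ), StrictMono σ ∧ DifferentiableOn ℂ G U ∧
      JC (fun k => F (σ k)) G U := by
  -- local Lipschitz bounds
  have hL : ∀ z ∈ U, ∃ r : ℝ, 0 < r ∧ ball z r ⊆ U ∧ ∃ Λ : ℝ, 0 < Λ ∧ ∃ K : ℕ, ∀ k, K ≤ k →
      ∀ y ∈ ball z r, ‖F k y - F k z‖ ≤ Λ * ‖y - z‖ := by
    intro z hz
    obtain ⟨r1, hr1, B, hB1⟩ := hB z hz
    obtain ⟨r2, hr2, hb⟩ := Metric.isOpen_iff.1 hU z hz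
    obtain ⟨K, hK⟩ := eventually_atTop.1 hB1
    have hr : 0 < min r1 r2 := lt_min hr1 hr2
    have hsub : ball z (min r1 r2) ⊆ U := (ball_subset_ball (min_le_right _ _)).trans hb
    refine ⟨min r1 r2 / 2, half_pos hr, (ball_subset_ball (by linarith)).trans hsub,
      |B| / (min r1 r2 / 2) + 1, by positivity, K, fun k hk y hy => ?_⟩
    have h1 := mtm_lip hr ((hF k).mono hsub) (fun w hw => (hK k hk w
      (ball_subset_ball (min_le_left _ _) hw)).trans (le_abs_self B)) y hy z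
      (mem_ball_self (half_pos hr))
    refine h1.trans (mul_le_mul_of_nonneg_right ?_ (norm_nonneg _))
    linarith
  obtain ⟨D, σ, hD, hσ, hq⟩ := mtm_sub (F := F) (U := U) (fun z hz => by
    obtain ⟨r, hr, B, h⟩ := hB z hz
    exact ⟨B, h.mono fun k hk => hk z (mem_ball_self hr)⟩)
  have hlim : ∀ z, ∃ g : ℂ, z ∈ U → Tendsto (fun k => F (σ k) z) atTop (𝓝 g) := by
    intro z
    by_cases hz : z ∈ U
    · obtain ⟨r, hr, hrU, Λ, hΛ, K, hK⟩ := hL z hz
      have hcs : CauchySeq fun k => F (σ k) z := by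
        rw [Metric.cauchySeq_iff]
        intro ε hε
        have hρ : 0 < min r (ε / (4 * Λ)) := lt_min hr (by positivity)
        obtain ⟨q, hqD, hqb⟩ := hD.exists_mem_open isOpen_ball ⟨z, mem_ball_self hρ⟩
        have hqr : q ∈ ball z r := ball_subset_ball (min_le_left _ _) hqb
        have hqn : Λ * ‖q - z‖ ≤ ε / 4 := by
          have h1 : ‖q - z‖ < ε / (4 * Λ) := by
            have := ball_subset_ball (min_le_right r (ε / (4 * Λ))) hqb
            rwa [mem_ball, dist_eq_norm] at this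
          calc Λ * ‖q - z‖ ≤ Λ * (ε / (4 * Λ)) := mul_le_mul_of_nonneg_left h1.le hΛ.le
            _ = ε / 4 := by field_simp
        obtain ⟨b, hb⟩ := hq q hqD (hrU hqr)
        obtain ⟨N, hN⟩ := Metric.cauchySeq_iff.1 hb.cauchySeq (ε / 4) (by positivity)
        refine ⟨max N K, fun m hm n hn => ?_⟩
        have h2 := hN m ((le_max_left _ _).trans hm) n ((le_max_left _ _).trans hn)
        rw [dist_eq_norm] at h2 ⊢
        have h3 := hK (σ m) (((le_max_right _ _).trans hm).trans (hσ.id_le m)) q hqr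
        have h4 := hK (σ n) (((le_max_right _ _).trans hn).trans (hσ.id_le n)) q hqr
        have e : F (σ m) z - F (σ n) z = -(F (σ m) q - F (σ m) z) +
            ((F (σ m) q - F (σ n) q) + (F (σ n) q - F (σ n) z)) := by ring
        rw [e]
        have h5 := norm_add_le (-(F (σ m) q - F (σ m) z))
          ((F (σ m) q - F (σ n) q) + (F (σ n) q - F (σ n) z))
        have h6 := norm_add_le (F (σ m) q - F (σ n) q) (F (σ n) q - F (σ n) z)
        rw [norm_neg] at h5
        linarith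
      obtain ⟨g, hg⟩ := cauchySeq_tendsto_of_complete hcs
      exact ⟨g, fun _ => hg⟩
    · exact ⟨0, fun h => absurd h hz⟩
  choose G hG using hlim
  have hJ : JC (fun k => F (σ k)) G U := by
    intro z hz
    obtain ⟨r, hr, hrU, Λ, hΛ, K, hK⟩ := hL z hz
    rw [Metric.tendsto_nhds]
    intro ε hε
    have h1 := (Metric.tendsto_nhds.1 (hG z hz)) (ε / 2) (half_pos hε)
    have hρ : 0 < min r (ε / (2 * Λ)) := lt_min hr (by positivity)
    filter_upwards [((eventually_ge_atTop K).and h1).prod_mk (ball_mem_nhds z hρ)] with w hw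
    obtain ⟨⟨hw1, hw2⟩, hw3⟩ := hw
    have h2 := hK (σ w.1) (hw1.trans (hσ.id_le w.1)) w.2
      (ball_subset_ball (min_le_left _ _) hw3)
    have h3 : Λ * ‖w.2 - z‖ < ε / 2 := by
      have h4 : ‖w.2 - z‖ < ε / (2 * Λ) := by
        have := ball_subset_ball (min_le_right r (ε / (2 * Λ))) hw3
        rwa [mem_ball, dist_eq_norm] at this
      calc Λ * ‖w.2 - z‖ < Λ * (ε / (2 * Λ)) := mul_lt_mul_of_pos_left h4 hΛ
        _ = ε / 2 := by field_simp
    rw [dist_eq_norm] at hw2 ⊢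
    have e : F (σ w.1) w.2 - G z = (F (σ w.1) w.2 - F (σ w.1) z) + (F (σ w.1) z - G z) := by ring
    rw [e]
    have h5 := norm_add_le (F (σ w.1) w.2 - F (σ w.1) z) (F (σ w.1) z - G z)
    linarith
  exact ⟨σ, G, hσ, jc_diff hU (fun k => hF (σ k)) hJ, hJ⟩

end Pool.Agent.H56.RD
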