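import Pool.Agent.H47.RJ.REP
import Pool.Agent.H47.RJ.CNT
import Pool.Agent.H47.RJ.FSI

/-!
# Attracted points are in the Fatou set
-/

set_option autoImplicit false

open Filter Topology Polynomial Metric Set

namespace Pool.Agent.H56.RD

open Pool.Agent.H44.Fatou Pool.Agent.H32.BT Pool.Agent.H79.Eul Pool.Agent.H79.Par
open Pool.Agent.H35.EX Pool.Agent.H44.RR Pool.Agent.H56.HR Pool.Agent.H44.RC Pool.Agent.H47.RJ

variable {d : ℕ} {v : E d}

private theorem not_count {a : OnePoint ℂ} {U S : Set (OnePoint ℂ)} (hU : U ∈ 𝓝 a)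
    (hS : S.Countable) : ∃ w ∈ U, w ∉ S := by
  have hden : DenseRange ((↑) : ℂ → OnePoint ℂ) := OnePoint.denseRange_coe
  obtain ⟨V, hVU, hV, haV⟩ := _root_.mem_nhds_iff.1 hU
  obtain ⟨y, hy⟩ := hden.exists_mem_open hV ⟨a, haV⟩
  have hop : IsOpen (((↑) : ℂ → OnePoint ℂ) ⁻¹' V) := hV.preimage OnePoint.continuous_coe
  have hbad : (((↑) : ℂ → OnePoint ℂ) ⁻¹' S).Countable :=
    hS.preimage_of_injOn (OnePoint.coe_injective.injOn)
  obtain ⟨s, hsV, hsS⟩ := (hbad.dense_compl ℂ).inter_open_nonempty _ hop ⟨y, hy⟩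
  exact ⟨_, hVU hsV, hsS⟩

/-- attracted points are in the Fatou set -/
theorem att_fs' (hd : 1 ≤ d) (hcop : IsCoprime (pol v.1) (pol v.2))
    (hdeg : max (pol v.1).natDegree (pol v.2).natDegree = d) (hN : Pool.Agent.H47.NN.NNeu v)
    {x : OnePoint ℂ} (hx : Att (Rf v) x) : x ∈ FS (Rf v) := by
  obtain ⟨a, n, hs, ht⟩ := hx
  have ha : a ∈ FS (Rf v) := by
    rcases att_or_rep hd hcop hdeg hN hs.1 hs.2.1 with h1 | ⟨ρ, κ, g, hR⟩
    · exact h1.2
    · exfalso
      obtain ⟨-, hfix, U, hU, hUc⟩ := hs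
      have hS : (⋃ k : ℕ, {z | (Rf v)^[n * k] z = a}).Countable :=
        countable_iUnion fun k => (cnt_le hd hcop hdeg (n * k) a).1.countable
      obtain ⟨w, hwU, hwS⟩ := not_count hU hS
      have h3 := ch_tend.1 (hUc w hwU) ρ hR.hρ
      obtain ⟨K, hK⟩ := eventually_atTop.1 h3
      apply hwS
      refine mem_iUnion.2 ⟨K, ?_⟩
      have hstep : ∀ k, K ≤ k → chord a ((Rf v)^[n * k] w) ≤
          κ * chord a ((Rf v)^[n * (k + 1)] w) := by
        intro k hk
        have e : (Rf v)^[n * (k + 1)] w = (Rf v)^[n] ((Rf v)^[n * k] w) := by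
          rw [← Function.iterate_add_apply]
          congr 2
          ring
        have h6 := hR.left ((Rf v)^[n * k] w) (hK k hk) (by rw [← e]; exact hK (k + 1) (by omega))
        have h7 := hR.contr ((Rf v)^[n] ((Rf v)^[n * k] w))
          (by rw [← e]; exact hK (k + 1) (by omega))
        rw [h6] at h7
        rw [e]
        exact h7
      have h6 : ∀ j : ℕ, chord a ((Rf v)^[n * K] w) ≤ κ ^ j * chord a ((Rf v)^[n * (K + j)] w) := by
        intro j
        induction j with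
        | zero => simp
        | succ j ih =>
          refine ih.trans ?_
          rw [pow_succ, mul_assoc]
          exact mul_le_mul_of_nonneg_left (hstep (K + j) (by omega)) (pow_nonneg hR.hκ j)
      have h7 : ∀ j : ℕ, chord a ((Rf v)^[n * K] w) ≤ κ ^ j * ρ := fun j =>
        (h6 j).trans (mul_le_mul_of_nonneg_left (hK (K + j) (by omega)).le (pow_nonneg hR.hκ j))
      have h8 : Tendsto (fun j : ℕ => κ ^ j * ρ) atTop (𝓝 (0 * ρ)) :=
        (tendsto_pow_atTop_nhds_zero_of_lt_one hR.hκ hR.hκ1).mul_const _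
      rw [zero_mul] at h8
      have h9 : chord a ((Rf v)^[n * K] w) ≤ 0 := ge_of_tendsto' h8 h7
      exact (chord_eqz (le_antisymm h9 (chord_nn _ _))).symm
  obtain ⟨k, hk⟩ := (ht.eventually ((fs_open (Rf v)).mem_nhds ha)).exists
  exact (fs_iff hd hcop hdeg _ x).1 hk

end Pool.Agent.H56.RD
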