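import Pool.Agent.H56.RD.THN

/-!
# Module MXS: the maximal strip

PROOF. Let `P J Ψ` mean: `J` is open, `J.OrdConnected`, `0 ∈ J`, `Sol X U (Str J) Ψ`, `Ψ 0 = z0`. `I = {s | ∃ J Ψ, P J Ψ ∧ s ∈ J}`: open, a union of intervals containing `0`, so `OrdConnected` (`IsPreconnected.ordConnected` of the union of preconnected sets with a common point, or by hand), and `0 ∈ I` (`thn` at `z0`: `P (Ioo (-κ) κ) Ψ`).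
UNIQUENESS: if `P J Ψ`, `P J' Ψ'` and `ζ.im ∈ J ∩ J'` then `Ψ ζ = Ψ' ζ`: `Str J ∩ Str J' = Str (J ∩ J')` is open and preconnected (`str_op`, `str_pc`, `OrdConnected.inter`) and contains `0`: `sol_uniq`. For `ζ ∈ Str I` choose `J, Ψ` with `P J Ψ`, `ζ.im ∈ J`, and put `Φ ζ = Ψ ζ` (and `Φ ζ = 0` outside). For every `P J Ψ`: `Φ = Ψ` on `Str J`.
So `Φ` is a solution near every point of `Str I` (`Str J` is open: `sol_congr`), `Φ 0 = z0`.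
`max`: let `J1, Ψ1, ζ1` be as in `max`. There is `P J Ψ` with `ζ1.im ∈ J`, `Ψ ζ1 = Φ ζ1 = Ψ1 ζ1`. `Str J ∩ Str J1 = Str (J ∩ J1)` is preconnected: `sol_glue`: a solution `Ψ2` on `Str J ∪ Str J1 = Str (J ∪ J1)` equal to `Ψ` on `Str J`, so `Ψ2 0 = z0`. `J ∪ J1` is open and `OrdConnected` (two intervals with the common point `ζ1.im`). So `P (J ∪ J1) Ψ2` and `J1 ⊆ I`.
-/

set_option autoImplicit false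

open Filter Topology Metric Set

namespace Pool.Agent.H56.RD

private theorem ord_union {J J' : Set ℝ} (hJ : J.OrdConnected) (hJ' : J'.OrdConnected) {x : ℝ}
    (hx : x ∈ J) (hx' : x ∈ J') : (J ∪ J').OrdConnected := by
  refine ⟨fun s hs t ht u hu => ?_⟩
  rcases le_total u x with h | h
  · rcases hs with hs | hs
    · exact Or.inl (hJ.out hs hx ⟨hu.1, h⟩)
    · exact Or.inr (hJ'.out hs hx' ⟨hu.1, h⟩)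
  · rcases ht with ht | ht
    · exact Or.inl (hJ.out hx ht ⟨h, hu.2⟩)
    · exact Or.inr (hJ'.out hx' ht ⟨h, hu.2⟩)

private theorem zero_str {J : Set ℝ} (h : (0 : ℝ) ∈ J) : (0 : ℂ) ∈ Str J := by
  show (0 : ℂ).im ∈ J
  rw [Complex.zero_im]
  exact h

private def Pp (X : ℂ → ℂ) (U : Set ℂ) (z0 : ℂ) (J : Set ℝ) (Ψ : ℂ → ℂ) : Prop :=
  IsOpen J ∧ J.OrdConnected ∧ (0 : ℝ) ∈ J ∧ Sol X U (Str J) Ψ ∧ Ψ 0 = z0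

private theorem str_inter_pc {J J' : Set ℝ} (hJ : J.OrdConnected) (hJ' : J'.OrdConnected) :
    IsPreconnected (Str J ∩ Str J') := str_pc (hJ.inter hJ')

private theorem pp_uniq {X : ℂ → ℂ} {U : Set ℂ} {z0 : ℂ} (hX : Fld X U) {J J' : Set ℝ} {Ψ Ψ' : ℂ → ℂ}
    (h : Pp X U z0 J Ψ) (h' : Pp X U z0 J' Ψ') {ζ : ℂ} (h1 : ζ.im ∈ J) (h2 : ζ.im ∈ J') :
    Ψ ζ = Ψ' ζ := by
  obtain ⟨a1, a2, a3, a4, a5⟩ := h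
  obtain ⟨b1, b2, b3, b4, b5⟩ := h'
  refine sol_uniq (ζ0 := 0) hX (str_op (a1.inter b1)) (str_pc (a2.inter b2))
    (sol_mono a4 fun ζ hζ => hζ.1) (sol_mono b4 fun ζ hζ => hζ.2) ?_ (a5.trans b5.symm) ζ ⟨h1, h2⟩
  show (0 : ℂ).im ∈ J ∩ J'
  rw [Complex.zero_im]
  exact ⟨a3, b3⟩

theorem mxs {U : Set ℂ} {F : ℂ → ℂ} {n : ℕ → ℕ} {X : ℂ → ℂ} {e : ℕ → ℝ} (v : Vec U F n X e)
    {z0 : ℂ} (hz : z0 ∈ U) : ∃ (I : Set ℝ) (Φ : ℂ → ℂ), MaxS X U z0 I Φ := by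
  classical
  have hX := v.fld
  obtain ⟨ρ, κ, hρ, hκ, -, hthn⟩ := thn v hz
  obtain ⟨Ψ0, hΨ0, hΨz⟩ := hthn z0 (mem_ball_self hρ)
  have hP0 : Pp X U z0 (Ioo (-κ) κ) Ψ0 :=
    ⟨isOpen_Ioo, ordConnected_Ioo, ⟨by linarith, hκ⟩, hΨ0, hΨz⟩
  obtain ⟨I, hI⟩ : ∃ I : Set ℝ, I = {s | ∃ J Ψ, Pp X U z0 J Ψ ∧ s ∈ J} := ⟨_, rfl⟩
  have hmem : ∀ {J : Set ℝ} {Ψ : ℂ → ℂ}, Pp X U z0 J Ψ → J ⊆ I := by
    intro J Ψ hP s hs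
    rw [hI]
    exact ⟨J, Ψ, hP, hs⟩
  have hch : ∀ s ∈ I, ∃ J Ψ, Pp X U z0 J Ψ ∧ s ∈ J := by
    intro s hs
    rw [hI] at hs
    exact hs
  obtain ⟨Φ, hΦ⟩ : ∃ Φ : ℂ → ℂ, ∀ {J : Set ℝ} {Ψ : ℂ → ℂ}, Pp X U z0 J Ψ →
      ∀ ζ ∈ Str J, Φ ζ = Ψ ζ := by
    have h1 : ∀ ζ : ℂ, ∃ y : ℂ, ∀ {J : Set ℝ} {Ψ : ℂ → ℂ}, Pp X U z0 J Ψ → ζ ∈ Str J → y = Ψ ζ := by
      intro ζ
      by_cases hζ : ζ.im ∈ I
      · obtain ⟨J, Ψ, hP, hs⟩ := hch _ hζ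
        exact ⟨Ψ ζ, fun hP' hs' => pp_uniq hX hP hP' hs hs'⟩
      · exact ⟨0, fun hP' hs' => absurd (hmem hP' hs') hζ⟩
    choose Φ hΦ using h1
    exact ⟨Φ, fun hP ζ hζ => hΦ ζ hP hζ⟩
  refine ⟨I, Φ, ⟨?_, ?_, hmem hP0 hP0.2.2.1, ⟨?_, ?_⟩, ?_, ?_⟩⟩
  · rw [isOpen_iff_mem_nhds]
    intro s hs
    obtain ⟨J, Ψ, hP, hsJ⟩ := hch s hs
    exact Filter.mem_of_superset (hP.1.mem_nhds hsJ) (hmem hP)
  · refine ⟨fun s hs t ht u hu => ?_⟩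
    obtain ⟨J, Ψ, hP, hsJ⟩ := hch s hs
    obtain ⟨J', Ψ', hP', htJ⟩ := hch t ht
    rcases le_total u 0 with h | h
    · exact hmem hP (hP.2.1.out hsJ hP.2.2.1 ⟨hu.1, h⟩)
    · exact hmem hP' (hP'.2.1.out hP'.2.2.1 htJ ⟨h, hu.2⟩)
  · intro ζ hζ
    obtain ⟨J, Ψ, hP, hsJ⟩ := hch _ hζ
    rw [hΦ hP ζ hsJ]
    exact hP.2.2.2.1.maps hsJ
  · intro ζ hζ
    obtain ⟨J, Ψ, hP, hsJ⟩ := hch _ hζ
    exact (sol_congr (str_op hP.1) hP.2.2.2.1 (hΦ hP)).der ζ hsJ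
  · rw [hΦ hP0 0 (zero_str hP0.2.2.1)]
    exact hP0.2.2.2.2
  · intro J1 Ψ1 ζ1 hJ1 hJ1c hζI hζJ hS he
    obtain ⟨J, Ψ, hP, hsJ⟩ := hch _ hζI
    have h1 : Ψ ζ1 = Ψ1 ζ1 := by rw [he, hΦ hP ζ1 hsJ]
    obtain ⟨Ψ2, h2, h3, -⟩ := sol_glue hX (str_op hP.1) (str_op hJ1) (str_inter_pc hP.2.1 hJ1c)
      hP.2.2.2.1 hS (ζ0 := ζ1) hsJ hζJ h1
    have hP2 : Pp X U z0 (J ∪ J1) Ψ2 := by
      refine ⟨hP.1.union hJ1, ord_union hP.2.1 hJ1c hsJ hζJ, Or.inl hP.2.2.1, h2, ?_⟩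
      rw [h3 0 (zero_str hP.2.2.1)]
      exact hP.2.2.2.2
    exact Set.subset_union_right.trans (hmem hP2)

end Pool.Agent.H56.RD
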