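import Pool.Agent.H56.RD.Defs
import Pool.Agent.H91.Fatou.Crit

/-!
# Module NPE: an unbounded strip gives a puncture

PROOF. Let `ε = 1` (`npe_up`) or `ε = -1` (`npe_dn`), `ex ζ = exp (ε 2 π i ζ / T)`, `‖ex ζ‖ = exp (- ε 2 π ζ.im / T)`. For `0 < ‖w‖ < 1` let `La w = ε T / (2 π i) * log w`: `ex (La w) = w`, `(La w).im = - ε T / (2 π) * log ‖w‖`, of the sign of `ε`, so `La w ∈ Str I`. `ψ w = Φ (La w)`. As in module TRF: `ψ (ex ζ) = Φ ζ` if `ζ ∈ Str I`, `ε ζ.im > 0` (`hp.per`), `ψ` is differentiable on the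
punctured disc (other branch `log (-w) + π i` at negative `w`), injective on it, with values in the bounded set `U`. Removable singularity (`Complex.differentiableOn_update_limUnder_of_bddAbove`): `g = update ψ 0 (limUnder (𝓝[≠] 0) ψ)` is holomorphic on `ball 0 1`. `l = ex t0` with `‖l‖ = 1`: `F (g w) = F (Φ (La w)) = Φ (La w + t0) = ψ (l w) = g (l w)` (`hp.tr`), `g w ∈ U` for `w ≠ 0`.
`deriv g 0 ≠ 0`: otherwise `g` is not injective on `ball 0 1` (`not_injOn_of_deriv`, H91/Fatou/Crit): `g x = g y`, `x ≠ y`; since `g` is injective off `0`, one of them is `0`: `g y = g 0`, `y ≠ 0`. `g` is not constant near `0` or near `y` (injective off `0`), so it maps neighbourhoods of `0` and of `y` to neighbourhoods of `g 0 = g y` (`AnalyticAt.eventually_constant_or_nhds_le_map_nhds`). Take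
disjoint balls `B0, By` in the disc: `g '' B0 ∩ g '' By` is a neighbourhood of `g 0`; it contains a point `p ≠ g 0`: `p = g x' = g y'`, `x' ∈ B0`, `x' ≠ 0`, `y' ∈ By`: contradiction to the injectivity off `0`. So `Punct U F` with `ρ = 1`.
-/

set_option autoImplicit false

open Filter Topology Metric Set

namespace Pool.Agent.H56.RD

theorem npe_map {g : ℂ → ℂ} (hg : DifferentiableOn ℂ g (ball 0 1))
    (hi : InjOn g (ball 0 1 \ {0})) {z : ℂ} (hz : z ∈ ball (0 : ℂ) 1) :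
    𝓝 (g z) ≤ map g (𝓝 z) := by
  have hn : ball (0 : ℂ) 1 ∈ 𝓝 z := isOpen_ball.mem_nhds hz
  have han : AnalyticAt ℂ g z := hg.analyticAt hn
  rcases han.eventually_constant_or_nhds_le_map_nhds with h | h
  · exfalso
    obtain ⟨r, hr, hb⟩ := Metric.eventually_nhds_iff_ball.1 (h.and hn)
    -- two different nonzero points in the ball around z
    have h1 : ∃ x ∈ ball z r, x ≠ 0 := by
      by_contra hcon
      push Not at hcon
      have e1 := hcon z (mem_ball_self hr)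
      have e2 : z + ((r / 2 : ℝ) : ℂ) ∈ ball z r := by
        rw [mem_ball, dist_eq_norm, add_sub_cancel_left, Complex.norm_real, Real.norm_eq_abs,
          abs_of_pos (by positivity)]
        linarith
      have e3 := hcon _ e2
      rw [e1, zero_add] at e3
      have e4 : (r / 2 : ℝ) = 0 := by exact_mod_cast e3
      linarith
    obtain ⟨x, hx, hx0⟩ := h1
    have h2 : ∃ y ∈ ball z r, y ≠ 0 ∧ y ≠ x := by
      have hx1 : ball z r ∈ 𝓝 x := isOpen_ball.mem_nhds hx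
      have hx2 : {y : ℂ | y ≠ 0} ∈ 𝓝 x := isOpen_ne.mem_nhds hx0
      have hx3 : (ball z r ∩ {y : ℂ | y ≠ 0}) ∈ 𝓝[≠] x :=
        mem_nhdsWithin_of_mem_nhds (inter_mem hx1 hx2)
      obtain ⟨y, hy1, hy2⟩ := (NormedField.nhdsNE_neBot x).nonempty_of_mem
        (inter_mem hx3 self_mem_nhdsWithin)
      exact ⟨y, hy1.1, hy1.2, hy2⟩
    obtain ⟨y, hy, hy0, hyx⟩ := h2
    have h3 := hb x hx
    have h4 := hb y hy
    exact hyx (hi ⟨h4.2, hy0⟩ ⟨h3.2, hx0⟩ (h4.1.trans h3.1.symm))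
  · exact h

theorem npe_der {g : ℂ → ℂ} (hg : DifferentiableOn ℂ g (ball 0 1))
    (hi : InjOn g (ball 0 1 \ {0})) : deriv g 0 ≠ 0 := by
  intro h0
  have hn : ball (0 : ℂ) 1 ∈ 𝓝 (0 : ℂ) := ball_mem_nhds _ one_pos
  have han : AnalyticAt ℂ g 0 := hg.analyticAt hn
  have h1 := Pool.Agent.H91.Fatou.not_injOn_of_deriv han h0 hn
  have h2 : ∃ y ∈ ball (0 : ℂ) 1, y ≠ 0 ∧ g y = g 0 := by
    by_contra hcon
    push Not at hcon
    apply h1
    intro x hx y hy hxy
    by_cases hx0 : x = 0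
    · by_cases hy0 : y = 0
      · rw [hx0, hy0]
      · exact absurd (by rw [← hxy, hx0]) (hcon y hy hy0)
    · by_cases hy0 : y = 0
      · exact absurd (by rw [hxy, hy0]) (hcon x hx hx0)
      · exact hi ⟨hx, hx0⟩ ⟨hy, hy0⟩ hxy
  obtain ⟨y, hy, hy0, hgy⟩ := h2
  have hny : 0 < ‖y‖ := norm_pos_iff.2 hy0
  have hB0 : ball (0 : ℂ) 1 ∩ ball 0 (‖y‖ / 2) ∈ 𝓝 (0 : ℂ) :=
    inter_mem hn (ball_mem_nhds _ (by positivity))
  have hBy : ball (0 : ℂ) 1 ∩ ball y (‖y‖ / 2) ∈ 𝓝 y :=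
    inter_mem (isOpen_ball.mem_nhds hy) (ball_mem_nhds _ (by positivity))
  have h3 : g '' (ball (0 : ℂ) 1 ∩ ball 0 (‖y‖ / 2)) ∈ 𝓝 (g 0) :=
    npe_map hg hi (mem_ball_self one_pos) (image_mem_map hB0)
  have h4 : g '' (ball (0 : ℂ) 1 ∩ ball y (‖y‖ / 2)) ∈ 𝓝 (g 0) := by
    rw [← hgy]
    exact npe_map hg hi hy (image_mem_map hBy)
  have h5 : g '' (ball (0 : ℂ) 1 ∩ ball 0 (‖y‖ / 2)) ∩ g '' (ball (0 : ℂ) 1 ∩ ball y (‖y‖ / 2)) ∈ 𝓝[≠] (g 0) :=
    mem_nhdsWithin_of_mem_nhds (inter_mem h3 h4)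
  obtain ⟨p, ⟨⟨x', hx', hpx⟩, ⟨y', hy', hpy⟩⟩, hp⟩ := (NormedField.nhdsNE_neBot (g 0)).nonempty_of_mem
    (inter_mem h5 self_mem_nhdsWithin)
  have hx0 : x' ≠ 0 := by
    rintro rfl
    exact hp hpx.symm
  have hd : ∀ w : ℂ, w ∈ ball (0 : ℂ) (‖y‖ / 2) → w ∈ ball y (‖y‖ / 2) → False := by
    intro w hw1 hw2
    rw [mem_ball, dist_zero_right] at hw1
    rw [mem_ball, dist_eq_norm] at hw2
    have : ‖y‖ ≤ ‖w‖ + ‖w - y‖ := by
      have := norm_sub_le w (w - y)
      simpa using this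
    linarith
  have hy0' : y' ≠ 0 := by
    rintro rfl
    exact hd 0 (mem_ball_self (by positivity)) hy'.2
  have h6 : x' = y' := hi ⟨hx'.1, hx0⟩ ⟨hy'.1, hy0'⟩ (hpx.trans hpy.symm)
  subst h6
  exact hd _ hx'.2 hy'.2

theorem npe_core {U : Set ℂ} {F : ℂ → ℂ} {I : Set ℝ} {Φ : ℂ → ℂ} {T t0 : ℝ}
    (hp : Per U F I Φ T t0) (hb : Bornology.IsBounded U) {ε : ℝ} (hε : ε = 1 ∨ ε = -1)
    (hI : ∀ x : ℝ, 0 ≤ ε * x → x ∈ I) : Punct U F := by
  have hT := hp.T0
  have hπ := Real.pi_pos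
  have hε2 : ε * ε = 1 := by rcases hε with h | h <;> rw [h] <;> norm_num
  have hε0 : ε ≠ 0 := by
    intro h
    rw [h] at hε2
    norm_num at hε2
  have hεn : |ε| = 1 := by rcases hε with h | h <;> rw [h] <;> norm_num
  have hεC : (ε : ℂ) * ε = 1 := by exact_mod_cast hε2
  have hTC : (T : ℂ) ≠ 0 := by exact_mod_cast hT.ne'
  have hπC : (Real.pi : ℂ) ≠ 0 := by exact_mod_cast hπ.ne'
  set c : ℂ := ((ε * (2 * Real.pi / T) : ℝ) : ℂ) * Complex.I with hc
  have hk0 : ε * (2 * Real.pi / T) ≠ 0 := mul_ne_zero hε0 (by positivity)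
  have hc0 : c ≠ 0 := by
    rw [hc]
    exact mul_ne_zero (by exact_mod_cast hk0) Complex.I_ne_zero
  have hcT : c * T = ε * (2 * Real.pi * Complex.I) := by
    rw [hc]
    push_cast
    field_simp
  -- the imaginary part
  have him : ∀ v : ℂ, (v / c).im = - (ε * (T / (2 * Real.pi))) * v.re := by
    intro v
    have h1 : v / c = (((- (ε * (T / (2 * Real.pi))) : ℝ)) : ℂ) * (v * Complex.I) := by
      rw [div_eq_iff hc0]
      have h2 : c * (ε * (T / (2 * Real.pi)) : ℂ) = Complex.I := by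
        have : c * (ε * (T / (2 * Real.pi)) : ℂ) = c * T * ε / (2 * Real.pi) := by ring
        rw [this, hcT]
        have : (ε : ℂ) * (2 * Real.pi * Complex.I) * ε = (ε * ε) * (2 * Real.pi * Complex.I) := by ring
        rw [this, hεC]
        field_simp
      push_cast
      have h3 : -((ε : ℂ) * ((T : ℂ) / (2 * Real.pi))) * (v * Complex.I) * c =
        -(v * Complex.I * (c * (ε * (T / (2 * Real.pi))))) := by ring
      rw [h3, h2]
      linear_combination v * Complex.I_mul_I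
    rw [h1, Complex.im_ofReal_mul, Complex.mul_I_im]
  have hexn : ∀ ζ : ℂ, ‖Complex.exp (c * ζ)‖ = Real.exp (-(ε * (2 * Real.pi / T)) * ζ.im) := by
    intro ζ
    rw [Complex.norm_exp, hc]
    congr 1
    rw [mul_assoc, Complex.re_ofReal_mul, Complex.I_mul_re]
    ring
  have hexl : ∀ w : ℂ, w ≠ 0 → Complex.exp (c * (Complex.log w / c)) = w := by
    intro w hw
    rw [mul_div_cancel₀ _ hc0, Complex.exp_log hw]
  -- the strip
  have hstr : ∀ ζ : ℂ, ‖Complex.exp (c * ζ)‖ < 1 → ζ ∈ Str I := by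
    intro ζ hζ
    rw [hexn, Real.exp_lt_one_iff] at hζ
    apply hI
    have h1 : 0 < (2 * Real.pi / T) * (ε * ζ.im) := by
      have : -(ε * (2 * Real.pi / T)) * ζ.im = - ((2 * Real.pi / T) * (ε * ζ.im)) := by ring
      rw [this] at hζ
      linarith
    exact (pos_of_mul_pos_right h1 (by positivity)).le
  have hkey : ∀ ζ ζ' : ℂ, ‖Complex.exp (c * ζ)‖ < 1 → Complex.exp (c * ζ) = Complex.exp (c * ζ') →
      Φ ζ = Φ ζ' := by
    intro ζ ζ' h1 h2
    have h3 := hstr ζ h1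
    have h4 := hstr ζ' (h2 ▸ h1)
    rw [hp.per ζ h3 ζ' h4]
    obtain ⟨m, hm⟩ := Complex.exp_eq_exp_iff_exists_int.1 h2
    -- c ζ = c ζ' + m (2 π i)
    have h5 : (2 * Real.pi * Complex.I : ℂ) = ε * (c * T) := by
      rw [hcT, ← mul_assoc, hεC, one_mul]
    rw [h5] at hm
    have h6 : ζ = ζ' + m * (ε * T) := by
      apply mul_left_cancel₀ hc0
      rw [hm]
      ring
    rcases hε with h | h
    · refine ⟨-m, ?_⟩
      rw [h6, h]
      push_cast
      ring
    · refine ⟨m, ?_⟩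
      rw [h6, h]
      push_cast
      ring
  have hinv : ∀ ζ ζ' : ℂ, ‖Complex.exp (c * ζ)‖ < 1 → ‖Complex.exp (c * ζ')‖ < 1 → Φ ζ = Φ ζ' →
      Complex.exp (c * ζ) = Complex.exp (c * ζ') := by
    intro ζ ζ' h1 h2 h3
    obtain ⟨m, hm⟩ := (hp.per ζ (hstr ζ h1) ζ' (hstr ζ' h2)).1 h3
    rw [Complex.exp_eq_exp_iff_exists_int]
    have h4 : c * ζ' = c * ζ + m * (ε * (2 * Real.pi * Complex.I)) := by
      rw [hm, mul_add, ← hcT]
      ring
    rcases hε with h | h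
    · refine ⟨-m, ?_⟩
      rw [h4, h]
      push_cast
      ring
    · refine ⟨m, ?_⟩
      rw [h4, h]
      push_cast
      ring
  set ψ : ℂ → ℂ := fun w => Φ (Complex.log w / c) with hψ
  have hlt : ∀ w : ℂ, w ≠ 0 → w ∈ ball (0 : ℂ) 1 →
      ‖Complex.exp (c * (Complex.log w / c))‖ < 1 := by
    intro w hw hw1
    rw [hexl w hw]
    simpa using hw1
  have hψm : ∀ w : ℂ, w ≠ 0 → w ∈ ball (0 : ℂ) 1 → ψ w ∈ U := by
    intro w hw hw1
    exact hp.maps (hstr _ (hlt w hw hw1))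
  have hStrO : IsOpen (Str I) := hp.op.preimage Complex.continuous_im
  have hΦd : ∀ ζ : ℂ, ζ ∈ Str I → DifferentiableAt ℂ Φ ζ := by
    intro ζ hζ
    exact (hp.df ζ hζ).differentiableAt (hStrO.mem_nhds hζ)
  have hψd : ∀ w : ℂ, w ≠ 0 → w ∈ ball (0 : ℂ) 1 → DifferentiableAt ℂ ψ w := by
    intro w hw hw1
    by_cases hs : w ∈ Complex.slitPlane
    · have h1 : DifferentiableAt ℂ (fun w => Complex.log w / c) w :=
        (Complex.differentiableAt_log hs).div_const c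
      exact DifferentiableAt.comp w (hΦd _ (hstr _ (hlt w hw hw1))) h1
    · have hs' : -w ∈ Complex.slitPlane := by
        rw [Complex.mem_slitPlane_iff] at hs ⊢
        push Not at hs
        have hre : w.re ≤ 0 := hs.1
        have him0 : w.im = 0 := hs.2
        left
        rw [Complex.neg_re]
        rcases hre.lt_or_eq with h | h
        · linarith
        · exact absurd (Complex.ext h him0) hw
      have h1 : DifferentiableAt ℂ (fun w => (Complex.log (-w) + Real.pi * Complex.I) / c) w := by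
        have h0 : DifferentiableAt ℂ (fun w => Complex.log (-w)) w :=
          (Complex.differentiableAt_log hs').comp w (differentiableAt_id.neg)
        exact (h0.add_const _).div_const c
      have h2 : ∀ v : ℂ, v ≠ 0 →
          Complex.exp (c * ((Complex.log (-v) + Real.pi * Complex.I) / c)) = v := by
        intro v hv
        rw [mul_div_cancel₀ _ hc0, Complex.exp_add, Complex.exp_log (neg_ne_zero.2 hv),
          Complex.exp_pi_mul_I]
        ring
      have h3 : (ψ : ℂ → ℂ) =ᶠ[𝓝 w] fun v => Φ ((Complex.log (-v) + Real.pi * Complex.I) / c) := by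
        filter_upwards [isOpen_ne.mem_nhds hw, isOpen_ball.mem_nhds hw1] with v hv hv1
        exact hkey _ _ (hlt v hv hv1) (by rw [hexl v hv, h2 v hv])
      have h4 : DifferentiableAt ℂ
          (fun v => Φ ((Complex.log (-v) + Real.pi * Complex.I) / c)) w := by
        refine DifferentiableAt.comp w (hΦd _ (hstr _ ?_)) h1
        rw [h2 w hw]
        simpa using hw1
      exact h4.congr_of_eventuallyEq h3
  have hψi : InjOn ψ (ball (0 : ℂ) 1 \ {0}) := by
    intro w hw w' hw' he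
    have h1 := hinv _ _ (hlt w hw.2 hw.1) (hlt w' hw'.2 hw'.1) he
    rwa [hexl w hw.2, hexl w' hw'.2] at h1
  have hbd : BddAbove (norm ∘ ψ '' (ball (0 : ℂ) 1 \ {0})) := by
    obtain ⟨C, hC⟩ := hb.exists_norm_le
    refine ⟨C, ?_⟩
    rintro _ ⟨w, hw, rfl⟩
    exact hC _ (hψm w hw.2 hw.1)
  have hψD : DifferentiableOn ℂ ψ (ball (0 : ℂ) 1 \ {0}) := fun w hw =>
    (hψd w hw.2 hw.1).differentiableWithinAt
  have hg := Complex.differentiableOn_update_limUnder_of_bddAbove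
    (ball_mem_nhds (0 : ℂ) one_pos) hψD hbd
  set g : ℂ → ℂ := Function.update ψ 0 (limUnder (𝓝[≠] 0) ψ) with hgdef
  have hge : ∀ w : ℂ, w ≠ 0 → g w = ψ w := fun w hw => by
    rw [hgdef, Function.update_of_ne hw]
  have hgi : InjOn g (ball (0 : ℂ) 1 \ {0}) := by
    intro w hw w' hw' he
    rw [hge w hw.2, hge w' hw'.2] at he
    exact hψi hw hw' he
  have hl0 : Complex.exp (c * t0) ≠ 0 := Complex.exp_ne_zero _
  have hl1 : ‖Complex.exp (c * t0)‖ = 1 := by
    rw [hexn, Complex.ofReal_im, mul_zero, Real.exp_zero]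
  refine ⟨Complex.exp (c * t0), 1, g, one_pos, hl1, hg, npe_der hg hgi, ?_⟩
  intro w hw hw0
  have hlw : Complex.exp (c * t0) * w ≠ 0 := mul_ne_zero hl0 hw0
  have hlwb : Complex.exp (c * t0) * w ∈ ball (0 : ℂ) 1 := by
    rw [mem_ball, dist_zero_right, norm_mul, hl1, one_mul]
    simpa using hw
  rw [hge w hw0, hge _ hlw]
  refine ⟨hψm w hw0 hw, ?_⟩
  rw [hψ]
  simp only
  rw [hp.tr _ (hstr _ (hlt w hw0 hw))]
  symm
  apply hkey _ _ (hlt _ hlw hlwb)
  rw [hexl _ hlw, mul_add, Complex.exp_add, hexl _ hw0, mul_comm]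

theorem npe_up {U : Set ℂ} {F : ℂ → ℂ} {I : Set ℝ} {Φ : ℂ → ℂ} {T t0 : ℝ} (hp : Per U F I Φ T t0)
    (hb : Bornology.IsBounded U) (hI : ∀ x : ℝ, 0 ≤ x → x ∈ I) : Punct U F :=
  npe_core hp hb (Or.inl rfl) (fun x hx => hI x (by linarith))

theorem npe_dn {U : Set ℂ} {F : ℂ → ℂ} {I : Set ℝ} {Φ : ℂ → ℂ} {T t0 : ℝ} (hp : Per U F I Φ T t0)
    (hb : Bornology.IsBounded U) (hI : ∀ x : ℝ, x ≤ 0 → x ∈ I) : Punct U F :=
  npe_core hp hb (Or.inr rfl) (fun x hx => hI x (by linarith))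

end Pool.Agent.H56.RD
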