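import Pool.Agent.H56.RD.LM2
import Pool.Agent.H56.RD.MTM
import Pool.Agent.H56.RD.HUR
import Pool.Agent.H32.BT.Branch

/-!
# Module LM3: compactness of the iterates, inverses of limit maps

PROOF. (0) The inverse `H = Function.invFunOn F U` maps `U` to `U`, `F (H y) = y`, `H (F z) = z` on `U` (`h.bj`), and it is holomorphic on `U`: `F` is injective on the open set `U`, so `deriv F z ≠ 0` on `U` (`not_injOn_of_deriv`, H91/Fatou/Crit) and `H` is the local inverse (`HasStrictDerivAt.to_localInverse`, or `HasDerivAt.of_local_left_inverse`, with the continuity of `H` from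
the open mapping theorem). So all `H^[j] : U → U` are holomorphic and `H^[j] (F^[j] z) = z` on `U`. Let `U ⊆ ball 0 M`, `M > 0`.
(1) Cauchy: if `ball y (2 r) ⊆ U` then `‖deriv (H^[j]) y'‖ ≤ M / r` for all `j` and `y' ∈ ball y r` (`Complex.norm_deriv_le_of_forall_mem_sphere_norm_le`). The chain rule for `H^[j] (F^[j] z) = z` gives: if `z ∈ U`, `F^[j] z ∈ ball y r`, then `r / M ≤ ‖deriv (F^[j]) z‖`.
`lim_cpt0`. `mtm` (the `F^[j]` are bounded by `M` on `U`): a strictly increasing `σ` with `F^[m (σ k)] → g` (`JC`), `g` holomorphic. `g z = y` (`jc_mv` along `u (σ k) → z`, uniqueness of limits). For large `k`: `u (σ k) ∈ U`, `F^[m (σ k)] (u (σ k)) ∈ ball y r`, so `r / M ≤ ‖deriv (F^[m (σ k)]) (u (σ k))‖ → ‖deriv g z‖` (`jc_deriv`, `jc_mv`):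
`deriv g z ≠ 0`. `hur_map` (`W = U`): `g` maps `U` to `U`. So `Lim U F g` (with `m ∘ σ`).
`lim_inv`. `g` is the limit of `F^[m k]`. Let `z0 ∈ U`, `y = g z0 ∈ U`, `u k = F^[m k] z0 → y`. Choose `j k` with `j k ≥ k` and `n (j k) ≥ m k + k` (`h.tn`), `a k = n (j k) - m k ≥ k`. `F^[a k] (u k) = F^[n (j k)] z0 → z0`. `lim_cpt0` for `a`, `u`: `g' ∈ Lim`, `g' y = z0`. `g' ∘ g ∈ Lim` (`lim_comp`) fixes `z0`, so `g' (g z) = z` on `U` (`lim_fix`); `g (g' z) = g' (g z)` (`lim_comm`).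
-/

set_option autoImplicit false

open Filter Topology Metric Set

namespace Pool.Agent.H56.RD

variable {U : Set ℂ} {F g g' : ℂ → ℂ} {n : ℕ → ℕ}

private theorem lm3_open {V : Set ℂ} (hV : IsOpen V) (hc : IsPreconnected V) {f : ℂ → ℂ}
    (hf : DifferentiableOn ℂ f V) (hi : InjOn f V) : ∀ s ⊆ V, IsOpen s → IsOpen (f '' s) := by
  rcases V.eq_empty_or_nonempty with he | ⟨c, hcV⟩
  · intro s hs _
    rw [he, subset_empty_iff] at hs
    rw [hs, image_empty]
    exact isOpen_empty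
  rcases (hf.analyticOnNhd hV).is_constant_or_isOpen hc with ⟨w, hw⟩ | h1
  · exfalso
    obtain ⟨R, hR, hb⟩ := Metric.isOpen_iff.1 hV c hcV
    have h2 : c + ((R / 2 : ℝ) : ℂ) ∈ ball c R := by
      rw [mem_ball_iff_norm, add_sub_cancel_left, Complex.norm_real,
        Real.norm_of_nonneg (by positivity)]
      linarith
    have h3 := hi hcV (hb h2) ((hw _ hcV).trans (hw _ (hb h2)).symm)
    have h4 : ((R / 2 : ℝ) : ℂ) = 0 := by linear_combination -h3
    have h5 : R / 2 = 0 := by exact_mod_cast h4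
    linarith
  · exact h1

private theorem lm3_hol {V : Set ℂ} (hV : IsOpen V) (hc : IsPreconnected V) {f : ℂ → ℂ}
    (hf : DifferentiableOn ℂ f V) (hi : InjOn f V) :
    DifferentiableOn ℂ (Function.invFunOn f V) (f '' V) := by
  have hopen := lm3_open hV hc hf hi
  obtain ⟨k, hk⟩ : ∃ k, k = Function.invFunOn f V := ⟨_, rfl⟩
  rw [← hk]
  have hkmem : ∀ w ∈ f '' V, k w ∈ V := fun w hw => by
    rw [hk]
    exact Function.invFunOn_mem hw
  have hkeq : ∀ w ∈ f '' V, f (k w) = w := fun w hw => by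
    rw [hk]
    exact Function.invFunOn_eq hw
  have hkg : ∀ y ∈ V, k (f y) = y := by
    intro y hy
    have hw : f y ∈ f '' V := mem_image_of_mem f hy
    exact hi (hkmem _ hw) hy (hkeq _ hw)
  have hkc : ContinuousOn k (f '' V) := by
    rintro w ⟨y, hy, rfl⟩
    apply ContinuousAt.continuousWithinAt
    rw [ContinuousAt, hkg y hy]
    intro N hN
    obtain ⟨N', hN'N, hN'o, hyN'⟩ := _root_.mem_nhds_iff.1 hN
    have h1 : IsOpen (f '' (N' ∩ V)) := hopen _ inter_subset_right (hN'o.inter hV)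
    have h2 : f y ∈ f '' (N' ∩ V) := mem_image_of_mem f ⟨hyN', hy⟩
    rw [Filter.mem_map]
    filter_upwards [h1.mem_nhds h2] with v hv
    obtain ⟨x, hx, rfl⟩ := hv
    show k (f x) ∈ N
    rw [hkg x hx.2]
    exact hN'N hx.1
  intro w hw
  exact (Pool.Agent.H32.BT.diff_of_inverse ((hopen _ subset_rfl hV).mem_nhds hw) hkc hV
    (hkmem w hw) hf (fun v hv _ => hkeq v hv)).differentiableWithinAt

/-- the derivatives of the iterates are bounded below -/
private theorem lm3_low (h : Dom U F n) {M : ℝ} (hM : U ⊆ ball 0 M) {y : ℂ} {r : ℝ} (hr : 0 < r)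
    (hb : ball y (2 * r) ⊆ U) (j : ℕ) {z : ℂ} (hz : z ∈ U) (hzy : F^[j] z ∈ ball y r) :
    r ≤ M * ‖deriv F^[j] z‖ := by
  obtain ⟨H, hH⟩ : ∃ H, H = Function.invFunOn F U := ⟨_, rfl⟩
  have hHd : DifferentiableOn ℂ H U := by
    have h1 := lm3_hol h.op h.pc h.df h.bj.injOn
    rw [h.bj.image_eq] at h1
    rw [hH]
    exact h1
  have hHm : MapsTo H U U := by
    intro w hw
    rw [← h.bj.image_eq] at hw
    rw [hH]
    exact Function.invFunOn_mem hw
  have hHF : ∀ w ∈ U, H (F w) = w := by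
    intro w hw
    have h1 : F w ∈ F '' U := mem_image_of_mem F hw
    have h2 : F (H (F w)) = F w := by
      rw [hH]
      exact Function.invFunOn_eq h1
    exact h.bj.injOn (hHm (h.bj.mapsTo hw)) hw h2
  have hHj : ∀ j : ℕ, DifferentiableOn ℂ H^[j] U ∧ MapsTo H^[j] U U ∧
      ∀ w ∈ U, H^[j] (F^[j] w) = w := by
    intro j
    induction j with
    | zero => exact ⟨differentiableOn_id, fun w hw => hw, fun w _ => rfl⟩
    | succ j ih =>
      obtain ⟨i1, i2, i3⟩ := ih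
      refine ⟨?_, ?_, fun w hw => ?_⟩
      · rw [Function.iterate_succ]
        exact i1.comp hHd hHm
      · rw [Function.iterate_succ]
        exact i2.comp hHm
      · rw [Function.iterate_succ_apply, Function.iterate_succ_apply', hHF _ (h.itm j hw)]
        exact i3 w hw
  obtain ⟨i1, i2, i3⟩ := hHj j
  -- Cauchy
  have hcb : closedBall (F^[j] z) r ⊆ U := by
    refine Subset.trans ?_ hb
    intro w hw
    rw [mem_ball]
    rw [mem_closedBall] at hw
    rw [mem_ball] at hzy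
    have := dist_triangle w (F^[j] z) y
    linarith
  have hd1 : ‖deriv H^[j] (F^[j] z)‖ ≤ M / r := by
    refine Complex.norm_deriv_le_of_forall_mem_sphere_norm_le hr
      (DifferentiableOn.diffContOnCl_ball (i1.mono hcb) subset_rfl) fun w hw => ?_
    have h1 := hM (i2 (hcb (sphere_subset_closedBall hw)))
    rw [mem_ball_zero_iff] at h1
    exact h1.le
  -- chain rule
  have e1 : HasDerivAt F^[j] (deriv F^[j] z) z :=
    ((h.itd j).differentiableAt (h.op.mem_nhds hz)).hasDerivAt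
  have e2 : HasDerivAt H^[j] (deriv H^[j] (F^[j] z)) (F^[j] z) :=
    (i1.differentiableAt (h.op.mem_nhds (h.itm j hz))).hasDerivAt
  have e3 := e2.comp z e1
  have e4 : HasDerivAt (H^[j] ∘ F^[j]) 1 z := by
    refine (hasDerivAt_id z).congr_of_eventuallyEq ?_
    filter_upwards [h.op.mem_nhds hz] with w hw
    exact i3 w hw
  have e5 := congrArg norm (e3.unique e4)
  rw [norm_mul, norm_one] at e5
  have e6 : 1 ≤ M / r * ‖deriv F^[j] z‖ := by
    rw [← e5]
    exact mul_le_mul_of_nonneg_right hd1 (norm_nonneg _)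
  calc r = r * 1 := (mul_one r).symm
    _ ≤ r * (M / r * ‖deriv F^[j] z‖) := mul_le_mul_of_nonneg_left e6 hr.le
    _ = M * ‖deriv F^[j] z‖ := by
      field_simp

theorem lim_cpt0 (h : Dom U F n) {m : ℕ → ℕ} (hm : Tendsto m atTop atTop) {u : ℕ → ℂ} {z y : ℂ}
    (hz : z ∈ U) (hu : Tendsto u atTop (𝓝 z)) (hy : y ∈ U)
    (hl : Tendsto (fun k => F^[m k] (u k)) atTop (𝓝 y)) :
    ∃ (σ : ℕ → ℕ) (g : ℂ → ℂ), StrictMono σ ∧ Lim U F g ∧ JC (fun k => F^[m (σ k)]) g U ∧
      g z = y := by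
  obtain ⟨M, hM0, hM⟩ := h.bd.subset_ball_lt 0 0
  obtain ⟨r, hr, hb⟩ : ∃ r : ℝ, 0 < r ∧ ball y (2 * r) ⊆ U := by
    obtain ⟨s, hs, hb⟩ := Metric.isOpen_iff.1 h.op y hy
    refine ⟨s / 2, half_pos hs, ?_⟩
    rw [mul_div_cancel₀ s two_ne_zero]
    exact hb
  obtain ⟨σ, g, hσ, hgd, hgj⟩ := mtm (F := fun k => F^[m k]) h.op (fun k => h.itd (m k)) (by
    intro w hw
    obtain ⟨s, hs, hsb⟩ := Metric.isOpen_iff.1 h.op w hw
    refine ⟨s, hs, M, Eventually.of_forall fun k w' hw' => ?_⟩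
    have h1 := hM (h.itm (m k) (hsb hw'))
    rw [mem_ball_zero_iff] at h1
    exact h1.le)
  have hσt := hσ.tendsto_atTop
  have huσ : Tendsto (fun k => u (σ k)) atTop (𝓝 z) := hu.comp hσt
  have hlσ : Tendsto (fun k => F^[m (σ k)] (u (σ k))) atTop (𝓝 y) := hl.comp hσt
  have hgz : g z = y := tendsto_nhds_unique (jc_mv hgj hz tendsto_id huσ) hlσ
  have hder := jc_mv (jc_deriv h.op (fun k => h.itd (m (σ k))) hgj) hz tendsto_id huσ
  have hlow : r / M ≤ ‖deriv g z‖ := by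
    refine ge_of_tendsto hder.norm ?_
    filter_upwards [huσ.eventually (h.op.mem_nhds hz), hlσ.eventually (ball_mem_nhds y hr)]
      with k hk1 hk2
    rw [div_le_iff₀ hM0, mul_comm]
    exact lm3_low h hM hr hb (m (σ k)) hk1 hk2
  have hgne : deriv g z ≠ 0 := by
    rw [← norm_pos_iff]
    exact lt_of_lt_of_le (div_pos hr hM0) hlow
  have hgm : MapsTo g U U := hur_map h.op h.pc (fun k => h.itd (m (σ k)))
    (fun k => h.itm (m (σ k))) hgj ⟨z, hz, hgne⟩
  exact ⟨σ, g, hσ, ⟨hgm, fun k => m (σ k), hm.comp hσt, hgj⟩, hgj, hgz⟩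

theorem lim_inv (h : Dom U F n) (hg : Lim U F g) :
    ∃ g' : ℂ → ℂ, Lim U F g' ∧ (∀ z ∈ U, g' (g z) = z) ∧ ∀ z ∈ U, g (g' z) = z := by
  obtain ⟨z0, hz0⟩ := h.ne
  have hg' := hg
  obtain ⟨hgm, m, hm, hgj⟩ := hg
  have hex : ∀ k : ℕ, ∃ j : ℕ, m k + k ≤ n j ∧ k ≤ j := fun k =>
    ((h.tn.eventually_ge_atTop (m k + k)).and (eventually_ge_atTop k)).exists
  choose j hj1 hj2 using hex
  have hjt : Tendsto j atTop atTop := tendsto_atTop_mono hj2 tendsto_id
  have ha : Tendsto (fun k => n (j k) - m k) atTop atTop := by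
    refine tendsto_atTop_mono (fun k => ?_) tendsto_id
    have := hj1 k
    show k ≤ n (j k) - m k
    omega
  have hu : Tendsto (fun k => F^[m k] z0) atTop (𝓝 (g z0)) := jc_pt hgj hz0
  have hl : Tendsto (fun k => F^[n (j k) - m k] (F^[m k] z0)) atTop (𝓝 z0) := by
    have h1 : Tendsto (fun k => F^[n (j k)] z0) atTop (𝓝 z0) := (jc_pt h.id hz0).comp hjt
    refine h1.congr fun k => ?_
    rw [← Function.iterate_add_apply]
    congr 2
    have := hj1 k
    omega
  obtain ⟨σ, g1, -, hg1, -, hg1z⟩ := lim_cpt0 h ha (hgm hz0) hu hz0 hl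
  have hc1 := lim_fix h (lim_comp h hg1 hg') hz0 hg1z
  refine ⟨g1, hg1, hc1, fun z hz => ?_⟩
  rw [lim_comm h hg' hg1 hz]
  exact hc1 z hz

end Pool.Agent.H56.RD
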