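import Pool.Agent.H56.RD.SOU
import Pool.Agent.H56.RD.LM3

/-!
# Module MXT: limit maps act on the strip as real translations

PROOF. Let `a = ζ2 - ζ1`, `β = a.im`. `g'`: the inverse of `g` (`lim_inv`). `Ψ ζ = g (Φ (ζ - a))` is a solution on `Str (I + β)` (`I + β = {s | s - β ∈ I}`, open, `OrdConnected`; `sol_lim`, `sol_shift`), `Ψ ζ2 = g (Φ ζ1) = Φ ζ2`: `hm.max` (with `ζ2`; `ζ2.im ∈ I`, `ζ2.im - β = ζ1.im ∈ I`): `I + β ⊆ I`. `Ψ' ζ = g' (Φ (ζ + a))` is a solution on `Str (I - β)`,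
`Ψ' ζ1 = g' (Φ ζ2) = Φ ζ1`: `I - β ⊆ I`.
If `β ≠ 0`: `0 ∈ I` gives `k β ∈ I` for all integers `k`, so `I = univ` (`OrdConnected`, unbounded in both directions), `Str I = univ`, `Φ` is an entire function with values in the bounded set `U`, hence constant (`Differentiable.apply_eq_apply_of_bounded`), but its derivative at `0` is `X (Φ 0) ≠ 0`. So `β = 0`: the first claim, and `Str I` is invariant under the translation by `a`.
`g ∘ Φ` and `ζ ↦ Φ (ζ + a)` are solutions on `Str I` (`sol_lim`, `sol_shift`), equal at `ζ1`: `sol_uniq` (`str_op`, `str_pc`).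
-/

set_option autoImplicit false

open Filter Topology Metric Set

namespace Pool.Agent.H56.RD

private theorem mxt_sub {U : Set ℂ} {F : ℂ → ℂ} {n : ℕ → ℕ} {X : ℂ → ℂ} {e : ℕ → ℝ} (v : Vec U F n X e)
    {z0 : ℂ} {I : Set ℝ} {Φ : ℂ → ℂ} (hm : MaxS X U z0 I Φ) {g : ℂ → ℂ} (hg : Lim U F g)
    {ζ1 ζ2 : ℂ} (h1 : ζ1 ∈ Str I) (h2 : ζ2 ∈ Str I) (he : g (Φ ζ1) = Φ ζ2) :
    ∀ s ∈ I, s + (ζ2 - ζ1).im ∈ I := by
  obtain ⟨a, ha⟩ : ∃ a : ℂ, a = ζ2 - ζ1 := ⟨_, rfl⟩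
  rw [← ha]
  have hs : Sol X U (Str {s | s - a.im ∈ I}) (fun ζ => g (Φ (ζ + -a))) := by
    refine sol_mono (sol_lim v (sol_shift hm.sol (-a)) hg) fun ζ hζ => ?_
    have h3 : ζ.im - a.im ∈ I := hζ
    show (ζ + -a).im ∈ I
    rw [Complex.add_im, Complex.neg_im, ← sub_eq_add_neg]
    exact h3
  have hJo : IsOpen {s : ℝ | s - a.im ∈ I} := hm.op.preimage (continuous_id.sub continuous_const)
  have hJc : {s : ℝ | s - a.im ∈ I}.OrdConnected := by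
    refine ⟨fun s hs t ht u hu => ?_⟩
    have h3 : s - a.im ∈ I := hs
    have h4 : t - a.im ∈ I := ht
    exact hm.oc.out h3 h4 ⟨by linarith [hu.1], by linarith [hu.2]⟩
  have h3 : ζ2.im ∈ {s : ℝ | s - a.im ∈ I} := by
    show ζ2.im - a.im ∈ I
    rw [ha, Complex.sub_im, sub_sub_cancel]
    exact h1
  have h4 : (fun ζ => g (Φ (ζ + -a))) ζ2 = Φ ζ2 := by
    show g (Φ (ζ2 + -a)) = Φ ζ2
    rw [ha, ← he]
    congr 2
    ring
  have h5 := hm.max _ _ ζ2 hJo hJc h2 h3 hs h4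
  intro s hsI
  apply h5
  show s + a.im - a.im ∈ I
  rw [add_sub_cancel_right]
  exact hsI

theorem mxt {U : Set ℂ} {F : ℂ → ℂ} {n : ℕ → ℕ} {X : ℂ → ℂ} {e : ℕ → ℝ} (v : Vec U F n X e)
    {z0 : ℂ} {I : Set ℝ} {Φ : ℂ → ℂ} (hm : MaxS X U z0 I Φ) {g : ℂ → ℂ} (hg : Lim U F g)
    {ζ1 ζ2 : ℂ} (h1 : ζ1 ∈ Str I) (h2 : ζ2 ∈ Str I) (he : g (Φ ζ1) = Φ ζ2) :
    ζ2.im = ζ1.im ∧ ∀ ζ ∈ Str I, g (Φ ζ) = Φ (ζ + (ζ2 - ζ1)) := by
  obtain ⟨g', hg', hgg, -⟩ := lim_inv v.dom hg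
  have hA := mxt_sub v hm hg h1 h2 he
  have hB := mxt_sub v hm hg' h2 h1 (by rw [← he]; exact hgg _ (hm.sol.maps h1))
  obtain ⟨β, hβ⟩ : ∃ β : ℝ, β = (ζ2 - ζ1).im := ⟨_, rfl⟩
  have hβ' : (ζ1 - ζ2).im = -β := by
    rw [hβ, ← Complex.neg_im]
    congr 1
    ring
  rw [← hβ] at hA
  rw [hβ'] at hB
  have h0 : (0 : ℂ) ∈ Str I := by
    show (0 : ℂ).im ∈ I
    rw [Complex.zero_im]
    exact hm.zero
  have hβ0 : β = 0 := by
    by_contra hne
    have hk : ∀ k : ℕ, (k : ℝ) * β ∈ I ∧ -((k : ℝ) * β) ∈ I := by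
      intro k
      induction k with
      | zero => simpa using hm.zero
      | succ k ih =>
        have h3 := hA _ ih.1
        have h4 := hB _ ih.2
        push_cast
        refine ⟨by convert h3 using 1; ring, by convert h4 using 1; ring⟩
    have huniv : ∀ s : ℝ, s ∈ I := by
      intro s
      obtain ⟨k, hk1⟩ := exists_nat_gt (|s| / |β|)
      have hb : 0 < |β| := abs_pos.2 hne
      rw [div_lt_iff₀ hb] at hk1
      have h3 := abs_lt.1 hk1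
      rcases abs_choice β with h4 | h4
      · rw [h4] at h3
        exact hm.oc.out (hk k).2 (hk k).1 ⟨h3.1.le, h3.2.le⟩
      · rw [h4] at h3
        exact hm.oc.out (hk k).1 (hk k).2 ⟨by nlinarith [h3.1], by nlinarith [h3.2]⟩
    have hall : ∀ ζ : ℂ, ζ ∈ Str I := fun ζ => huniv _
    have hdiff : Differentiable ℂ Φ := fun ζ => (hm.sol.der ζ (hall ζ)).differentiableAt
    have hbd : Bornology.IsBounded (Set.range Φ) := by
      refine v.dom.bd.subset ?_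
      rintro _ ⟨ζ, rfl⟩
      exact hm.sol.maps (hall ζ)
    have hconst : Φ = fun _ => Φ 0 := funext fun ζ => hdiff.apply_eq_apply_of_bounded hbd ζ 0
    have h5 := hm.sol.der 0 h0
    have h6 : HasDerivAt Φ 0 0 := by
      rw [hconst]
      exact hasDerivAt_const _ _
    exact v.nz _ (hm.sol.maps h0) (h5.unique h6)
  have him : ζ2.im = ζ1.im := by
    rw [hβ0, Complex.sub_im] at hβ
    linarith
  refine ⟨him, ?_⟩
  have hs1 := sol_lim v hm.sol hg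
  have hs2 : Sol X U (Str I) (fun ζ => Φ (ζ + (ζ2 - ζ1))) := by
    refine sol_mono (sol_shift hm.sol (ζ2 - ζ1)) fun ζ hζ => ?_
    show (ζ + (ζ2 - ζ1)).im ∈ I
    rw [Complex.add_im, ← hβ, hβ0, add_zero]
    exact hζ
  refine sol_uniq v.fld (str_op hm.op) (str_pc hm.oc) hs1 hs2 (ζ0 := ζ1) h1 ?_
  show g (Φ ζ1) = Φ (ζ1 + (ζ2 - ζ1))
  rw [he]
  congr 1
  ring

end Pool.Agent.H56.RD
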