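import Pool.Agent.H56.RD.SRJ
import Pool.Agent.H56.RD.MXT

/-!
# Module PRD: the minimal period and the rotation number

PROOF. (1) `mxt` with `g = id` (`lim_id`): if `Φ ζ1 = Φ ζ2` (`ζ1, ζ2 ∈ Str I`) then `a = ζ2 - ζ1` is real and `Φ (ζ + a) = Φ ζ` for all `ζ ∈ Str I`. Let `P = {t : ℝ | Φ t = z0}` (real numbers are in `Str I`): by this it is `{t : ℝ | ∀ ζ ∈ Str I, Φ (ζ + t) = Φ ζ}`, an additive subgroup of `ℝ` (`AddSubgroup ℝ`), and closed (`Φ` is continuous on the real axis).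
(2) `P ≠ ⊤`: otherwise `Φ` is constant on the real axis, but its derivative at `0` is `X (Φ 0) ≠ 0`. (3) `P` contains a positive number: `Φ` is a solution on `ball 0 δ ⊆ Str I` for some `δ > 0` (`I` is open, `0 ∈ I`; `sol_mono`). `pri` with `δ0 = δ`: `T', N, g`, `τ = T' / N < δ`, `g (Φ 0) = Φ τ`. `mxt`: `g (Φ ζ) = Φ (ζ + τ)` on `Str I`, so `Φ (i τ) = g^[i] (Φ 0)`,
`Φ (N τ) = g^[N] z0 = z0`: `N τ = T' ∈ P`. (4) `AddSubgroup.dense_or_cyclic`: `P` is closed and `≠ ⊤`, so not dense (`Dense`, closed: everything), `P = zmultiples a` (closure of a singleton), `a ≠ 0`; `T = |a|`. `per`: if `Φ ζ1 = Φ ζ2` then `ζ2 - ζ1` is real and in `P`, so it is `m T`; conversely `m T ∈ P`.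
(5) `F (Φ 0) ∈ U = Φ '' Str I` (`srj`): `F (Φ 0) = Φ ζ2`; `mxt` with `g = F` (`lim_F`), `ζ1 = 0`: `ζ2.im = 0`, `t0 = ζ2.re`, `F (Φ ζ) = Φ (ζ + t0)`. `irr`: `F^[m] (Φ 0) = Φ (m t0)`; if `m t0 = j T` then `F^[m] z0 = Φ (j T) = z0`, against `v.dom.np`. `z0 = Φ 0 ∈ U`. The other fields: `hm.sol`, `sol_diff`, `srj`.
-/

set_option autoImplicit false

open Filter Topology Metric Set

namespace Pool.Agent.H56.RD

theorem prd {U : Set ℂ} {F : ℂ → ℂ} {n : ℕ → ℕ} {X : ℂ → ℂ} {e : ℕ → ℝ} (v : Vec U F n X e)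
    {z0 : ℂ} {I : Set ℝ} {Φ : ℂ → ℂ} (hm : MaxS X U z0 I Φ) : ∃ T t0 : ℝ, Per U F I Φ T t0 := by
  have hreal : ∀ t : ℝ, (t : ℂ) ∈ Str I := by
    intro t
    show (t : ℂ).im ∈ I
    rw [Complex.ofReal_im]
    exact hm.zero
  have h0 : (0 : ℂ) ∈ Str I := by
    have := hreal 0
    rwa [Complex.ofReal_zero] at this
  have hadd : ∀ {ζ : ℂ}, ζ ∈ Str I → ∀ t : ℝ, ζ + (t : ℂ) ∈ Str I := by
    intro ζ hζ t
    show (ζ + (t : ℂ)).im ∈ I
    rw [Complex.add_im, Complex.ofReal_im, add_zero]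
    exact hζ
  have hz0 : z0 ∈ U := by
    rw [← hm.init]
    exact hm.sol.maps h0
  -- the periods
  have key : ∀ ζ1 ∈ Str I, ∀ ζ2 ∈ Str I, Φ ζ1 = Φ ζ2 →
      ∃ t : ℝ, ζ2 = ζ1 + (t : ℂ) ∧ ∀ ζ ∈ Str I, Φ ζ = Φ (ζ + (t : ℂ)) := by
    intro ζ1 h1 ζ2 h2 he
    obtain ⟨h3, h4⟩ := mxt v hm (lim_id v.dom) h1 h2 he
    refine ⟨ζ2.re - ζ1.re, ?_, fun ζ hζ => ?_⟩
    · apply Complex.ext
      · simp
      · simp [h3]
    · rw [h4 ζ hζ]
      congr 2
      apply Complex.ext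
      · simp
      · simp [h3]
  obtain ⟨P, hP⟩ : ∃ P : AddSubgroup ℝ, ∀ t, t ∈ P ↔ ∀ ζ ∈ Str I, Φ ζ = Φ (ζ + (t : ℂ)) := by
    refine ⟨{ carrier := {t | ∀ ζ ∈ Str I, Φ ζ = Φ (ζ + (t : ℂ))}
              add_mem' := ?_, zero_mem' := ?_, neg_mem' := ?_ }, fun t => Iff.rfl⟩
    · intro s t hs ht ζ hζ
      rw [hs ζ hζ, ht _ (hadd hζ s), Complex.ofReal_add, add_assoc]
    · intro ζ hζ
      rw [Complex.ofReal_zero, add_zero]
    · intro t ht ζ hζ
      have h1 := ht (ζ + ((-t : ℝ) : ℂ)) (hadd hζ (-t))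
      rw [h1]
      congr 1
      push_cast
      ring
  have hPz : ∀ t : ℝ, t ∈ P ↔ Φ (t : ℂ) = z0 := by
    intro t
    rw [hP]
    constructor
    · intro h
      have h1 := h 0 h0
      rw [zero_add, hm.init] at h1
      exact h1.symm
    · intro h
      obtain ⟨s, hs1, hs2⟩ := key 0 h0 _ (hreal t) (by rw [hm.init, h])
      rw [zero_add] at hs1
      have hst : t = s := by exact_mod_cast hs1
      rw [hst]
      exact hs2
  have hclosed : IsClosed (P : Set ℝ) := by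
    have e1 : (P : Set ℝ) = (fun t : ℝ => Φ (t : ℂ)) ⁻¹' {z0} := by
      ext t
      exact hPz t
    rw [e1]
    refine isClosed_singleton.preimage ?_
    rw [continuous_iff_continuousAt]
    intro t
    exact ((hm.sol.der _ (hreal t)).continuousAt.comp Complex.continuous_ofReal.continuousAt)
  have htop : P ≠ ⊤ := by
    intro hT
    have h1 : ∀ t : ℝ, Φ (t : ℂ) = z0 := fun t => (hPz t).1 (by rw [hT]; exact AddSubgroup.mem_top t)
    have h2 : HasDerivAt (fun t : ℝ => Φ (t : ℂ)) (X (Φ ((0 : ℝ) : ℂ))) 0 :=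
      (hm.sol.der _ (hreal 0)).comp_ofReal
    have h3 : HasDerivAt (fun t : ℝ => Φ (t : ℂ)) 0 0 := by
      rw [show (fun t : ℝ => Φ (t : ℂ)) = fun _ => z0 from funext h1]
      exact hasDerivAt_const _ _
    exact v.nz _ (hm.sol.maps (hreal 0)) (h2.unique h3)
  -- a positive period
  obtain ⟨T', hT', hTP⟩ : ∃ T' : ℝ, 0 < T' ∧ T' ∈ P := by
    obtain ⟨T', hT', hpri⟩ := pri v
    obtain ⟨δ, hδ, hδI⟩ : ∃ δ : ℝ, 0 < δ ∧ ball (0 : ℂ) δ ⊆ Str I := by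
      obtain ⟨δ, hδ, h1⟩ := Metric.isOpen_iff.1 (str_op hm.op) 0 h0
      exact ⟨δ, hδ, h1⟩
    obtain ⟨N, g, hN, hτ, hgL, hgN, hg⟩ := hpri δ hδ
    obtain ⟨τ, hτe⟩ : ∃ τ : ℝ, τ = T' / (N : ℝ) := ⟨_, rfl⟩
    rw [← hτe] at hτ hg
    have h1 := hg δ Φ hτ (sol_mono hm.sol hδI)
    obtain ⟨-, h2⟩ := mxt v hm hgL h0 (hreal τ) h1
    have h3 : ∀ i : ℕ, g^[i] (Φ 0) = Φ (((i : ℝ) * τ : ℝ) : ℂ) := by
      intro i
      induction i with
      | zero =>
        rw [Function.iterate_zero, id_eq]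
        congr 1
        push_cast
        ring
      | succ i ih =>
        rw [Function.iterate_succ_apply', ih, h2 _ (hreal _)]
        congr 1
        push_cast
        ring
    have h4 := h3 N
    rw [hm.init, hgN z0 hz0] at h4
    refine ⟨T', hT', (hPz T').2 ?_⟩
    rw [h4, hτe]
    congr 2
    field_simp
  obtain ⟨a, ha⟩ : ∃ a : ℝ, P = AddSubgroup.zmultiples a := by
    rcases P.dense_or_cyclic with hd | ⟨a, ha⟩
    · exfalso
      apply htop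
      rw [← AddSubgroup.coe_eq_univ]
      rw [← hclosed.closure_eq]
      exact hd.closure_eq
    · exact ⟨a, by rw [ha, AddSubgroup.zmultiples_eq_closure]⟩
  have ha0 : a ≠ 0 := by
    rintro rfl
    rw [ha] at hTP
    obtain ⟨k, hk⟩ := AddSubgroup.mem_zmultiples_iff.1 hTP
    rw [smul_zero] at hk
    exact hT'.ne hk
  have hPT : ∀ t : ℝ, t ∈ P ↔ ∃ m : ℤ, t = (m : ℝ) * |a| := by
    intro t
    rw [ha, AddSubgroup.mem_zmultiples_iff]
    constructor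
    · rintro ⟨k, hk⟩
      rw [zsmul_eq_mul] at hk
      rcases abs_choice a with h | h
      · exact ⟨k, by rw [h, hk]⟩
      · exact ⟨-k, by rw [h, ← hk]; push_cast; ring⟩
    · rintro ⟨m, hm'⟩
      rcases abs_choice a with h | h
      · exact ⟨m, by rw [zsmul_eq_mul, hm', h]⟩
      · exact ⟨-m, by rw [zsmul_eq_mul, hm', h]; push_cast; ring⟩
  obtain ⟨ζ2, hζ2, he2⟩ := srj v hm (v.dom.bj.mapsTo (hm.sol.maps h0))
  obtain ⟨him, htr⟩ := mxt v hm (lim_F v.dom) h0 hζ2 he2.symm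
  have hζ2r : ζ2 = ((ζ2.re : ℝ) : ℂ) := by
    apply Complex.ext
    · simp
    · rw [him]
      simp
  refine ⟨|a|, ζ2.re, ⟨hm.op, hm.oc, hm.zero, sol_diff hm.sol, hm.sol.maps, srj v hm,
    abs_pos.2 ha0, ?_, ?_, ?_⟩⟩
  · intro ζ1 h1 ζ2 h2
    constructor
    · intro he
      obtain ⟨t, ht1, ht2⟩ := key ζ1 h1 ζ2 h2 he
      obtain ⟨m, hm'⟩ := (hPT t).1 ((hP t).2 ht2)
      refine ⟨m, ?_⟩
      rw [ht1, hm']
      push_cast
      ring
    · rintro ⟨m, hm'⟩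
      have h3 := (hP _).1 ((hPT ((m : ℝ) * |a|)).2 ⟨m, rfl⟩) ζ1 h1
      rw [h3, hm']
      congr 1
      push_cast
      ring
  · intro ζ hζ
    rw [htr ζ hζ, sub_zero, ← hζ2r]
  · intro m hm0 j hj
    have h3 : ∀ i : ℕ, F^[i] (Φ 0) = Φ (((i : ℝ) * ζ2.re : ℝ) : ℂ) := by
      intro i
      induction i with
      | zero =>
        rw [Function.iterate_zero, id_eq]
        congr 1
        push_cast
        ring
      | succ i ih =>
        rw [Function.iterate_succ_apply', ih, htr _ (hreal _), sub_zero]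
        congr 1
        nth_rewrite 2 [hζ2r]
        push_cast
        ring
    have h4 := h3 m
    rw [hj, (hPz _).1 ((hPT _).2 ⟨j, rfl⟩), hm.init] at h4
    exact v.dom.np m hm0 z0 hz0 h4

end Pool.Agent.H56.RD
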