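import Pool.Agent.H56.RD.Defs

/-!
# Module TRF: from the strip to the annulus

PROOF. Put `ex ζ = exp (2 π i ζ / T)`; `‖ex ζ‖ = exp (- 2 π ζ.im / T)`. `r = exp (- 2 π b / T)`, `R = exp (- 2 π a / T)`, `r < R` (`a < b` since `0 ∈ Ioo a b`). For `w ≠ 0` put `La w = T / (2 π i) * log w`: `ex (La w) = w`, `(La w).im = - T / (2 π) * log ‖w‖`, which is in `Ioo a b` iff `w ∈ Ann r R`. `ψ w = Φ (La w)`.
If `ex ζ = w ≠ 0` (`ζ ∈ Str I`) then `ζ - La w` is an integer multiple of `T` (`Complex.exp_eq_exp_iff_exists_int`), so `Φ ζ = Φ (La w) = ψ w` (`hp.per`): (*) `ψ (ex ζ) = Φ ζ` for all `ζ ∈ Str I`.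
Differentiable: at `w ∈ Ann r R` in the slit plane `La` is differentiable. Otherwise (`w` real negative) `La' w' = T / (2 π i) * (log (-w') + π i)` is differentiable near `w`, `ex (La' w') = w'`, `La' w' ∈ Str I`, so `ψ w' = Φ (La' w')` near `w` by (*).
`MapsTo`: `hp.maps`. `InjOn`: `Φ (La w) = Φ (La w')` gives `La w' = La w + m T`, so `w' = ex (La w') = w`. `SurjOn`: `y = Φ ζ = ψ (ex ζ)` (`hp.sur`, (*)), `ex ζ ∈ Ann r R`. `l = ex t0`: `‖l‖ = 1`; `l ^ m = 1` gives `m t0 = j T` for an integer `j` (`Complex.exp_eq_one_iff`), against `hp.irr`. `F (ψ w) = F (Φ (La w)) = Φ (La w + t0) = ψ (ex (La w + t0)) = ψ (l w)` (`hp.tr`, (*)).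
-/

set_option autoImplicit false

open Filter Topology Metric Set

namespace Pool.Agent.H56.RD

open Pool.Agent.H56.HR

/-- the exponential function with period `2 π / P` -/
private noncomputable def ex (P : ℝ) (ζ : ℂ) : ℂ := Complex.exp ((P : ℂ) * Complex.I * ζ)

private theorem ex_add (P : ℝ) (ζ ζ' : ℂ) : ex P (ζ + ζ') = ex P ζ * ex P ζ' := by
  unfold ex
  rw [mul_add, Complex.exp_add]

private theorem ex_ne (P : ℝ) (ζ : ℂ) : ex P ζ ≠ 0 := Complex.exp_ne_zero _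

private theorem ex_norm (P : ℝ) (ζ : ℂ) : ‖ex P ζ‖ = Real.exp (-P * ζ.im) := by
  unfold ex
  rw [Complex.norm_exp]
  congr 1
  simp

private theorem ex_cont (P : ℝ) : Continuous (ex P) := by
  unfold ex
  fun_prop

private theorem ex_eq {P T : ℝ} (hP : 0 < P) (hPT : P * T = 2 * Real.pi) (ζ ζ' : ℂ) :
    ex P ζ' = ex P ζ ↔ ∃ m : ℤ, ζ' = ζ + (m : ℂ) * (T : ℂ) := by
  have hP0 : (P : ℂ) ≠ 0 := by exact_mod_cast hP.ne'
  have hPT' : (P : ℂ) * (T : ℂ) = 2 * Real.pi := by exact_mod_cast congrArg (fun x : ℝ => (x : ℂ)) hPT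
  unfold ex
  rw [Complex.exp_eq_exp_iff_exists_int]
  constructor
  · rintro ⟨n, hn⟩
    refine ⟨n, ?_⟩
    have h1 : (P : ℂ) * Complex.I * ζ' = (P : ℂ) * Complex.I * (ζ + (n : ℂ) * (T : ℂ)) := by
      rw [hn, mul_add]
      congr 1
      linear_combination (-(n : ℂ) * Complex.I) * hPT'
    exact mul_left_cancel₀ (mul_ne_zero hP0 Complex.I_ne_zero) h1
  · rintro ⟨n, hn⟩
    refine ⟨n, ?_⟩
    rw [hn]
    linear_combination ((n : ℂ) * Complex.I) * hPT'

/-- a local inverse of `ex` -/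
private theorem ex_loc {P T : ℝ} (hP : 0 < P) (hPT : P * T = 2 * Real.pi) {w : ℂ} (hw : w ≠ 0) :
    ∃ L : ℂ → ℂ, DifferentiableAt ℂ L w ∧ ∀ᶠ w' in 𝓝 w, ex P (L w') = w' := by
  have hP0 : (P : ℂ) ≠ 0 := by exact_mod_cast hP.ne'
  have hPI : (P : ℂ) * Complex.I ≠ 0 := mul_ne_zero hP0 Complex.I_ne_zero
  have hPT' : (P : ℂ) * (T : ℂ) = 2 * Real.pi := by exact_mod_cast congrArg (fun x : ℝ => (x : ℂ)) hPT
  rcases Complex.mem_slitPlane_or_neg_mem_slitPlane hw with h | h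
  · refine ⟨fun w' => Complex.log w' / ((P : ℂ) * Complex.I), ?_, ?_⟩
    · exact (Complex.differentiableAt_log h).div_const _
    · filter_upwards [isOpen_ne.mem_nhds hw] with w' hw'
      unfold ex
      rw [mul_div_cancel₀ _ hPI, Complex.exp_log hw']
  · refine ⟨fun w' => Complex.log (-w') / ((P : ℂ) * Complex.I) + (T : ℂ) / 2, ?_, ?_⟩
    · refine DifferentiableAt.add_const _ (DifferentiableAt.div_const ?_ _)
      exact (Complex.differentiableAt_log h).comp w differentiableAt_id.neg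
    · filter_upwards [isOpen_ne.mem_nhds hw] with w' hw'
      unfold ex
      rw [mul_add, mul_div_cancel₀ _ hPI, Complex.exp_add, Complex.exp_log (neg_ne_zero.mpr hw')]
      have h1 : (P : ℂ) * Complex.I * ((T : ℂ) / 2) = Real.pi * Complex.I := by
        linear_combination (Complex.I / 2) * hPT'
      rw [h1, Complex.exp_pi_mul_I]
      ring

theorem trf {U : Set ℂ} {F : ℂ → ℂ} {Φ : ℂ → ℂ} {T t0 a b : ℝ} (hp : Per U F (Ioo a b) Φ T t0) :
    ∃ (l : ℂ) (ψ : ℂ → ℂ) (r R : ℝ), Rot l ∧ 0 < r ∧ r < R ∧ DifferentiableOn ℂ ψ (Ann r R) ∧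
      BijOn ψ (Ann r R) U ∧ ∀ w ∈ Ann r R, F (ψ w) = ψ (l * w) := by
  have hab : a < b := hp.zero.1.trans hp.zero.2
  have hT := hp.T0
  obtain ⟨P, hPdef⟩ : ∃ P : ℝ, P = 2 * Real.pi / T := ⟨_, rfl⟩
  have hP : 0 < P := by
    rw [hPdef]
    positivity
  have hPT : P * T = 2 * Real.pi := by
    rw [hPdef]
    field_simp
  have hPI : (P : ℂ) * Complex.I ≠ 0 :=
    mul_ne_zero (by exact_mod_cast hP.ne') Complex.I_ne_zero
  set r := Real.exp (-P * b) with hr
  set R := Real.exp (-P * a) with hR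
  have hr0 : 0 < r := Real.exp_pos _
  have hAnn : ∀ ζ, ex P ζ ∈ Ann r R ↔ ζ ∈ Str (Ioo a b) := by
    intro ζ
    change (r < ‖ex P ζ‖ ∧ ‖ex P ζ‖ < R) ↔ (a < ζ.im ∧ ζ.im < b)
    rw [ex_norm, hr, hR, Real.exp_lt_exp, Real.exp_lt_exp]
    constructor
    · rintro ⟨h1, h2⟩
      constructor <;> nlinarith
    · rintro ⟨h1, h2⟩
      constructor <;> nlinarith
  have hAnn0 : ∀ w ∈ Ann r R, w ≠ 0 := by
    rintro w hw rfl
    have := hw.1
    rw [norm_zero] at this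
    linarith
  have hLa : ∀ w ∈ Ann r R, ex P (Complex.log w / ((P : ℂ) * Complex.I)) = w := by
    intro w hw
    unfold ex
    rw [mul_div_cancel₀ _ hPI, Complex.exp_log (hAnn0 w hw)]
  set La : ℂ → ℂ := fun w => Complex.log w / ((P : ℂ) * Complex.I) with hLadef
  have hLaS : ∀ w ∈ Ann r R, La w ∈ Str (Ioo a b) := by
    intro w hw
    rw [← hAnn, hLa w hw]
    exact hw
  set ψ : ℂ → ℂ := fun w => Φ (La w) with hψ
  have hstar : ∀ ζ ∈ Str (Ioo a b), ψ (ex P ζ) = Φ ζ := by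
    intro ζ hζ
    have hw : ex P ζ ∈ Ann r R := (hAnn ζ).mpr hζ
    have h1 := hLa _ hw
    obtain ⟨m, hm⟩ := (ex_eq hP hPT ζ (La (ex P ζ))).mp h1
    exact ((hp.per ζ hζ _ (hLaS _ hw)).mpr ⟨m, hm⟩).symm
  have hAo : IsOpen (Ann r R) :=
    (isOpen_lt continuous_const continuous_norm).inter (isOpen_lt continuous_norm continuous_const)
  have hSo : IsOpen (Str (Ioo a b)) := isOpen_Ioo.preimage Complex.continuous_im
  refine ⟨ex P (t0 : ℂ), ψ, r, R, ⟨?_, ?_⟩, hr0, ?_, ?_, ⟨?_, ?_, ?_⟩, ?_⟩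
  · rw [ex_norm, Complex.ofReal_im, mul_zero, Real.exp_zero]
  · intro m hm h1
    have h2 : ex P ((m : ℂ) * (t0 : ℂ)) = ex P 0 := by
      have h3 : ex P 0 = 1 := by
        unfold ex
        rw [mul_zero, Complex.exp_zero]
      rw [h3, ← h1]
      unfold ex
      rw [← Complex.exp_nat_mul]
      congr 1
      ring
    obtain ⟨j, hj⟩ := (ex_eq hP hPT 0 _).mp h2
    rw [zero_add] at hj
    exact hp.irr m hm j (by exact_mod_cast hj)
  · rw [hr, hR, Real.exp_lt_exp]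
    nlinarith
  · intro w hw
    apply DifferentiableAt.differentiableWithinAt
    obtain ⟨L, hL, hLw⟩ := ex_loc hP hPT (hAnn0 w hw)
    have h1 : ψ =ᶠ[𝓝 w] fun w' => Φ (L w') := by
      filter_upwards [hLw, hAo.mem_nhds hw] with w' h2 h3
      have h4 : L w' ∈ Str (Ioo a b) := by
        rw [← hAnn, h2]
        exact h3
      rw [← hstar _ h4, h2]
    have h2 : L w ∈ Str (Ioo a b) := by
      rw [← hAnn, hLw.self_of_nhds]
      exact hw
    have h3 : DifferentiableAt ℂ Φ (L w) := hp.df.differentiableAt (hSo.mem_nhds h2)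
    exact (h3.comp w hL).congr_of_eventuallyEq h1
  · intro w hw
    exact hp.maps (hLaS w hw)
  · intro w hw w' hw' h
    have h1 := (hp.per _ (hLaS w hw) _ (hLaS w' hw')).mp h
    have h2 := (ex_eq hP hPT (La w) (La w')).mpr h1
    rw [hLa w hw, hLa w' hw'] at h2
    exact h2.symm
  · intro y hy
    obtain ⟨ζ, hζ, rfl⟩ := hp.sur hy
    exact ⟨ex P ζ, (hAnn ζ).mpr hζ, hstar ζ hζ⟩
  · intro w hw
    have h1 := hLaS w hw
    have h2 : La w + (t0 : ℂ) ∈ Str (Ioo a b) := by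
      change (La w + (t0 : ℂ)).im ∈ Ioo a b
      rw [Complex.add_im, Complex.ofReal_im, add_zero]
      exact h1
    have h3 := hstar _ h2
    rw [ex_add, hLa w hw, mul_comm] at h3
    rw [h3]
    exact hp.tr _ h1

end Pool.Agent.H56.RD
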