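import Pool.Agent.H56.RD.VEC
import Pool.Agent.H56.RD.MXS
import Pool.Agent.H56.RD.PRD
import Pool.Agent.H56.RD.TRF
import Pool.Agent.H56.RD.NPE

/-!
# THEOREM RD (rotation domains in the plane)
-/

set_option autoImplicit false

open Filter Topology Metric Set

namespace Pool.Agent.H56.RD

open Pool.Agent.H56.HR

/-- a bounded domain with an automorphism `F` such that `F^[n k] → id`, without periodic points and linearizable punctures, is an annulus on which `F` is an irrational rotation -/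
theorem rot_dom {U : Set ℂ} {F : ℂ → ℂ} {n : ℕ → ℕ} (h : Dom U F n) (hN : ¬ Punct U F) :
    ∃ (l : ℂ) (ψ : ℂ → ℂ) (r R : ℝ), Rot l ∧ 0 < r ∧ r < R ∧ DifferentiableOn ℂ ψ (Ann r R) ∧
      BijOn ψ (Ann r R) U ∧ ∀ w ∈ Ann r R, F (ψ w) = ψ (l * w) := by
  obtain ⟨σ, X, e, -, v⟩ := vec h
  obtain ⟨z0, hz0⟩ := h.ne
  obtain ⟨I, Φ, hm⟩ := mxs v hz0
  obtain ⟨T, t0, hp⟩ := prd v hm
  have hup : ∃ b : ℝ, 0 < b ∧ b ∉ I := by
    by_contra hcon
    push Not at hcon
    refine hN (npe_up hp h.bd fun x hx => ?_)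
    rcases hx.eq_or_lt with h0 | h0
    · rw [← h0]
      exact hp.zero
    · exact hcon x h0
  have hdn : ∃ a : ℝ, a < 0 ∧ a ∉ I := by
    by_contra hcon
    push Not at hcon
    refine hN (npe_dn hp h.bd fun x hx => ?_)
    rcases hx.eq_or_lt with h0 | h0
    · rw [h0]
      exact hp.zero
    · exact hcon x h0
  obtain ⟨b, hb, hbI⟩ := hup
  obtain ⟨a, ha, haI⟩ := hdn
  have hub : ∀ x ∈ I, x < b := by
    intro x hx
    by_contra hcon
    exact hbI (hp.oc.out hp.zero hx ⟨hb.le, not_lt.1 hcon⟩)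
  have hlb : ∀ x ∈ I, a < x := by
    intro x hx
    by_contra hcon
    exact haI (hp.oc.out hx hp.zero ⟨not_lt.1 hcon, ha.le⟩)
  have hne : I.Nonempty := ⟨0, hp.zero⟩
  have hBA : BddAbove I := ⟨b, fun x hx => (hub x hx).le⟩
  have hBB : BddBelow I := ⟨a, fun x hx => (hlb x hx).le⟩
  have hI : I = Ioo (sInf I) (sSup I) := by
    apply Subset.antisymm
    · intro x hx
      obtain ⟨δ, hδ, hball⟩ := Metric.isOpen_iff.1 hp.op x hx
      have h1 : x + δ / 2 ∈ I := hball (by
        rw [mem_ball, Real.dist_eq, add_sub_cancel_left, abs_of_pos (by linarith)]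
        linarith)
      have h2 : x - δ / 2 ∈ I := hball (by
        rw [mem_ball, Real.dist_eq, sub_sub_cancel_left, abs_neg, abs_of_pos (by linarith)]
        linarith)
      have h3 := le_csSup hBA h1
      have h4 := csInf_le hBB h2
      exact ⟨by linarith, by linarith⟩
    · intro x hx
      obtain ⟨y1, hy1, hy2⟩ := exists_lt_of_csInf_lt hne hx.1
      obtain ⟨y3, hy3, hy4⟩ := exists_lt_of_lt_csSup hne hx.2
      exact hp.oc.out hy1 hy3 ⟨hy2.le, hy4.le⟩
  rw [hI] at hp
  exact trf hp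

end Pool.Agent.H56.RD
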