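import Pool.Agent.H56.RD.Defs
import Pool.Agent.H56.HR.SDF

/-!
# Module SBK: holomorphy of the transported uniformization

PROOF. `φ.symm ∞ = s`, `φ.symm 0 = ∞`, `φ.symm u = s + 1 / u` for `u ≠ 0` (`φ (s + 1 / u) = u`, as `s + 1 / u ≠ s`). Case `ψ w ≠ 0`: for `z` near `w`, `ψ z ≠ 0` and `φ.symm (ψ z) = some (s + (ψ z)⁻¹)`, with `g z = s + (ψ z)⁻¹` analytic at `w`: first alternative of `HoloAt`. Case `ψ w = 0`: near `w`, `1 + s * ψ z ≠ 0`; `g z = ψ z / (1 + s * ψ z)` is analytic at `w`. If `ψ z = 0`: `g z = 0`, `recip 0 = ∞ = φ.symm 0`. If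
`ψ z ≠ 0`: `g z ≠ 0`, `recip (g z) = some ((1 + s * ψ z) / ψ z) = some (s + (ψ z)⁻¹)`. Second alternative.
-/

set_option autoImplicit false

open Filter Topology Polynomial Metric Set

namespace Pool.Agent.H56.RD

open Pool.Agent.H44.Fatou Pool.Agent.H32.BT Pool.Agent.H79.Eul Pool.Agent.H79.Par
open Pool.Agent.H35.EX Pool.Agent.H44.RR Pool.Agent.H56.HR

theorem holo_back {s : ℂ} {φ : OnePoint ℂ ≃ₜ OnePoint ℂ}
    (h1 : φ (s : OnePoint ℂ) = OnePoint.infty)
    (h2 : ∀ z : ℂ, z ≠ s → φ (z : OnePoint ℂ) = (((z - s)⁻¹ : ℂ) : OnePoint ℂ))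
    (h3 : φ OnePoint.infty = ((0 : ℂ) : OnePoint ℂ)) {ψ : ℂ → ℂ} {w : ℂ} (h : AnalyticAt ℂ ψ w) :
    HoloAt (fun z => φ.symm (ψ z : OnePoint ℂ)) w := by
  have e0 : φ.symm ((0 : ℂ) : OnePoint ℂ) = OnePoint.infty := by
    rw [← h3, Homeomorph.symm_apply_apply]
  have e1 : ∀ u : ℂ, u ≠ 0 → φ.symm (u : OnePoint ℂ) = ((s + u⁻¹ : ℂ) : OnePoint ℂ) := by
    intro u hu
    have h4 : s + u⁻¹ ≠ s := by
      intro h5
      have h6 : u⁻¹ = 0 := by
        have h7 : s + u⁻¹ - s = s - s := by rw [h5]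
        rwa [add_sub_cancel_left, sub_self] at h7
      exact hu (inv_eq_zero.1 h6)
    have h5 := h2 _ h4
    rw [add_sub_cancel_left, inv_inv] at h5
    rw [← h5, Homeomorph.symm_apply_apply]
  by_cases hw : ψ w = 0
  · have hc : ContinuousAt (fun z => 1 + s * ψ z) w :=
      (continuousAt_const.add (continuousAt_const.mul h.continuousAt))
    have hne : (1 : ℂ) + s * ψ w ≠ 0 := by
      rw [hw, mul_zero, add_zero]
      exact one_ne_zero
    refine ⟨fun z => ψ z / (1 + s * ψ z), ?_, Or.inr ?_⟩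
    · exact h.div (analyticAt_const.add (analyticAt_const.mul h)) hne
    · filter_upwards [hc.eventually_ne hne] with z hz
      change φ.symm (ψ z : OnePoint ℂ) = recip (ψ z / (1 + s * ψ z))
      by_cases h0 : ψ z = 0
      · rw [h0, e0, zero_div]
        unfold recip
        rw [if_pos rfl]
      · rw [e1 _ h0]
        unfold recip
        rw [if_neg (div_ne_zero h0 hz)]
        congr 1
        rw [inv_div]
        field_simp
        ring
  · refine ⟨fun z => s + (ψ z)⁻¹, analyticAt_const.add (h.inv hw), Or.inl ?_⟩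
    filter_upwards [h.continuousAt.eventually_ne hw] with z hz
    exact e1 _ hz

end Pool.Agent.H56.RD
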