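import Pool.Agent.H56.RD.MTL

/-!
# Limit maps: first properties

PROOF. `lim_id`: `m = n`, `h.id`. `lim_it`: `m k = n k + j`, `F^[n k + j] z = F^[n k] (F^[j] z)`: `jc_comp` with the constant sequence `F^[j]` (`jc_const`, `Dom.itd`). `lim_comp`: `m k = m1 k + m2 k`, `jc_comp`. `lim_diff`: `jc_diff`.
-/

set_option autoImplicit false

open Filter Topology Metric Set

namespace Pool.Agent.H56.RD

variable {U : Set ℂ} {F g g' : ℂ → ℂ} {n : ℕ → ℕ}

theorem lim_id (h : Dom U F n) : Lim U F (fun z => z) := ⟨fun _ hz => hz, n, h.tn, h.id⟩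

theorem lim_it (h : Dom U F n) (j : ℕ) : Lim U F F^[j] := by
  refine ⟨h.itm j, fun k => n k + j, tendsto_atTop_mono (fun k => Nat.le_add_right (n k) j) h.tn, ?_⟩
  have h1 := jc_comp h.id (jc_const h.op (h.itd j).continuousOn) (h.itm j)
  refine jc_congr h1 h.op (fun k z _ => ?_) fun z _ => rfl
  rw [Function.iterate_add_apply]

theorem lim_F (h : Dom U F n) : Lim U F F := lim_it h 1

theorem lim_comp (h : Dom U F n) (h1 : Lim U F g) (h2 : Lim U F g') :
    Lim U F (fun z => g (g' z)) := by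
  obtain ⟨hm1, m1, ht1, hj1⟩ := h1
  obtain ⟨hm2, m2, ht2, hj2⟩ := h2
  refine ⟨fun z hz => hm1 (hm2 hz), fun k => m1 k + m2 k, tendsto_atTop_mono (fun k => Nat.le_add_right (m1 k) (m2 k)) ht1, ?_⟩
  refine jc_congr (jc_comp hj1 hj2 hm2) h.op (fun k z _ => ?_) fun z _ => rfl
  rw [Function.iterate_add_apply]

theorem lim_pow (h : Dom U F n) (hg : Lim U F g) (j : ℕ) : Lim U F g^[j] := by
  induction j with
  | zero => exact lim_id h
  | succ j ih =>
    have h1 := lim_comp h ih hg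
    have e : (fun z => g^[j] (g z)) = g^[j + 1] := by
      funext z
      rw [Function.iterate_succ_apply]
    rwa [e] at h1

theorem lim_diff (h : Dom U F n) (hg : Lim U F g) : DifferentiableOn ℂ g U := by
  obtain ⟨-, m, -, hj⟩ := hg
  exact jc_diff h.op (fun k => h.itd (m k)) hj

theorem lim_congr (h : Dom U F n) (hg : Lim U F g) (he : ∀ z ∈ U, g' z = g z) : Lim U F g' := by
  obtain ⟨hm, m, ht, hj⟩ := hg
  refine ⟨fun z hz => ?_, m, ht, jc_congr hj h.op (fun k z _ => rfl) he⟩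
  rw [he z hz]
  exact hm hz

end Pool.Agent.H56.RD
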