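import Pool.Agent.H56.RD.SDC

/-!
# Module SNP: no periodic points in a rotation domain

PROOF. `f = Rf v`. Suppose `a ∈ A`, `(f^[p])^[m] a = a`, `P = p * m > 0`, `f^[P] a = a` (`Function.iterate_mul`). `att_or_rep`:
(1) `IsSink f a P`: there is `U0 ∈ 𝓝 a` with `f^[P * k] y → a` for `y ∈ U0`. Let `y ∈ U0 ∩ A`. `b k = m * (b k / m) + b k % m`; some `r < m` is `b k % m` for infinitely many `k` (`Filter.frequently` and finiteness), and along these `k`: `(f^[p])^[b k] y = f^[p * r] (f^[P * (b k / m)] y) → f^[p * r] a` (`f` is continuous: `rat_continuous`; `b k / m → ∞`), but `(f^[p])^[b k] y → y` (`h.id`).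
So `y = f^[p * r] a` for some `r < m`: `U0 ∩ A ∈ 𝓝 a` is finite. But neighbourhoods in `OnePoint ℂ` are infinite (`cov_inf` in H47/RJ/COV: copy the few lines). (2) `Rep (f^[P]) a ρ κ g`: `a ∈ A ⊆ FS f` is a point of equicontinuity (`interior_subset`): exactly as in the proof of `rot_of_nonatt` (H47/RJ/RCR, last part, with `u = a`, `p = P`) a point `y ≠ a` near `a` has
`chord a y ≤ κ ^ j * (ρ / 2)` for all `j`, so `y = a`: contradiction.
-/

set_option autoImplicit false

open Filter Topology Polynomial Metric Set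

namespace Pool.Agent.H56.RD

open Pool.Agent.H44.Fatou Pool.Agent.H32.BT Pool.Agent.H79.Eul Pool.Agent.H79.Par
open Pool.Agent.H35.EX Pool.Agent.H44.RR Pool.Agent.H56.HR Pool.Agent.H44.RC Pool.Agent.H47.RJ

variable {d : ℕ} {v : E d}

private theorem snp_inf {x : OnePoint ℂ} {U : Set (OnePoint ℂ)} (hU : U ∈ 𝓝 x) : U.Infinite := by
  have h : (𝓝[≠] x).NeBot := by
    induction x using OnePoint.rec with
    | infty => infer_instance
    | coe z => infer_instance
  exact infinite_of_mem_nhds x hU

theorem no_per (hd : 1 ≤ d) (hcop : IsCoprime (pol v.1) (pol v.2))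
    (hdeg : max (pol v.1).natDegree (pol v.2).natDegree = d) (hN : Pool.Agent.H47.NN.NNeu v)
    {A : Set (OnePoint ℂ)} {p : ℕ} {b : ℕ → ℕ} (h : Cyl (Rf v) A p b) :
    ∀ m : ℕ, 0 < m → ∀ x ∈ A, ((Rf v)^[p])^[m] x ≠ x := by
  intro m hm a ha hfix
  have hf : Continuous (Rf v) := rat_continuous hcop
  obtain ⟨P, hPe⟩ : ∃ P, P = p * m := ⟨_, rfl⟩
  have hP : 0 < P := by
    rw [hPe]
    exact Nat.mul_pos h.hp hm
  have hPa : (Rf v)^[P] a = a := by
    rw [hPe, Function.iterate_mul]
    exact hfix
  rcases att_or_rep hd hcop hdeg hN hP hPa with ⟨hs, -⟩ | ⟨ρ, κ, g, hR⟩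
  · obtain ⟨-, -, U, hU, hUc⟩ := hs
    have hsub : U ∩ A ⊆ (fun r : ℕ => (Rf v)^[p * r] a) '' (Finset.range m : Set ℕ) := by
      rintro y ⟨hyU, hyA⟩
      have h1 : ∃ r < m, ∃ᶠ k in atTop, b k % m = r := by
        by_contra hcon
        push Not at hcon
        have h2 : ∀ᶠ k in atTop, ∀ r ∈ Finset.range m, b k % m ≠ r := by
          rw [Filter.eventually_all_finset]
          intro r hr
          exact hcon r (Finset.mem_range.1 hr)
        obtain ⟨k, hk⟩ := h2.exists
        exact hk (b k % m) (Finset.mem_range.2 (Nat.mod_lt _ hm)) rfl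
      obtain ⟨r, hr, hfr⟩ := h1
      obtain ⟨φ, hφ, hφr⟩ := Filter.extraction_of_frequently_atTop hfr
      refine ⟨r, Finset.mem_coe.2 (Finset.mem_range.2 hr), ?_⟩
      have h2 : Tendsto (fun k => ((Rf v)^[p])^[b (φ k)] y) atTop (𝓝 y) :=
        (h.id y hyA).comp (hφ.tendsto_atTop.prodMk (tendsto_const_nhds (x := y)))
      have h3 : Tendsto (fun k => b (φ k) / m) atTop atTop := by
        rw [Filter.tendsto_atTop]
        intro N
        filter_upwards [(h.tb.comp hφ.tendsto_atTop).eventually_ge_atTop (N * m)] with k hk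
        exact (Nat.le_div_iff_mul_le hm).2 hk
      have h4 : Tendsto (fun k => (Rf v)^[p * r] ((Rf v)^[P * (b (φ k) / m)] y)) atTop
          (𝓝 ((Rf v)^[p * r] a)) :=
        ((hf.iterate (p * r)).tendsto a).comp ((hUc y hyU).comp h3)
      have h5 : ∀ k, ((Rf v)^[p])^[b (φ k)] y =
          (Rf v)^[p * r] ((Rf v)^[P * (b (φ k) / m)] y) := by
        intro k
        rw [← Function.iterate_mul, ← Function.iterate_add_apply]
        congr 1
        have h6 := Nat.div_add_mod (b (φ k)) m
        rw [hφr k] at h6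
        rw [hPe]
        calc p * b (φ k) = p * (m * (b (φ k) / m) + r) := by rw [h6]
          _ = p * r + p * m * (b (φ k) / m) := by ring
      exact tendsto_nhds_unique (h4.congr fun k => (h5 k).symm) h2
    have hfin : (U ∩ A).Finite := (((Finset.range m).finite_toSet).image _).subset hsub
    exact snp_inf (inter_mem hU (h.op.mem_nhds ha)) hfin
  · have hρ := hR.hρ
    have hκ := hR.hκ
    have hκ1 := hR.hκ1
    have hE : EqAt (Rf v) a := interior_subset (h.sub ha)
    have h2 := hE (ρ / 2) (by linarith)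
    have h3 : ∀ᶠ y in 𝓝[≠] a, ∀ n : ℕ,
        chord ((Rf v)^[n] a) ((Rf v)^[n] y) < ρ / 2 := h2.filter_mono nhdsWithin_le_nhds
    have hne : (𝓝[≠] a).NeBot := by
      clear * -
      induction a using OnePoint.rec with
      | infty => infer_instance
      | coe z => infer_instance
    obtain ⟨y, hy1, hy2⟩ := (h3.and self_mem_nhdsWithin).exists
    have hfixk : ∀ j : ℕ, (Rf v)^[P * j] a = a := by
      intro j
      rw [Function.iterate_mul]
      exact Function.iterate_fixed hPa j
    have h4 : ∀ j : ℕ, chord a ((Rf v)^[P * j] y) < ρ / 2 := by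
      intro j
      have h5 := hy1 (P * j)
      rw [hfixk] at h5
      exact h5
    have h5 : ∀ j : ℕ, chord a ((Rf v)^[P * j] y) ≤
        κ * chord a ((Rf v)^[P * (j + 1)] y) := by
      intro j
      have e : (Rf v)^[P * (j + 1)] y = (Rf v)^[P] ((Rf v)^[P * j] y) := by
        rw [← Function.iterate_add_apply]
        congr 2
        ring
      have h6 := hR.left ((Rf v)^[P * j] y) ((h4 j).trans (by linarith))
        (by rw [← e]; exact (h4 (j + 1)).trans (by linarith))
      have h7 := hR.contr ((Rf v)^[P] ((Rf v)^[P * j] y))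
        (by rw [← e]; exact (h4 (j + 1)).trans (by linarith))
      rw [h6] at h7
      rw [e]
      exact h7
    have h6 : ∀ j : ℕ, chord a y ≤ κ ^ j * (ρ / 2) := by
      have h7 : ∀ j : ℕ, chord a y ≤ κ ^ j * chord a ((Rf v)^[P * j] y) := by
        intro j
        induction j with
        | zero => simp
        | succ j ih =>
          refine ih.trans ?_
          rw [pow_succ, mul_assoc]
          exact mul_le_mul_of_nonneg_left (h5 j) (pow_nonneg hκ j)
      exact fun j => (h7 j).trans (mul_le_mul_of_nonneg_left (h4 j).le (pow_nonneg hκ j))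
    have h7 : Tendsto (fun j : ℕ => κ ^ j * (ρ / 2)) atTop (𝓝 (0 * (ρ / 2))) :=
      (tendsto_pow_atTop_nhds_zero_of_lt_one hκ hκ1).mul_const _
    rw [zero_mul] at h7
    have h8 : chord a y ≤ 0 := ge_of_tendsto' h7 h6
    exact hy2 (chord_eqz (le_antisymm h8 (chord_nn _ _))).symm

end Pool.Agent.H56.RD
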