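import Pool.Agent.H56.RD.SDC

/-!
# Module SPU: no linearizable punctures

PROOF. `f = Rf v`, `a = G 0`, `Q = f^[p]`. (0) `Q a = a`: as `w → 0`, `w ≠ 0`: `Q (G w) → Q a` (`rat_continuous`) and `Q (G w) = G (l * w) → a`. For `w ∈ ball 0 ρ`, `w ≠ 0`: `Q^[j] (G w) = G (l ^ j * w)` (induction, `‖l ^ j * w‖ = ‖w‖`); `Q^[j] = f^[p * j]` (`Function.iterate_mul`).
`att_or_rep`: (1) `IsSink f a p`: `U0 ∈ 𝓝 a`. Choose `w ≠ 0`, `‖w‖ = s < ρ`, with `G w ∈ U0` (continuity). `G (l ^ j * w) = f^[p * j] (G w) → a`. The circle `‖w'‖ = s` is compact; the points `l ^ j * w` have a cluster point `w'` on it, `G w' = a` (continuity on the circle, uniqueness of limits along a subsequence): contradiction to `hi`.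
(2) `Rep Q a ρ' κ g`: choose `s` with `0 < s < ρ` and `chord a (G w) < ρ'` for `‖w‖ ≤ s` (`ch_tend` and continuity at `0`). Let `‖w‖ = s`, `x j = G (l ^ j * w)`, `Q (x j) = x (j + 1)`, all in the disc of radius `ρ'`: `x j = g (x (j + 1))` (`left`), `chord a (x j) ≤ κ * chord a (x (j + 1))` (`contr`), so `chord a (x 0) ≤ κ ^ j * ρ' → 0`, `x 0 = a` (`chord_eqz`): contradiction to `hi`.
-/

set_option autoImplicit false

open Filter Topology Polynomial Metric Set

namespace Pool.Agent.H56.RD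

open Pool.Agent.H44.Fatou Pool.Agent.H32.BT Pool.Agent.H79.Eul Pool.Agent.H79.Par
open Pool.Agent.H35.EX Pool.Agent.H44.RR Pool.Agent.H56.HR Pool.Agent.H44.RC Pool.Agent.H47.RJ

variable {d : ℕ} {v : E d}

theorem no_punct (hd : 1 ≤ d) (hcop : IsCoprime (pol v.1) (pol v.2))
    (hdeg : max (pol v.1).natDegree (pol v.2).natDegree = d) (hN : Pool.Agent.H47.NN.NNeu v)
    {p : ℕ} (hp : 0 < p) {G : ℂ → OnePoint ℂ} {l : ℂ} {ρ : ℝ} (hρ : 0 < ρ) (hl : ‖l‖ = 1)
    (hG : ContinuousOn G (ball 0 ρ)) (hi : ∀ w ∈ ball (0 : ℂ) ρ, w ≠ 0 → G w ≠ G 0)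
    (hF : ∀ w ∈ ball (0 : ℂ) ρ, w ≠ 0 → (Rf v)^[p] (G w) = G (l * w)) : False := by
  have hfc : Continuous (Rf v) := rat_continuous hcop
  have hQc : Continuous (Rf v)^[p] := hfc.iterate p
  have h0b : (0 : ℂ) ∈ ball (0 : ℂ) ρ := mem_ball_self hρ
  have hbn : ball (0 : ℂ) ρ ∈ 𝓝 (0 : ℂ) := ball_mem_nhds 0 hρ
  have hG0 : Tendsto G (𝓝 0) (𝓝 (G 0)) := (hG.continuousAt hbn).tendsto
  have hl0 : l ≠ 0 := by
    intro h
    rw [h, norm_zero] at hl
    exact zero_ne_one hl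
  -- the fixed point
  have hfix : (Rf v)^[p] (G 0) = G 0 := by
    have h1 : Tendsto (fun w => (Rf v)^[p] (G w)) (𝓝[≠] (0 : ℂ)) (𝓝 ((Rf v)^[p] (G 0))) :=
      (hQc.tendsto _).comp (hG0.mono_left nhdsWithin_le_nhds)
    have h2 : Tendsto (fun w => G (l * w)) (𝓝[≠] (0 : ℂ)) (𝓝 (G 0)) := by
      have h3 : Tendsto (fun w : ℂ => l * w) (𝓝 0) (𝓝 0) := by
        have : Continuous (fun w : ℂ => l * w) := by fun_prop
        have h4 := this.tendsto 0
        rwa [mul_zero] at h4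
      exact (hG0.comp h3).mono_left nhdsWithin_le_nhds
    refine tendsto_nhds_unique_of_eventuallyEq h1 h2 ?_
    have h3 : ∀ᶠ w in 𝓝[≠] (0 : ℂ), w ∈ ball (0 : ℂ) ρ := nhdsWithin_le_nhds hbn
    filter_upwards [h3, self_mem_nhdsWithin] with w hw hw0
    exact hF w hw hw0
  have hit : ∀ w ∈ ball (0 : ℂ) ρ, w ≠ 0 → ∀ j : ℕ, ((Rf v)^[p])^[j] (G w) = G (l ^ j * w) ∧
      l ^ j * w ∈ ball (0 : ℂ) ρ ∧ l ^ j * w ≠ 0 ∧ ‖l ^ j * w‖ = ‖w‖ := by
    intro w hw hw0 j
    have hn : ‖l ^ j * w‖ = ‖w‖ := by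
      rw [norm_mul, norm_pow, hl, one_pow, one_mul]
    refine ⟨?_, ?_, mul_ne_zero (pow_ne_zero j hl0) hw0, hn⟩
    · induction j with
      | zero => simp
      | succ j ih =>
        have hn' : ‖l ^ j * w‖ = ‖w‖ := by
          rw [norm_mul, norm_pow, hl, one_pow, one_mul]
        rw [Function.iterate_succ_apply', ih hn', hF _ (by
          rw [mem_ball_zero_iff, hn']
          exact mem_ball_zero_iff.1 hw) (mul_ne_zero (pow_ne_zero j hl0) hw0)]
        congr 1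
        ring
    · rw [mem_ball_zero_iff, hn]
      exact mem_ball_zero_iff.1 hw
  rcases Pool.Agent.H47.RJ.att_or_rep hd hcop hdeg hN hp hfix with ⟨hs, -⟩ | ⟨ρ', κ, g, hR⟩
  · obtain ⟨-, -, U, hU, hUa⟩ := hs
    obtain ⟨δ, hδ, hδU⟩ := Metric.mem_nhds_iff.1 (hG0 hU)
    obtain ⟨s, hs⟩ : ∃ s : ℝ, s = min δ ρ / 2 := ⟨_, rfl⟩
    have hs0 : 0 < s := by
      rw [hs]
      have := lt_min hδ hρ
      linarith
    have hsδ : s < δ := by
      rw [hs]
      have := lt_min hδ hρ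
      have := min_le_left δ ρ
      linarith
    have hsρ : s < ρ := by
      rw [hs]
      have := lt_min hδ hρ
      have := min_le_right δ ρ
      linarith
    have hns : ‖((s : ℝ) : ℂ)‖ = s := by
      rw [Complex.norm_real, Real.norm_eq_abs, abs_of_pos hs0]
    have hw : ((s : ℝ) : ℂ) ∈ ball (0 : ℂ) ρ := by
      rw [mem_ball_zero_iff, hns]
      exact hsρ
    have hw0 : ((s : ℝ) : ℂ) ≠ 0 := by
      rw [← norm_pos_iff, hns]
      exact hs0
    have hwU : G s ∈ U := hδU (by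
      rw [mem_ball_zero_iff, hns]
      exact hsδ)
    have h1 := hUa _ hwU
    have hsub : sphere (0 : ℂ) s ⊆ ball (0 : ℂ) ρ := by
      intro w hw
      rw [mem_sphere_zero_iff_norm] at hw
      rw [mem_ball_zero_iff, hw]
      exact hsρ
    have hK : IsClosed (G '' sphere (0 : ℂ) s) :=
      ((isCompact_sphere (0 : ℂ) s).image_of_continuousOn (hG.mono hsub)).isClosed
    have hKa : G 0 ∉ G '' sphere (0 : ℂ) s := by
      rintro ⟨w, hw, hwa⟩
      refine hi w (hsub hw) ?_ hwa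
      rw [mem_sphere_zero_iff_norm] at hw
      rw [← norm_pos_iff, hw]
      exact hs0
    obtain ⟨k, hk⟩ := (h1.eventually (hK.isOpen_compl.mem_nhds hKa)).exists
    apply hk
    have h2 := hit _ hw hw0 k
    rw [Function.iterate_mul, h2.1]
    refine ⟨_, ?_, rfl⟩
    rw [mem_sphere_zero_iff_norm, h2.2.2.2, hns]
  · have h1 := (Pool.Agent.H47.RJ.ch_tend.1 hG0) ρ' hR.hρ
    obtain ⟨δ, hδ, hδU⟩ := Metric.eventually_nhds_iff.1 h1
    obtain ⟨s, hs⟩ : ∃ s : ℝ, s = min δ ρ / 2 := ⟨_, rfl⟩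
    have hs0 : 0 < s := by
      rw [hs]
      have := lt_min hδ hρ
      linarith
    have hsδ : s < δ := by
      rw [hs]
      have := lt_min hδ hρ
      have := min_le_left δ ρ
      linarith
    have hsρ : s < ρ := by
      rw [hs]
      have := lt_min hδ hρ
      have := min_le_right δ ρ
      linarith
    have hns : ‖((s : ℝ) : ℂ)‖ = s := by
      rw [Complex.norm_real, Real.norm_eq_abs, abs_of_pos hs0]
    have hw : ((s : ℝ) : ℂ) ∈ ball (0 : ℂ) ρ := by
      rw [mem_ball_zero_iff, hns]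
      exact hsρ
    have hw0 : ((s : ℝ) : ℂ) ≠ 0 := by
      rw [← norm_pos_iff, hns]
      exact hs0
    have hsm : ∀ j : ℕ, chord (G 0) (G (l ^ j * s)) < ρ' := by
      intro j
      refine hδU ?_
      rw [dist_zero_right, (hit _ hw hw0 j).2.2.2, hns]
      exact hsδ
    have hstep : ∀ j : ℕ, chord (G 0) (G (l ^ j * s)) ≤ κ * chord (G 0) (G (l ^ (j + 1) * s)) := by
      intro j
      have h2 := hit _ hw hw0 j
      have h3 : (Rf v)^[p] (G (l ^ j * s)) = G (l ^ (j + 1) * s) := by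
        rw [hF _ h2.2.1 h2.2.2.1]
        congr 1
        ring
      have h4 := hR.left (G (l ^ j * s)) (hsm j) (by rw [h3]; exact hsm (j + 1))
      have h5 := hR.contr (G (l ^ (j + 1) * s)) (hsm (j + 1))
      rw [← h3, h4] at h5
      rw [← h3]
      exact h5
    have hall : ∀ j : ℕ, chord (G 0) (G (l ^ 0 * s)) ≤ κ ^ j * ρ' := by
      intro j
      have h6 : ∀ j : ℕ, chord (G 0) (G (l ^ 0 * s)) ≤ κ ^ j * chord (G 0) (G (l ^ j * s)) := by
        intro j
        induction j with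
        | zero => simp
        | succ j ih =>
          refine ih.trans ?_
          calc κ ^ j * chord (G 0) (G (l ^ j * s)) ≤
              κ ^ j * (κ * chord (G 0) (G (l ^ (j + 1) * s))) :=
                mul_le_mul_of_nonneg_left (hstep j) (pow_nonneg hR.hκ j)
            _ = κ ^ (j + 1) * chord (G 0) (G (l ^ (j + 1) * s)) := by ring
      exact (h6 j).trans (mul_le_mul_of_nonneg_left (hsm j).le (pow_nonneg hR.hκ j))
    have hle : chord (G 0) (G (l ^ 0 * s)) ≤ 0 := by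
      have h7 : Tendsto (fun j : ℕ => κ ^ j * ρ') atTop (𝓝 0) := by
        have := (tendsto_pow_atTop_nhds_zero_of_lt_one hR.hκ hR.hκ1).mul_const ρ'
        rwa [zero_mul] at this
      exact ge_of_tendsto' h7 hall
    have h8 : chord (G 0) (G (l ^ 0 * s)) = 0 := le_antisymm hle (Pool.Agent.H44.RR.chord_nn _ _)
    have h9 := Pool.Agent.H44.RR.chord_eqz h8
    refine hi _ hw hw0 ?_
    rw [pow_zero, one_mul] at h9
    exact h9.symm

end Pool.Agent.H56.RD
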