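import Pool.Agent.H56.RD.SPE
import Pool.Agent.H56.RD.SCH
import Pool.Agent.H56.RD.SBK
import Pool.Agent.H56.RD.AFS
import Pool.Agent.H56.RD.RDM
import Pool.Agent.H56.HR.MAI
import Pool.Agent.H76.SU.MAI

/-!
# THEOREM FAT: for almost every rational map the Fatou set is the union of the attracting basins
-/

set_option autoImplicit false

open Filter Topology Polynomial Metric Set MeasureTheory

namespace Pool.Agent.H56.RD

open Pool.Agent.H44.Fatou Pool.Agent.H32.BT Pool.Agent.H79.Eul Pool.Agent.H79.Par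
open Pool.Agent.H35.EX Pool.Agent.H44.RR Pool.Agent.H56.HR Pool.Agent.H44.RC Pool.Agent.H47.RJ
variable {d : ℕ} {v : E d}

/-- a rotation domain of a map without neutral cycles is a Herman ring -/
theorem ring_ex (hd : 2 ≤ d) (hcop : IsCoprime (pol v.1) (pol v.2))
    (hdeg : max (pol v.1).natDegree (pol v.2).natDegree = d) (hN : Pool.Agent.H47.NN.NNeu v)
    {q : ℕ} {z0 : OnePoint ℂ} {b : ℕ → ℕ} {ψ0 : OnePoint ℂ → OnePoint ℂ}
    (h0 : RotD (Rf v) q z0 b ψ0) :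
    ∃ (A : Set (OnePoint ℂ)) (p : ℕ) (l : ℂ) (ψ : ℂ → OnePoint ℂ) (r R : ℝ),
      SRing (Rf v) A p l ψ r R := by
  obtain ⟨p, b', h⟩ := cyl_ex (by omega) hcop hdeg h0
  obtain ⟨A, hA⟩ : ∃ A, A = Fc (Rf v) z0 := ⟨_, rfl⟩
  rw [← hA] at h
  obtain ⟨s, φ, V, F, h1, h2, h3, hV, hF, hD, hP⟩ := to_plane hd hcop hdeg hN h
  obtain ⟨l, ψ, r, R, hl, hr, hrR, hψd, hψ, hψF⟩ := rot_dom hD hP
  have hop : IsOpen (Ann r R) := by
    have e : Ann r R = {w : ℂ | r < ‖w‖} ∩ {w : ℂ | ‖w‖ < R} := rfl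
    rw [e]
    exact (isOpen_lt continuous_const continuous_norm).inter
      (isOpen_lt continuous_norm continuous_const)
  have hVA : ∀ z ∈ V, φ.symm (z : OnePoint ℂ) ∈ A := by
    intro z hz
    have h4 : (z : OnePoint ℂ) ∈ φ '' A := by
      rw [hV]
      exact mem_image_of_mem _ hz
    obtain ⟨x, hx, hxz⟩ := h4
    rw [← hxz, Homeomorph.symm_apply_apply]
    exact hx
  refine ⟨A, p, l, fun w => φ.symm (ψ w : OnePoint ℂ), r, R, ?_⟩
  refine ⟨h.comp, h.hp, h.bj.image_eq, h.min, hl, hr, hrR, ⟨?_, ?_, ?_⟩, ?_, ?_⟩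
  · exact fun w hw => hVA _ (hψ.mapsTo hw)
  · intro w hw w' hw' he
    exact hψ.injOn hw hw' (OnePoint.coe_injective (φ.symm.injective he))
  · intro x hx
    have h4 : φ x ∈ ((↑) : ℂ → OnePoint ℂ) '' V := by
      rw [← hV]
      exact mem_image_of_mem _ hx
    obtain ⟨z, hz, hzx⟩ := h4
    obtain ⟨w, hw, hwz⟩ := hψ.surjOn hz
    refine ⟨w, hw, ?_⟩
    change φ.symm (ψ w : OnePoint ℂ) = x
    rw [hwz, hzx, Homeomorph.symm_apply_apply]
  · intro w hw
    exact holo_back h1 h2 h3 (hψd.analyticAt (hop.mem_nhds hw))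
  · intro w hw
    change (Rf v)^[p] (φ.symm (ψ w : OnePoint ℂ)) = φ.symm (ψ (l * w) : OnePoint ℂ)
    rw [← hψF w hw, ← hF _ (hψ.mapsTo hw), Homeomorph.symm_apply_apply]

theorem nw (hd : 2 ≤ d) (hcop : IsCoprime (pol v.1) (pol v.2))
    (hdeg : max (pol v.1).natDegree (pol v.2).natDegree = d) : NW (Rf v) := by
  intro x hx
  obtain ⟨m, n, hmn, he⟩ := Pool.Agent.H76.SU.sullivan hd hcop hdeg hx
  refine ⟨m, n, hmn, ?_⟩
  rw [he]
  exact mem_connectedComponentIn ((fs_iff (by omega) hcop hdeg n x).2 hx)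

/-- THEOREM FAT -/
theorem fat {d : ℕ} (hd : 2 ≤ d) :
    volume {v : E d | IsCoprime (pol v.1) (pol v.2) ∧
      max (pol v.1).natDegree (pol v.2).natDegree = d ∧
      FS (Rf v) ≠ {x | Att (Rf v) x}} = 0 := by
  have hsub : {v : E d | IsCoprime (pol v.1) (pol v.2) ∧
      max (pol v.1).natDegree (pol v.2).natDegree = d ∧ FS (Rf v) ≠ {x | Att (Rf v) x}} ⊆
      {v : E d | IsCoprime (pol v.1) (pol v.2) ∧
        max (pol v.1).natDegree (pol v.2).natDegree = d ∧ ¬ Pool.Agent.H47.NN.NNeu v} ∪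
      {v : E d | IsCoprime (pol v.1) (pol v.2) ∧
        max (pol v.1).natDegree (pol v.2).natDegree = d ∧
        ∃ (A : Set (OnePoint ℂ)) (p : ℕ) (l : ℂ) (ψ : ℂ → OnePoint ℂ) (r R : ℝ),
          SRing (Rf v) A p l ψ r R} := by
    rintro v ⟨hcop, hdeg, hne⟩
    by_cases hN : Pool.Agent.H47.NN.NNeu v
    · right
      refine ⟨hcop, hdeg, ?_⟩
      by_contra hcon
      apply hne
      ext x
      constructor
      · intro hx
        by_contra hna
        obtain ⟨p, z0, b, ψ, hR⟩ := rot_of_nonatt (by omega) hcop hdeg hN (nw hd hcop hdeg) hx hna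
        exact hcon (ring_ex hd hcop hdeg hN hR)
      · exact fun hx => att_fs' (by omega) hcop hdeg hN hx
    · left
      exact ⟨hcop, hdeg, hN⟩
  refine measure_mono_null hsub ?_
  rw [measure_union_null_iff]
  exact ⟨Pool.Agent.H47.NN.nn hd, h_main hd⟩

end Pool.Agent.H56.RD
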