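import Pool.Agent.H56.RD.LM3

/-!
# Module CPT: the orbits are relatively compact in the domain (A. Weil's argument)

PROOF. Let `B = closedBall z0 r ⊆ U`, `r > 0`.
CLAIM: there is `M` such that `F^[j] z0 ∈ B` implies `F^[j + m] z0 ∈ B` for some `1 ≤ m ≤ M`. Suppose not: for every `M` there is `j M` with `F^[j M] z0 ∈ B` and `F^[j M + m] z0 ∉ B` for `1 ≤ m ≤ M`. (a) `j M → ∞`: if `j M = j` for infinitely many `M` then `F^[j + m] z0 ∉ B` for all `m ≥ 1`, but `F^[n k] z0 → z0` with `n k → ∞`: contradiction; so every value is taken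
finitely often. (b) Pass to a subsequence with `F^[j M] z0 → y ∈ B ⊆ U` (compact). `lim_cpt0` (`u = z0`): a further subsequence `F^[j M] → g ∈ Lim`, `g z0 = y`. `lim_inv`: `g' ∈ Lim`, `g' y = z0`; `g'` is the limit of `F^[a i]`, `a i → ∞`: `F^[a i] y → z0`. Choose `a = a i ≥ 1` with `F^[a] y ∈ ball z0 r`. `F^[a] (F^[j M] z0) → F^[a] y` along the subsequence
(`F^[a]` is continuous at `y ∈ U`), so `F^[j M + a] z0 ∈ B` for large `M` (with `M ≥ a`): contradiction.
So for every `j` there is `i ≤ j` with `F^[i] z0 ∈ B` and `j - i ≤ M` (the largest `i ≤ j` with `F^[i] z0 ∈ B`, which exists since `z0 ∈ B`; by the claim there is one in `(i, i + M]`, which must be `> j`): `F^[j] z0 ∈ K = ⋃_(m ≤ M) F^[m] '' B`, compact (finite union of continuous images) and contained in `U`.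
`g ∈ Lim`: `g z0` is the limit of `F^[m k] z0 ∈ K`, and `K` is closed.
-/

set_option autoImplicit false

open Filter Topology Metric Set

namespace Pool.Agent.H56.RD

private theorem cpt_ret {U : Set ℂ} {F : ℂ → ℂ} {n : ℕ → ℕ} (h : Dom U F n) {z0 : ℂ} {r : ℝ}
    (hr : 0 < r) (hz : z0 ∈ U) (hB : closedBall z0 r ⊆ U) :
    ∃ M : ℕ, ∀ j, F^[j] z0 ∈ closedBall z0 r → ∃ m, 1 ≤ m ∧ m ≤ M ∧
      F^[j + m] z0 ∈ closedBall z0 r := by
  by_contra hcon
  push Not at hcon
  choose j hj1 hj2 using hcon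
  have hid : Tendsto (fun k => F^[n k] z0) atTop (𝓝 z0) := jc_pt h.id hz
  -- every value is taken finitely often
  have hfin : ∀ v : ℕ, ∀ᶠ M in atTop, j M ≠ v := by
    intro v
    obtain ⟨k, hk1, hk2⟩ :=
      ((hid.eventually (closedBall_mem_nhds z0 hr)).and (h.tn.eventually_gt_atTop v)).exists
    filter_upwards [eventually_ge_atTop (n k - v)] with M hM he
    refine hj2 M (n k - v) (by omega) hM ?_
    have e : j M + (n k - v) = n k := by omega
    rw [e]
    exact hk1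
  have hjt : Tendsto j atTop atTop := by
    rw [Filter.tendsto_atTop]
    intro b
    have h1 : ∀ᶠ M in atTop, ∀ v ∈ Finset.range b, j M ≠ v := by
      rw [Filter.eventually_all_finset]
      exact fun v _ => hfin v
    filter_upwards [h1] with M hM
    by_contra hlt
    exact hM (j M) (Finset.mem_range.2 (not_le.1 hlt)) rfl
  obtain ⟨y, hy, φ, hφ, hφt⟩ := (isCompact_closedBall z0 r).tendsto_subseq hj1
  have hφa := hφ.tendsto_atTop
  obtain ⟨σ, g, -, hg, -, hgz⟩ := lim_cpt0 h (m := fun k => j (φ k)) (hjt.comp hφa)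
    (u := fun _ => z0) hz tendsto_const_nhds (hB hy) hφt
  obtain ⟨g', hg', hg1, -⟩ := lim_inv h hg
  have hgy : g' y = z0 := by
    rw [← hgz]
    exact hg1 z0 hz
  obtain ⟨-, a, ha, haj⟩ := hg'
  have h2 : Tendsto (fun i => F^[a i] y) atTop (𝓝 z0) := by
    have := jc_pt haj (hB hy)
    rwa [hgy] at this
  obtain ⟨i, hi1, hi2⟩ :=
    ((h2.eventually (ball_mem_nhds z0 hr)).and (ha.eventually_ge_atTop 1)).exists
  have hc : ContinuousAt F^[a i] y :=
    ((h.itd (a i)).differentiableAt (h.op.mem_nhds (hB hy))).continuousAt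
  have h3 : Tendsto (fun k => F^[a i] (F^[j (φ k)] z0)) atTop (𝓝 (F^[a i] y)) :=
    hc.tendsto.comp hφt
  obtain ⟨k, hk1, hk2⟩ := ((h3.eventually (isOpen_ball.mem_nhds hi1)).and
    (hφa.eventually_ge_atTop (a i))).exists
  refine hj2 (φ k) (a i) hi2 hk2 ?_
  rw [Nat.add_comm, Function.iterate_add_apply]
  exact ball_subset_closedBall hk1

theorem orb_cpt {U : Set ℂ} {F : ℂ → ℂ} {n : ℕ → ℕ} (h : Dom U F n) {z0 : ℂ} (hz : z0 ∈ U) :
    ∃ K : Set ℂ, K ⊆ U ∧ IsCompact K ∧ ∀ g, Lim U F g → g z0 ∈ K := by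
  obtain ⟨r, hr, hB⟩ : ∃ r : ℝ, 0 < r ∧ closedBall z0 r ⊆ U := by
    obtain ⟨s, hs, hb⟩ := Metric.isOpen_iff.1 h.op z0 hz
    exact ⟨s / 2, half_pos hs, (closedBall_subset_ball (half_lt_self hs)).trans hb⟩
  obtain ⟨M, hM⟩ := cpt_ret h hr hz hB
  have hmem : ∀ j : ℕ, ∃ i, i ≤ j ∧ F^[i] z0 ∈ closedBall z0 r ∧ j ≤ i + M := by
    intro j
    induction j with
    | zero => exact ⟨0, le_refl _, mem_closedBall_self hr.le, Nat.zero_le _⟩
    | succ j ih =>
      obtain ⟨i, hi1, hi2, hi3⟩ := ih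
      rcases Nat.lt_or_ge (i + M) (j + 1) with hlt | hge
      · obtain ⟨m, hm1, hm2, hm3⟩ := hM i hi2
        exact ⟨i + m, by omega, hm3, by omega⟩
      · exact ⟨i, by omega, hi2, hge⟩
  refine ⟨⋃ m ∈ Finset.range (M + 1), F^[m] '' closedBall z0 r, ?_, ?_, ?_⟩
  · intro w hw
    simp only [mem_iUnion] at hw
    obtain ⟨m, -, x, hx, rfl⟩ := hw
    exact h.itm m (hB hx)
  · refine Finset.isCompact_biUnion _ fun m _ => ?_
    exact (isCompact_closedBall z0 r).image_of_continuousOn ((h.itd m).continuousOn.mono hB)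
  · intro g hg
    obtain ⟨-, m, -, hmj⟩ := hg
    have hcl : IsClosed (⋃ m ∈ Finset.range (M + 1), F^[m] '' closedBall z0 r) := by
      refine IsCompact.isClosed (Finset.isCompact_biUnion _ fun m _ => ?_)
      exact (isCompact_closedBall z0 r).image_of_continuousOn ((h.itd m).continuousOn.mono hB)
    refine hcl.mem_of_tendsto (jc_pt hmj hz) (Eventually.of_forall fun k => ?_)
    obtain ⟨i, hi1, hi2, hi3⟩ := hmem (m k)
    simp only [mem_iUnion]
    refine ⟨m k - i, Finset.mem_range.2 (by omega), F^[i] z0, hi2, ?_⟩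
    rw [← Function.iterate_add_apply]
    congr 2
    omega

end Pool.Agent.H56.RD
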