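import Pool.Agent.H56.RD.MTL

/-!
# Module DIA: a diagonal sequence

PROOF. Exhaustion: `K k = {z | ‖z‖ ≤ k ∧ ∀ w ∉ U, 1 / (k + 1) ≤ dist z w}` is closed and bounded, hence compact, contained in `U` (take `w = z`), increasing in `k`, and every `z ∈ U` has a neighbourhood contained in `K k` for all large `k`: if `ball z (2 r) ⊆ U` then `ball z r ⊆ K k` as soon as `1 / (k + 1) ≤ r` and `‖z‖ + r ≤ k`.
(Or: `CompactExhaustion` of the locally compact, `σ`-compact subtype `U`.) By hypothesis (with `ε = 1 / (k + 1)`, `N = k`) choose `m k ≥ k` with `‖H (m k) z - g z‖ < 1 / (k + 1)` for `z ∈ K k`. `m k → ∞`. For `z ∈ U`, `ε > 0`: for large `k` and `y ∈ ball z r`: `‖H (m k) y - g z‖ ≤ ‖H (m k) y - g y‖ + ‖g y - g z‖ < 1 / (k + 1) + ‖g y - g z‖`,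
and `g` is continuous at `z`: `JC`.
-/

set_option autoImplicit false

open Filter Topology Metric Set

namespace Pool.Agent.H56.RD

/-- the exhaustion by compact sets -/
private def kk (U : Set ℂ) (k : ℕ) : Set ℂ :=
  {z | ‖z‖ ≤ k ∧ ∀ w ∉ U, 1 / ((k : ℝ) + 1) ≤ dist z w}

private theorem kk_sub (U : Set ℂ) (k : ℕ) : kk U k ⊆ U := by
  intro z hz
  by_contra hcon
  have h := hz.2 z hcon
  rw [dist_self] at h
  have : 0 < 1 / ((k : ℝ) + 1) := by positivity
  linarith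

private theorem kk_cpt (U : Set ℂ) (k : ℕ) : IsCompact (kk U k) := by
  apply Metric.isCompact_of_isClosed_isBounded
  · have h1 : IsClosed {z : ℂ | ‖z‖ ≤ k} := isClosed_le continuous_norm continuous_const
    have h2 : IsClosed {z : ℂ | ∀ w ∉ U, 1 / ((k : ℝ) + 1) ≤ dist z w} := by
      have e : {z : ℂ | ∀ w ∉ U, 1 / ((k : ℝ) + 1) ≤ dist z w} =
          ⋂ (w : ℂ) (_ : w ∉ U), {z : ℂ | 1 / ((k : ℝ) + 1) ≤ dist z w} := by
        ext z
        simp
      rw [e]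
      exact isClosed_iInter fun w => isClosed_iInter fun _ =>
        isClosed_le continuous_const (continuous_id.dist continuous_const)
    exact h1.inter h2
  · rw [isBounded_iff_forall_norm_le]
    exact ⟨k, fun z hz => hz.1⟩

theorem dia {U : Set ℂ} (hU : IsOpen U) {H : ℕ → ℂ → ℂ} {g : ℂ → ℂ} (hg : ContinuousOn g U)
    (h : ∀ K ⊆ U, IsCompact K → ∀ ε : ℝ, 0 < ε → ∀ N : ℕ, ∃ m, N ≤ m ∧ ∀ z ∈ K,
      ‖H m z - g z‖ < ε) :
    ∃ m : ℕ → ℕ, Tendsto m atTop atTop ∧ JC (fun k => H (m k)) g U := by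
  have h1 : ∀ k : ℕ, ∃ m, k ≤ m ∧ ∀ z ∈ kk U k, ‖H m z - g z‖ < 1 / ((k : ℝ) + 1) :=
    fun k => h (kk U k) (kk_sub U k) (kk_cpt U k) _ (by positivity) k
  choose m hm1 hm2 using h1
  refine ⟨m, tendsto_atTop_mono hm1 tendsto_id, ?_⟩
  intro z hz
  rw [Metric.tendsto_nhds]
  intro ε hε
  obtain ⟨r0, hr0, hball⟩ := Metric.isOpen_iff.1 hU z hz
  set r := r0 / 2 with hr
  have hrpos : 0 < r := by positivity
  have hgz : ContinuousAt g z := hg.continuousAt (hU.mem_nhds hz)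
  have hy1 : ∀ᶠ y in 𝓝 z, dist (g y) (g z) < ε / 2 :=
    Metric.tendsto_nhds.1 hgz (ε / 2) (by positivity)
  have hy2 : ∀ᶠ y in 𝓝 z, dist y z < r := Metric.ball_mem_nhds z hrpos
  have hk0 : Tendsto (fun k : ℕ => 1 / ((k : ℝ) + 1)) atTop (𝓝 0) :=
    tendsto_one_div_add_atTop_nhds_zero_nat
  have hk1 : ∀ᶠ k : ℕ in atTop, 1 / ((k : ℝ) + 1) < r := hk0.eventually_lt_const hrpos
  have hk2 : ∀ᶠ k : ℕ in atTop, 1 / ((k : ℝ) + 1) < ε / 2 :=
    hk0.eventually_lt_const (by positivity)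
  have hk3 : ∀ᶠ k : ℕ in atTop, ‖z‖ + r ≤ (k : ℝ) :=
    tendsto_natCast_atTop_atTop.eventually_ge_atTop (‖z‖ + r)
  refine ((hk1.and (hk2.and hk3)).prod_mk (hy1.and hy2)).mono ?_
  rintro ⟨k, y⟩ ⟨⟨a1, a2, a3⟩, b1, b2⟩
  simp only at a1 a2 a3 b1 b2 ⊢
  have hyK : y ∈ kk U k := by
    refine ⟨?_, ?_⟩
    · have h3 : ‖y‖ ≤ ‖z‖ + ‖y - z‖ := by
        have := norm_add_le z (y - z)
        simpa using this
      rw [← dist_eq_norm] at h3
      linarith
    · intro w hw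
      have h4 : r0 ≤ dist w z := by
        by_contra hcon
        push Not at hcon
        exact hw (hball hcon)
      have h5 := dist_triangle w y z
      rw [dist_comm w y] at h5
      have h6 : r + r = r0 := by rw [hr]; ring
      linarith
  have h7 := hm2 k y hyK
  rw [← dist_eq_norm] at h7
  calc dist (H (m k) y) (g z) ≤ dist (H (m k) y) (g y) + dist (g y) (g z) := dist_triangle _ _ _
    _ < ε / 2 + ε / 2 := by linarith
    _ = ε := by ring

end Pool.Agent.H56.RD
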