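import Pool.Agent.H56.RD.LGP
import Pool.Agent.H56.RD.CPT

/-!
# Module DIM: the times of the limit maps near the identity are real

PROOF. Suppose not: for every `r > 0` there is `c` with `‖c‖ < r`, `Tim c`, `c.im ≠ 0`. `-(c.re)` is a time (`tim_real`), so for `r ≤ δ / 4` `tim_add` gives: `I * b` is a time, `b = c.im ≠ 0`, `|b| < r`. Choose `b k → 0`, `b k ≠ 0`, `|b k| < δ / 4`, with `Tim (I * b k)`.
(1) `Tim (I * (j * b k))` for every integer `j` with `|j * b k| < δ / 2`: induction on `|j|` with `tim_add` (all partial sums are in the ball), `tim_neg`. (2) Every `c' = a + I b'` with `‖c'‖ < δ / 4` is a time: with `j k = ⌊b' / b k⌋`, `|b' - j k * b k| ≤ |b k| → 0`, `|j k * b k| < δ / 2` for large `k`; `a + I * (j k * b k)` is a time (`tim_real`, `tim_add`) and tends to `c'`: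
`tim_lim`.
(3) Let `O = {g (E 0) | g ∈ Lim} ⊆ U`, nonempty (`lim_id`). `O` is a neighbourhood of each of its points `g (E 0)`: by (2) `g (E ζ) ∈ O` for `ζ ∈ ball 0 (δ / 4)` (`E ζ = g' (E 0)`, `lim_comp`), and `g ∘ E` is a solution on `ball 0 δ` (`sol_lim`), so the image of `ball 0 (δ / 4)` is a neighbourhood of `g (E 0)` (`sol_img`). `O` is closed in `U`: if `g k (E 0) → y ∈ U`
then `y ∈ O` (`lim_cpt`, `u k = z = E 0`). `U` is preconnected, so `O = U` (`IsPreconnected.subset_of_closure_inter_subset`).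
(4) `orb_cpt`: `O ⊆ K ⊆ U`, `K` compact. So `U = K` is compact and open, nonempty: `U = univ` (`IsClopen.eq_univ`, `ℂ` is connected), but `ℂ` is not compact (`h.bd`, or `noncompact_univ`). Contradiction.
-/

set_option autoImplicit false

open Filter Topology Metric Set

namespace Pool.Agent.H56.RD

private theorem dim_nat {U : Set ℂ} {F : ℂ → ℂ} {n : ℕ → ℕ} {X : ℂ → ℂ} {e : ℕ → ℝ}
    (v : Vec U F n X e) {E : ℂ → ℂ} {δ : ℝ} (hδ : 0 < δ) (hE : Sol X U (ball 0 δ) E) {b : ℝ}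
    (hb : |b| < δ / 4) (ht : Tim U F E (Complex.I * (b : ℂ))) (j : ℕ) :
    (j : ℝ) * |b| < δ / 2 → Tim U F E (Complex.I * (((j : ℝ) * b : ℝ) : ℂ)) := by
  induction j with
  | zero =>
    intro _
    have h := tim_real v hδ hE (t := 0) (by rw [abs_zero]; exact hδ)
    have e1 : Complex.I * ((((0 : ℕ) : ℝ) * b : ℝ) : ℂ) = ((0 : ℝ) : ℂ) := by simp
    rw [e1]
    exact h
  | succ j ih =>
    intro hj
    push_cast at hj
    have hb0 := abs_nonneg b
    have h1 : (j : ℝ) * |b| < δ / 2 := by nlinarith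
    have h2 := ih h1
    have hn : ∀ t : ℝ, ‖Complex.I * (t : ℂ)‖ = |t| := by
      intro t
      rw [norm_mul, Complex.norm_I, one_mul, Complex.norm_real, Real.norm_eq_abs]
    have habs : |(j : ℝ) * b| = j * |b| := by
      rw [abs_mul, abs_of_nonneg (Nat.cast_nonneg j)]
    have e1 : Complex.I * ((((j + 1 : ℕ) : ℝ) * b : ℝ) : ℂ) =
        Complex.I * (((j : ℝ) * b : ℝ) : ℂ) + Complex.I * (b : ℂ) := by
      push_cast
      ring
    rw [e1]
    refine tim_add v hδ hE ?_ ?_ ?_ h2 ht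
    · rw [mem_ball_zero_iff, hn, habs]
      linarith
    · rw [mem_ball_zero_iff, hn]
      linarith
    · rw [← e1, mem_ball_zero_iff, hn, abs_mul, abs_of_nonneg (Nat.cast_nonneg _)]
      push_cast
      linarith

private theorem dim_int {U : Set ℂ} {F : ℂ → ℂ} {n : ℕ → ℕ} {X : ℂ → ℂ} {e : ℕ → ℝ}
    (v : Vec U F n X e) {E : ℂ → ℂ} {δ : ℝ} (hδ : 0 < δ) (hE : Sol X U (ball 0 δ) E) {b : ℝ}
    (hb : |b| < δ / 4) (ht : Tim U F E (Complex.I * (b : ℂ))) (j : ℤ)
    (hj : |(j : ℝ) * b| < δ / 2) : Tim U F E (Complex.I * (((j : ℝ) * b : ℝ) : ℂ)) := by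
  obtain ⟨m, rfl | rfl⟩ := j.eq_nat_or_neg
  · refine dim_nat v hδ hE hb ht m ?_
    rw [abs_mul] at hj
    simpa using hj
  · have h1 : (m : ℝ) * |b| < δ / 2 := by
      rw [abs_mul] at hj
      simpa using hj
    have h2 := dim_nat v hδ hE hb ht m h1
    have hn : ‖Complex.I * (((m : ℝ) * b : ℝ) : ℂ)‖ = m * |b| := by
      rw [norm_mul, Complex.norm_I, one_mul, Complex.norm_real, Real.norm_eq_abs, abs_mul,
        abs_of_nonneg (Nat.cast_nonneg m)]
    have h3 := tim_neg v hδ hE (c := Complex.I * (((m : ℝ) * b : ℝ) : ℂ)) (by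
      rw [mem_ball_zero_iff, hn]
      linarith) h2
    have e1 : Complex.I * ((((-(m : ℤ) : ℤ) : ℝ) * b : ℝ) : ℂ) =
        -(Complex.I * (((m : ℝ) * b : ℝ) : ℂ)) := by
      push_cast
      ring
    rw [e1]
    exact h3

private theorem dim_all {U : Set ℂ} {F : ℂ → ℂ} {n : ℕ → ℕ} {X : ℂ → ℂ} {e : ℕ → ℝ}
    (v : Vec U F n X e) {E : ℂ → ℂ} {δ : ℝ} (hδ : 0 < δ) (hE : Sol X U (ball 0 δ) E)
    (h : ∀ r : ℝ, 0 < r → ∃ b : ℝ, b ≠ 0 ∧ |b| < r ∧ Tim U F E (Complex.I * (b : ℂ))) {c : ℂ}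
    (hc : ‖c‖ < δ / 4) : Tim U F E c := by
  have h1 : ∀ k : ℕ, ∃ b : ℝ, b ≠ 0 ∧ |b| < min (δ / 4) (1 / ((k : ℝ) + 1)) ∧
      Tim U F E (Complex.I * (b : ℂ)) := fun k => h _ (lt_min (by positivity) (by positivity))
  choose b hb0 hb1 hbt using h1
  have hre : |c.re| < δ / 4 := (Complex.abs_re_le_norm c).trans_lt hc
  have him : |c.im| < δ / 4 := (Complex.abs_im_le_norm c).trans_lt hc
  have hdist : ∀ k, |(⌊c.im / b k⌋ : ℝ) * b k - c.im| ≤ |b k| := by
    intro k
    have e1 : (⌊c.im / b k⌋ : ℝ) * b k - c.im = -((c.im / b k - ⌊c.im / b k⌋) * b k) := by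
      have := hb0 k
      field_simp
      ring
    rw [e1, abs_neg, abs_mul]
    have h2 : |c.im / b k - ⌊c.im / b k⌋| ≤ 1 := by
      have h3 := Int.floor_le (c.im / b k)
      have h4 := Int.lt_floor_add_one (c.im / b k)
      rw [abs_le]
      constructor <;> linarith
    calc |c.im / b k - ⌊c.im / b k⌋| * |b k| ≤ 1 * |b k| :=
          mul_le_mul_of_nonneg_right h2 (abs_nonneg _)
      _ = |b k| := one_mul _
  have hsz : ∀ k, |(⌊c.im / b k⌋ : ℝ) * b k| < δ / 2 := by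
    intro k
    have h2 := hdist k
    have h3 := (hb1 k).trans_le (min_le_left _ _)
    have h4 : |(⌊c.im / b k⌋ : ℝ) * b k| ≤ |(⌊c.im / b k⌋ : ℝ) * b k - c.im| + |c.im| := by
      have := abs_add_le ((⌊c.im / b k⌋ : ℝ) * b k - c.im) c.im
      rwa [sub_add_cancel] at this
    linarith
  have hn : ∀ t : ℝ, ‖Complex.I * (t : ℂ)‖ = |t| := by
    intro t
    rw [norm_mul, Complex.norm_I, one_mul, Complex.norm_real, Real.norm_eq_abs]
  refine tim_lim v hδ hE (c := c) (u := fun k => (c.re : ℂ) +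
    Complex.I * ((((⌊c.im / b k⌋ : ℝ) * b k : ℝ)) : ℂ)) ?_ ?_ ?_
  · rw [mem_ball_zero_iff]
    linarith
  · rw [tendsto_iff_norm_sub_tendsto_zero]
    refine squeeze_zero (fun _ => norm_nonneg _) (fun k => ?_)
      (tendsto_one_div_add_atTop_nhds_zero_nat (𝕜 := ℝ))
    have e1 : (c.re : ℂ) + Complex.I * ((((⌊c.im / b k⌋ : ℝ) * b k : ℝ)) : ℂ) - c =
        Complex.I * ((((⌊c.im / b k⌋ : ℝ) * b k - c.im : ℝ)) : ℂ) := by
      have h3 := Complex.re_add_im c
      conv_lhs => rw [← h3]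
      push_cast
      simp only [Complex.add_re, Complex.ofReal_re, Complex.mul_re, Complex.I_re, Complex.I_im,
        Complex.ofReal_im, Complex.add_im, Complex.mul_im, mul_zero, mul_one, zero_mul, sub_zero,
        add_zero, zero_add, sub_self]
      ring
    rw [e1, hn]
    exact (hdist k).trans ((hb1 k).trans_le (min_le_right _ _)).le
  · intro k
    refine tim_add v hδ hE ?_ ?_ ?_ (tim_real v hδ hE (by linarith))
      (dim_int v hδ hE ((hb1 k).trans_le (min_le_left _ _)) (hbt k) _ (hsz k))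
    · rw [mem_ball_zero_iff, Complex.norm_real, Real.norm_eq_abs]
      linarith
    · rw [mem_ball_zero_iff, hn]
      linarith [hsz k]
    · rw [mem_ball_zero_iff]
      refine (norm_add_le _ _).trans_lt ?_
      rw [Complex.norm_real, Real.norm_eq_abs, hn]
      linarith [hsz k]

theorem dim {U : Set ℂ} {F : ℂ → ℂ} {n : ℕ → ℕ} {X : ℂ → ℂ} {e : ℕ → ℝ} (v : Vec U F n X e)
    {E : ℂ → ℂ} {δ : ℝ} (hδ : 0 < δ) (hE : Sol X U (ball 0 δ) E) :
    ∃ δ1 : ℝ, 0 < δ1 ∧ ∀ c ∈ ball (0 : ℂ) δ1, Tim U F E c → c.im = 0 := by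
  by_contra hcon
  push Not at hcon
  have hsmall : ∀ r : ℝ, 0 < r → ∃ b : ℝ, b ≠ 0 ∧ |b| < r ∧ Tim U F E (Complex.I * (b : ℂ)) := by
    intro r hr
    obtain ⟨c, hc, hct, hci⟩ := hcon (min r (δ / 4)) (lt_min hr (by positivity))
    rw [mem_ball_zero_iff] at hc
    have hc1 := hc.trans_le (min_le_left _ _)
    have hc2 := hc.trans_le (min_le_right _ _)
    have hre := Complex.abs_re_le_norm c
    have him := Complex.abs_im_le_norm c
    refine ⟨c.im, hci, him.trans_lt hc1, ?_⟩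
    have h1 := tim_real v hδ hE (t := -c.re) (by rw [abs_neg]; linarith)
    have e1 : c + ((-c.re : ℝ) : ℂ) = Complex.I * (c.im : ℂ) := by
      have h3 := Complex.re_add_im c
      conv_lhs => rw [← h3]
      push_cast
      simp only [Complex.add_re, Complex.ofReal_re, Complex.mul_re, Complex.I_re, Complex.I_im,
        Complex.ofReal_im, mul_zero, mul_one, sub_zero, add_zero, sub_self]
      ring
    rw [← e1]
    refine tim_add v hδ hE ?_ ?_ ?_ hct h1
    · rw [mem_ball_zero_iff]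
      linarith
    · rw [mem_ball_zero_iff, Complex.norm_real, Real.norm_eq_abs, abs_neg]
      linarith
    · rw [e1, mem_ball_zero_iff, norm_mul, Complex.norm_I, one_mul, Complex.norm_real,
        Real.norm_eq_abs]
      linarith
  have h0 : (0 : ℂ) ∈ ball (0 : ℂ) δ := mem_ball_self hδ
  have hE0 : E 0 ∈ U := hE.maps h0
  obtain ⟨O, hO⟩ : ∃ O : Set ℂ, O = {y | ∃ g, Lim U F g ∧ g (E 0) = y} := ⟨_, rfl⟩
  have hOo : IsOpen O := by
    rw [isOpen_iff_mem_nhds]
    intro y hy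
    rw [hO] at hy
    obtain ⟨g, hg, rfl⟩ := hy
    have h1 := sol_img v.fld isOpen_ball (sol_lim v hE hg) h0
      (ball_mem_nhds (0 : ℂ) (show 0 < δ / 4 by positivity))
    refine mem_of_superset h1 ?_
    rintro _ ⟨ζ, hζ, rfl⟩
    rw [mem_ball_zero_iff] at hζ
    obtain ⟨g', hg', he⟩ := dim_all v hδ hE hsmall hζ
    rw [hO]
    refine ⟨_, lim_comp v.dom hg hg', ?_⟩
    show g (g' (E 0)) = g (E ζ)
    rw [he]
  have hUO : U ⊆ O := by
    refine v.dom.pc.subset_of_closure_inter_subset hOo ⟨E 0, hE0, ?_⟩ ?_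
    · rw [hO]
      exact ⟨_, lim_id v.dom, rfl⟩
    · rintro y ⟨hy, hyU⟩
      obtain ⟨u, hu, hul⟩ := mem_closure_iff_seq_limit.1 hy
      rw [hO] at hu
      choose g hg he using hu
      obtain ⟨σ, g0, -, hg0, -, hg0e⟩ := lim_cpt v.dom hg hE0 tendsto_const_nhds hyU
        (show Tendsto (fun k => g k (E 0)) atTop (𝓝 y) by
          have e1 : (fun k => g k (E 0)) = u := funext he
          rw [e1]
          exact hul)
      rw [hO]
      exact ⟨g0, hg0, hg0e⟩
  obtain ⟨K, hKU, hK, hKg⟩ := orb_cpt v.dom hE0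
  have hUK : U = K := by
    refine Subset.antisymm (fun y hy => ?_) hKU
    have h1 := hUO hy
    rw [hO] at h1
    obtain ⟨g, hg, rfl⟩ := h1
    exact hKg g hg
  have hcl : IsClosed U := by
    rw [hUK]
    exact hK.isClosed
  have huniv : U = univ := IsClopen.eq_univ ⟨hcl, v.dom.op⟩ v.dom.ne
  have hb := v.dom.bd
  rw [huniv] at hb
  exact NormedSpace.unbounded_univ ℝ ℂ hb

end Pool.Agent.H56.RD
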