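import Pool.Agent.H56.RD.Defs

/-!
# Module LGR: iterates near the identity grow linearly

PROOF. For `j ≤ J` let `φ j w = g^[j] w - w`: holomorphic on `U` (`g` maps `U` to `U`), `‖φ j‖ ≤ δ / 4` on `ball z (2 δ)`. Cauchy: `‖deriv (φ j) w‖ ≤ (δ / 4) / δ'` for every `w ∈ ball z δ` and `δ' < δ` (the closed ball of radius `δ'` about `w` is in `ball z (2 δ)`), so `‖deriv (φ j) w‖ ≤ 1 / 4` (let `δ' → δ`; or use `w ∈ closedBall z (δ / 2)`, `δ' = δ`, which is
enough). If `J = 0` the claim is trivial. If `J ≥ 1` then `‖g z - z‖ ≤ δ / 4` (`j = 1`), so `z, g z ∈ closedBall z (δ / 2)` (convex) and `‖φ j (g z) - φ j z‖ ≤ ‖g z - z‖ / 4` for `j ≤ J` (`Convex.norm_image_sub_le_of_norm_deriv_le`). `φ j (g z) - φ j z = g^[j + 1] z - g z - g^[j] z + z = (g^[j + 1] z - g^[j] z) - (g z - z)`. Sum over `j < J`: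
`g^[J] z - z - J (g z - z) = Σ_(j < J) (φ j (g z) - φ j z)` (induction on `J`).
-/

set_option autoImplicit false

open Filter Topology Metric Set

namespace Pool.Agent.H56.RD

theorem lgr {U : Set ℂ} {g : ℂ → ℂ} {z : ℂ} {δ : ℝ} {J : ℕ} (hδ : 0 < δ) (hU : IsOpen U)
    (hg : DifferentiableOn ℂ g U) (hm : MapsTo g U U) (hz : ball z (2 * δ) ⊆ U)
    (hJ : ∀ j ≤ J, ∀ w ∈ ball z (2 * δ), ‖g^[j] w - w‖ ≤ δ / 4) :
    ‖g^[J] z - z - (J : ℂ) * (g z - z)‖ ≤ (J : ℝ) * ‖g z - z‖ / 4 := by
  have hit : ∀ j : ℕ, DifferentiableOn ℂ g^[j] U := by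
    intro j
    induction j with
    | zero =>
      rw [Function.iterate_zero]
      exact differentiableOn_id
    | succ j ih =>
      rw [Function.iterate_succ]
      exact ih.comp hg hm
  have hd : ∀ j : ℕ, DifferentiableOn ℂ (fun w => g^[j] w - w) (ball z (2 * δ)) := fun j =>
    ((hit j).mono hz).sub differentiableOn_id
  have hlip : ∀ j ≤ J, ∀ w ∈ ball z δ, ‖deriv (fun w => g^[j] w - w) w‖ ≤ 1 / 4 := by
    intro j hj w hw
    have h1 : closedBall w δ ⊆ ball z (2 * δ) := by
      intro y hy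
      rw [mem_ball] at hw ⊢
      rw [mem_closedBall] at hy
      have := dist_triangle y w z
      linarith
    have h2 := Complex.norm_deriv_le_of_forall_mem_sphere_norm_le hδ
      ((hd j).diffContOnCl_ball h1) (C := δ / 4) (fun y hy => hJ j hj y
        (h1 (sphere_subset_closedBall hy)))
    refine h2.trans (le_of_eq ?_)
    field_simp
  rcases Nat.eq_zero_or_pos J with h0 | h0
  · subst h0
    simp
  have hzb : z ∈ ball z (2 * δ) := mem_ball_self (by linarith)
  have hg1 : ‖g z - z‖ ≤ δ / 4 := hJ 1 h0 z hzb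
  have hgz : g z ∈ ball z δ := by
    rw [mem_ball, dist_eq_norm]
    linarith
  have hstep : ∀ j ≤ J, ‖(g^[j] (g z) - g z) - (g^[j] z - z)‖ ≤ 1 / 4 * ‖g z - z‖ := by
    intro j hj
    refine (convex_ball z δ).norm_image_sub_le_of_norm_deriv_le (f := fun w => g^[j] w - w)
      (fun w hw => ?_) (hlip j hj) (mem_ball_self hδ) hgz
    exact (hd j).differentiableAt (isOpen_ball.mem_nhds (ball_subset_ball (by linarith) hw))
  have key : ∀ j ≤ J, ‖g^[j] z - z - (j : ℂ) * (g z - z)‖ ≤ (j : ℝ) * ‖g z - z‖ / 4 := by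
    intro j
    induction j with
    | zero => intro _; simp
    | succ j ih =>
      intro hj
      have h1 := ih (by omega)
      have h2 := hstep j (by omega)
      have e : g^[j + 1] z - z - ((j + 1 : ℕ) : ℂ) * (g z - z) =
          (g^[j] z - z - (j : ℂ) * (g z - z)) + ((g^[j] (g z) - g z) - (g^[j] z - z)) := by
        rw [Function.iterate_succ_apply]
        push_cast
        ring
      rw [e]
      refine (norm_add_le _ _).trans ((add_le_add h1 h2).trans (le_of_eq ?_))
      push_cast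
      ring
  exact key J le_rfl

end Pool.Agent.H56.RD
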