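import Pool.Agent.H56.RD.LM3
import Pool.Agent.H56.RD.LGR

/-!
# Module DSP: comparison of the displacements at different points

PROOF. Write `G k = F^[n k]`. `K1 = K ∪ {z0}` is compact in `U`: there is `δ > 0` with `cthickening (4 δ) K1 ⊆ U` (`IsCompact.exists_cthickening_subset_open`). `K' = cthickening (2 δ) K1`, `K'' = cthickening (3 δ) K1`: compact, in `U`. `P k j`: `∀ w ∈ K', ‖(G k)^[j] w - w‖ ≤ δ / 4`. `P k 0` holds. For large `k`: `n k > 0` and `‖G k w - w‖ ≤ δ / 8` for all `w ∈ K''`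
(`jc_unif`, `h.id`), so `P k 1`. Only such `k` are considered.
If `P k j` for all `j ≤ J` then `lgr` at `z0` (`ball z0 (2 δ) ⊆ K'`): `(3 / 4) J ‖G k z0 - z0‖ ≤ ‖(G k)^[J] z0 - z0‖ ≤ δ / 4`, and `G k z0 ≠ z0` (`h.np`): `J` is bounded. Let `J k ≥ 1` be the largest `J` with `P k j` for all `j ≤ J` (`Nat.find` for the first `j` with `¬ P k j`, minus one). There is `w k ∈ K'` with `‖(G k)^[J k + 1] (w k) - w k‖ > δ / 4`. `w' = (G k)^[J k] (w k)` is in
`K''` (distance `≤ δ / 4` from `w k`) and `‖G k w' - w'‖ ≤ δ / 8`, so `‖(G k)^[J k] (w k) - w k‖ > δ / 8`.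
CLAIM: there is `c > 0` with `c ≤ ‖(G k)^[J k] z0 - z0‖` for large `k`. Otherwise along a strictly increasing sequence `τ` `(G (τ k))^[J (τ k)] z0 → z0`. `(G k)^[J k] = F^[n k * J k]` (`Function.iterate_mul`), `n k * J k ≥ n k → ∞`. `lim_cpt0` (`u = z0`, `z = y = z0`): a further subsequence converges (`JC`) to `g ∈ Lim`, `g z0 = z0`, so `g = id` on `U` (`lim_fix`). `K'` is compact:
a further subsequence `w k → w ∈ K' ⊆ U`, and `(G k)^[J k] (w k) → g w = w` (`jc_mv`): contradiction to `‖(G k)^[J k] (w k) - w k‖ > δ / 8`.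
For large `k` and `z ∈ K` (`lgr` at `z` and at `z0`; `P k j` for `j ≤ J k`): `(3 / 4) (J k) ‖G k z - z‖ ≤ ‖(G k)^[J k] z - z‖ ≤ δ / 4` and `c ≤ ‖(G k)^[J k] z0 - z0‖ ≤ (5 / 4) (J k) ‖G k z0 - z0‖`. So `‖G k z - z‖ ≤ δ / (3 J k)` and `1 / J k ≤ (5 / (4 c)) ‖G k z0 - z0‖`: `C = 5 δ / (12 c)`.
-/

set_option autoImplicit false

open Filter Topology Metric Set

namespace Pool.Agent.H56.RD

private theorem dsp_two {U : Set ℂ} {F : ℂ → ℂ} {n : ℕ → ℕ} (h : Dom U F n) {k J : ℕ} {z : ℂ}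
    {δ : ℝ} (hδ : 0 < δ) (hz : ball z (2 * δ) ⊆ U)
    (hJ : ∀ j ≤ J, ∀ w ∈ ball z (2 * δ), ‖(F^[n k])^[j] w - w‖ ≤ δ / 4) :
    3 / 4 * ((J : ℝ) * ‖F^[n k] z - z‖) ≤ ‖(F^[n k])^[J] z - z‖ ∧
      ‖(F^[n k])^[J] z - z‖ ≤ 5 / 4 * ((J : ℝ) * ‖F^[n k] z - z‖) := by
  have h1 := lgr hδ h.op (h.itd (n k)) (h.itm (n k)) hz hJ
  have h2 : ‖(J : ℂ) * (F^[n k] z - z)‖ = (J : ℝ) * ‖F^[n k] z - z‖ := by
    rw [norm_mul, Complex.norm_natCast]
  constructor
  · have h3 : ‖(J : ℂ) * (F^[n k] z - z)‖ ≤ ‖(F^[n k])^[J] z - z‖ +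
        ‖(F^[n k])^[J] z - z - (J : ℂ) * (F^[n k] z - z)‖ := by
      have e : (J : ℂ) * (F^[n k] z - z) = ((F^[n k])^[J] z - z) -
          ((F^[n k])^[J] z - z - (J : ℂ) * (F^[n k] z - z)) := by ring
      conv_lhs => rw [e]
      exact norm_sub_le _ _
    rw [h2] at h3
    linarith
  · have h3 : ‖(F^[n k])^[J] z - z‖ ≤ ‖(J : ℂ) * (F^[n k] z - z)‖ +
        ‖(F^[n k])^[J] z - z - (J : ℂ) * (F^[n k] z - z)‖ := by
      have e : (F^[n k])^[J] z - z = (J : ℂ) * (F^[n k] z - z) +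
          ((F^[n k])^[J] z - z - (J : ℂ) * (F^[n k] z - z)) := by ring
      conv_lhs => rw [e]
      exact norm_add_le _ _
    rw [h2] at h3
    linarith

theorem dsp {U : Set ℂ} {F : ℂ → ℂ} {n : ℕ → ℕ} (h : Dom U F n) {z0 : ℂ} (hz0 : z0 ∈ U)
    {K : Set ℂ} (hK : IsCompact K) (hKU : K ⊆ U) :
    ∃ C : ℝ, ∀ᶠ k in atTop, ∀ z ∈ K, ‖F^[n k] z - z‖ ≤ C * ‖F^[n k] z0 - z0‖ := by
  classical
  obtain ⟨K1, hK1⟩ : ∃ K1, K1 = insert z0 K := ⟨_, rfl⟩
  have hK1c : IsCompact K1 := by rw [hK1]; exact hK.insert z0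
  have hK1U : K1 ⊆ U := by rw [hK1]; exact insert_subset hz0 hKU
  have hz0K : z0 ∈ K1 := by rw [hK1]; exact mem_insert _ _
  obtain ⟨δ4, hδ4, hδU⟩ := hK1c.exists_cthickening_subset_open h.op hK1U
  obtain ⟨δ, hδ, hδe⟩ : ∃ δ : ℝ, 0 < δ ∧ δ4 = 4 * δ := ⟨δ4 / 4, by linarith, by ring⟩
  rw [hδe] at hδU
  have hK'U : cthickening (2 * δ) K1 ⊆ U := (cthickening_mono (by linarith) K1).trans hδU
  have hK''U : cthickening (3 * δ) K1 ⊆ U := (cthickening_mono (by linarith) K1).trans hδU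
  have hK'c : IsCompact (cthickening (2 * δ) K1) := hK1c.cthickening
  have hK''c : IsCompact (cthickening (3 * δ) K1) := hK1c.cthickening
  have hball : ∀ z ∈ K1, ball z (2 * δ) ⊆ cthickening (2 * δ) K1 := fun z hz w hw =>
    mem_cthickening_of_dist_le w z (2 * δ) K1 hz (le_of_lt (mem_ball.1 hw))
  have hsub : K1 ⊆ cthickening (2 * δ) K1 := fun z hz =>
    hball z hz (mem_ball_self (by linarith))
  have hev := (jc_unif h.op h.id hK''c hK''U (ε := δ / 8) (by linarith)).and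
    (h.tn.eventually_gt_atTop 0)
  obtain ⟨k0, hk0⟩ := eventually_atTop.1 hev
  -- the number J and the point w
  have hJw : ∀ k : ℕ, ∃ (J : ℕ) (w : ℂ), 1 ≤ J ∧ w ∈ cthickening (2 * δ) K1 ∧ (k0 ≤ k →
      (∀ j ≤ J, ∀ w ∈ cthickening (2 * δ) K1, ‖(F^[n k])^[j] w - w‖ ≤ δ / 4) ∧
      δ / 8 < ‖(F^[n k])^[J] w - w‖) := by
    intro k
    by_cases hk : k0 ≤ k
    swap
    · exact ⟨1, z0, le_rfl, hsub hz0K, fun h1 => absurd h1 hk⟩
    obtain ⟨hk1, hk2⟩ := hk0 k hk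
    have hd : 0 < ‖F^[n k] z0 - z0‖ := by
      rw [norm_pos_iff, sub_ne_zero]
      exact h.np (n k) hk2 z0 hz0
    have hex : ∃ j, ¬ ∀ w ∈ cthickening (2 * δ) K1, ‖(F^[n k])^[j] w - w‖ ≤ δ / 4 := by
      by_contra hcon
      push Not at hcon
      obtain ⟨J, hJ⟩ := exists_nat_gt (δ / (3 * ‖F^[n k] z0 - z0‖))
      rw [div_lt_iff₀ (by positivity)] at hJ
      have h1 := (dsp_two h (k := k) (J := J) hδ ((hball z0 hz0K).trans hK'U)
        (fun j _ w hw => hcon j w (hball z0 hz0K hw))).1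
      have h2 := hcon J z0 (hsub hz0K)
      nlinarith
    obtain ⟨j0, hj0d⟩ : ∃ j0, j0 = Nat.find hex := ⟨_, rfl⟩
    have hj0 := Nat.find_spec hex
    rw [← hj0d] at hj0
    have hlt : ∀ j < j0, ∀ w ∈ cthickening (2 * δ) K1, ‖(F^[n k])^[j] w - w‖ ≤ δ / 4 := by
      intro j hj
      have := Nat.find_min hex (hj0d ▸ hj)
      push Not at this
      exact this
    have hP0 : ∀ w ∈ cthickening (2 * δ) K1, ‖(F^[n k])^[0] w - w‖ ≤ δ / 4 := by
      intro w _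
      rw [Function.iterate_zero, id, sub_self, norm_zero]
      linarith
    have hP1 : ∀ w ∈ cthickening (2 * δ) K1, ‖(F^[n k])^[1] w - w‖ ≤ δ / 4 := by
      intro w hw
      have h1 := hk1 w (cthickening_mono (by linarith) K1 hw)
      rw [Function.iterate_one]
      linarith
    have hj02 : 2 ≤ j0 := by
      by_contra hcon
      have h1 : j0 = 0 ∨ j0 = 1 := by omega
      rcases h1 with h1 | h1
      · rw [h1] at hj0
        exact hj0 hP0
      · rw [h1] at hj0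
        exact hj0 hP1
    push Not at hj0
    obtain ⟨w, hw, hw2⟩ := hj0
    refine ⟨j0 - 1, w, by omega, hw, fun _ => ⟨fun j hj => hlt j (by omega), ?_⟩⟩
    have h1 := hlt (j0 - 1) (by omega) w hw
    have h2 : (F^[n k])^[j0 - 1] w ∈ cthickening (3 * δ) K1 := by
      have h3 : (F^[n k])^[j0 - 1] w ∈ cthickening δ (cthickening (2 * δ) K1) := by
        refine mem_cthickening_of_dist_le _ w δ _ hw ?_
        rw [dist_eq_norm]
        linarith
      have h4 := cthickening_cthickening_subset (by linarith : 0 ≤ δ)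
        (by linarith : 0 ≤ 2 * δ) K1 h3
      have e : δ + 2 * δ = 3 * δ := by ring
      rwa [e] at h4
    have h3 := hk1 _ h2
    have h4 : (F^[n k])^[j0] w = F^[n k] ((F^[n k])^[j0 - 1] w) := by
      rw [← Function.iterate_succ_apply' (F^[n k]) (j0 - 1) w]
      congr 2
      omega
    rw [h4] at hw2
    have h5 : ‖F^[n k] ((F^[n k])^[j0 - 1] w) - w‖ ≤
        ‖F^[n k] ((F^[n k])^[j0 - 1] w) - (F^[n k])^[j0 - 1] w‖ +
        ‖(F^[n k])^[j0 - 1] w - w‖ := by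
      have e : F^[n k] ((F^[n k])^[j0 - 1] w) - w =
        (F^[n k] ((F^[n k])^[j0 - 1] w) - (F^[n k])^[j0 - 1] w) +
        ((F^[n k])^[j0 - 1] w - w) := by ring
      conv_lhs => rw [e]
      exact norm_add_le _ _
    linarith
  choose J w hJ1 hwK hJw2 using hJw
  -- the claim
  have hclaim : ∃ c : ℝ, 0 < c ∧ ∀ᶠ k in atTop, c ≤ ‖(F^[n k])^[J k] z0 - z0‖ := by
    by_contra hcon
    push Not at hcon
    have hfr : ∀ i : ℕ, ∃ᶠ k in atTop, k0 ≤ k ∧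
        ‖(F^[n k])^[J k] z0 - z0‖ < 1 / ((i : ℝ) + 1) := by
      intro i
      have h1 : ∃ᶠ k in atTop, ‖(F^[n k])^[J k] z0 - z0‖ < 1 / ((i : ℝ) + 1) :=
        hcon (1 / ((i : ℝ) + 1)) (by positivity)
      exact (h1.and_eventually (eventually_ge_atTop k0)).mono fun k hk => ⟨hk.2, hk.1⟩
    obtain ⟨τ, hτ, hτ2⟩ := extraction_forall_of_frequently hfr
    have hit : ∀ k, (F^[n k])^[J k] = F^[n k * J k] := fun k => (Function.iterate_mul F _ _).symm
    have hm : Tendsto (fun i => n (τ i) * J (τ i)) atTop atTop := by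
      refine tendsto_atTop_mono (fun i => ?_) (h.tn.comp hτ.tendsto_atTop)
      exact Nat.le_mul_of_pos_right _ (hJ1 (τ i))
    have hl : Tendsto (fun i => F^[n (τ i) * J (τ i)] z0) atTop (𝓝 z0) := by
      rw [tendsto_iff_norm_sub_tendsto_zero]
      refine squeeze_zero (fun _ => norm_nonneg _) (fun i => ?_)
        (tendsto_one_div_add_atTop_nhds_zero_nat)
      rw [← hit]
      exact (hτ2 i).2.le
    obtain ⟨σ, g, hσ, hg, hgj, hgz⟩ := lim_cpt0 h hm hz0 tendsto_const_nhds hz0 hl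
    have hgid := lim_fix h hg hz0 hgz
    obtain ⟨a, ha, φ, hφ, hφa⟩ := hK'c.tendsto_subseq (fun i => hwK (τ (σ i)))
    have h1 : Tendsto (fun i => F^[n (τ (σ (φ i))) * J (τ (σ (φ i)))] (w (τ (σ (φ i))))) atTop
        (𝓝 (g a)) := jc_mv hgj (hK'U ha) hφ.tendsto_atTop hφa
    rw [hgid a (hK'U ha)] at h1
    have h2 : Tendsto (fun i => ‖F^[n (τ (σ (φ i))) * J (τ (σ (φ i)))] (w (τ (σ (φ i)))) -
        w (τ (σ (φ i)))‖) atTop (𝓝 0) := by
      have h3 := (h1.sub hφa).norm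
      rw [sub_self, norm_zero] at h3
      exact h3
    have h3 : δ / 8 ≤ 0 := by
      refine ge_of_tendsto h2 (Eventually.of_forall fun i => ?_)
      rw [← hit]
      exact ((hJw2 _ (hτ2 (σ (φ i))).1).2).le
    linarith
  obtain ⟨c, hc, hcl⟩ := hclaim
  refine ⟨5 * δ / (12 * c), ?_⟩
  filter_upwards [hcl, eventually_ge_atTop k0] with k hk1 hk2 z hz
  obtain ⟨hP, -⟩ := hJw2 k hk2
  have hzK : z ∈ K1 := by rw [hK1]; exact mem_insert_of_mem _ hz
  have h1 := (dsp_two h (k := k) (J := J k) hδ ((hball z hzK).trans hK'U)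
    (fun j hj w hw => hP j hj w (hball z hzK hw))).1
  have h2 := (dsp_two h (k := k) (J := J k) hδ ((hball z0 hz0K).trans hK'U)
    (fun j hj w hw => hP j hj w (hball z0 hz0K hw))).2
  have h3 := hP (J k) le_rfl z (hsub hzK)
  have hJp : (0 : ℝ) < J k := by exact_mod_cast hJ1 k
  obtain ⟨X, hX⟩ : ∃ X, X = ‖F^[n k] z - z‖ := ⟨_, rfl⟩
  obtain ⟨Y, hY⟩ : ∃ Y, Y = ‖F^[n k] z0 - z0‖ := ⟨_, rfl⟩
  rw [← hX] at h1 ⊢
  rw [← hY] at h2 ⊢
  have h4 : (J k : ℝ) * X ≤ δ / 3 := by linarith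
  have h5 : c ≤ 5 / 4 * ((J k : ℝ) * Y) := hk1.trans h2
  have h6 : (J k : ℝ) * (12 * c * X) ≤ (J k : ℝ) * (5 * δ * Y) := by
    calc (J k : ℝ) * (12 * c * X) = 12 * c * ((J k : ℝ) * X) := by ring
      _ ≤ 12 * c * (δ / 3) := mul_le_mul_of_nonneg_left h4 (by positivity)
      _ = 4 * δ * c := by ring
      _ ≤ 4 * δ * (5 / 4 * ((J k : ℝ) * Y)) := mul_le_mul_of_nonneg_left h5 (by positivity)
      _ = (J k : ℝ) * (5 * δ * Y) := by ring
  have h7 : 12 * c * X ≤ 5 * δ * Y := le_of_mul_le_mul_left h6 hJp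
  rw [div_mul_eq_mul_div, le_div_iff₀ (by positivity)]
  linarith

end Pool.Agent.H56.RD
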