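import Pool.Agent.H56.HR.Defs

/-!
# THEOREM RD (rotation domains in the plane): definitions

`JC F G U`: the functions `F k` converge to `G` at every point of `U`, also along moving points (for continuous limits this is locally uniform convergence).
`Dom U F n`: `F` is a holomorphic bijection of the bounded domain `U`, `F^[n k] → id`, no periodic points.
`Lim U F g`: `g` is a limit of iterates of `F` and maps `U` to `U`. `Vec U F n X e`: `(F^[n k] z - z) / e k → X z`, `X` has no zeros and is invariant under the limit maps.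
`Sol X U D Φ`: `Φ : D → U` solves `Φ' = X (Φ)` (complex time). `Str I`: the horizontal strip over `I`. `MaxS`: the solution `Φ` on the maximal strip.
`Per`: `Φ` on the maximal strip with its period `T` and the rotation number `t0 / T` of `F`.
-/

set_option autoImplicit false

open Filter Topology Metric Set

namespace Pool.Agent.H56.RD

/-- continuous (locally uniform) convergence on `U` -/
def JC (F : ℕ → ℂ → ℂ) (G : ℂ → ℂ) (U : Set ℂ) : Prop :=
  ∀ z ∈ U, Tendsto (fun w : ℕ × ℂ => F w.1 w.2) (atTop ×ˢ 𝓝 z) (𝓝 (G z))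

/-- the dynamics on the domain -/
structure Dom (U : Set ℂ) (F : ℂ → ℂ) (n : ℕ → ℕ) : Prop where
  op : IsOpen U
  pc : IsPreconnected U
  ne : U.Nonempty
  bd : Bornology.IsBounded U
  df : DifferentiableOn ℂ F U
  bj : BijOn F U U
  tn : Tendsto n atTop atTop
  id : JC (fun k => F^[n k]) (fun z => z) U
  np : ∀ m : ℕ, 0 < m → ∀ z ∈ U, F^[m] z ≠ z

/-- limit maps of the iterates -/
def Lim (U : Set ℂ) (F g : ℂ → ℂ) : Prop :=
  MapsTo g U U ∧ ∃ m : ℕ → ℕ, Tendsto m atTop atTop ∧ JC (fun k => F^[m k]) g U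

/-- the vector field of the limit maps -/
structure Vec (U : Set ℂ) (F : ℂ → ℂ) (n : ℕ → ℕ) (X : ℂ → ℂ) (e : ℕ → ℝ) : Prop where
  dom : Dom U F n
  e0 : ∀ k, 0 < e k
  et : Tendsto e atTop (𝓝 0)
  df : DifferentiableOn ℂ X U
  nz : ∀ z ∈ U, X z ≠ 0
  lim : JC (fun k z => (F^[n k] z - z) / (e k : ℂ)) X U
  eqv : ∀ h, Lim U F h → ∀ z ∈ U, X (h z) = deriv h z * X z

/-- solutions of the differential equation -/
structure Sol (X : ℂ → ℂ) (U D : Set ℂ) (Φ : ℂ → ℂ) : Prop where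
  maps : MapsTo Φ D U
  der : ∀ ζ ∈ D, HasDerivAt Φ (X (Φ ζ)) ζ

/-- the strip over `I` -/
def Str (I : Set ℝ) : Set ℂ := {ζ | ζ.im ∈ I}

/-- the solution on the maximal strip -/
structure MaxS (X : ℂ → ℂ) (U : Set ℂ) (z0 : ℂ) (I : Set ℝ) (Φ : ℂ → ℂ) : Prop where
  op : IsOpen I
  oc : I.OrdConnected
  zero : (0 : ℝ) ∈ I
  sol : Sol X U (Str I) Φ
  init : Φ 0 = z0
  max : ∀ (J : Set ℝ) (Ψ : ℂ → ℂ) (ζ1 : ℂ), IsOpen J → J.OrdConnected → ζ1.im ∈ I → ζ1.im ∈ J →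
    Sol X U (Str J) Ψ → Ψ ζ1 = Φ ζ1 → J ⊆ I

/-- the uniformization of the domain by a strip -/
structure Per (U : Set ℂ) (F : ℂ → ℂ) (I : Set ℝ) (Φ : ℂ → ℂ) (T t0 : ℝ) : Prop where
  op : IsOpen I
  oc : I.OrdConnected
  zero : (0 : ℝ) ∈ I
  df : DifferentiableOn ℂ Φ (Str I)
  maps : MapsTo Φ (Str I) U
  sur : SurjOn Φ (Str I) U
  T0 : 0 < T
  per : ∀ ζ1 ∈ Str I, ∀ ζ2 ∈ Str I, (Φ ζ1 = Φ ζ2 ↔ ∃ m : ℤ, ζ2 = ζ1 + (m : ℂ) * (T : ℂ))
  tr : ∀ ζ ∈ Str I, F (Φ ζ) = Φ (ζ + (t0 : ℂ))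
  irr : ∀ m : ℕ, 0 < m → ∀ j : ℤ, (m : ℝ) * t0 ≠ (j : ℝ) * T

/-- a linearizable puncture of `U` (excluded by hypothesis) -/
def Punct (U : Set ℂ) (F : ℂ → ℂ) : Prop :=
  ∃ (l : ℂ) (ρ : ℝ) (g : ℂ → ℂ), 0 < ρ ∧ ‖l‖ = 1 ∧ DifferentiableOn ℂ g (ball 0 ρ) ∧
    deriv g 0 ≠ 0 ∧ ∀ w ∈ ball (0 : ℂ) ρ, w ≠ 0 → g w ∈ U ∧ F (g w) = g (l * w)

section JC

variable {F F' : ℕ → ℂ → ℂ} {G G' : ℂ → ℂ} {U V : Set ℂ}

theorem jc_mono (h : JC F G U) (hV : V ⊆ U) : JC F G V := fun z hz => h z (hV hz)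

/-- convergence along moving points -/
theorem jc_mv (h : JC F G U) {z : ℂ} (hz : z ∈ U) {σ : ℕ → ℕ} (hσ : Tendsto σ atTop atTop)
    {u : ℕ → ℂ} (hu : Tendsto u atTop (𝓝 z)) : Tendsto (fun k => F (σ k) (u k)) atTop (𝓝 (G z)) :=
  (h z hz).comp (hσ.prodMk hu)

theorem jc_pt (h : JC F G U) {z : ℂ} (hz : z ∈ U) : Tendsto (fun k => F k z) atTop (𝓝 (G z)) :=
  jc_mv h hz tendsto_id tendsto_const_nhds

theorem jc_sub (h : JC F G U) {σ : ℕ → ℕ} (hσ : Tendsto σ atTop atTop) :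
    JC (fun k => F (σ k)) G U := by
  intro z hz
  exact (h z hz).comp ((hσ.comp tendsto_fst).prodMk tendsto_snd)

theorem jc_comp (h : JC F G U) (h' : JC F' G' V) (hm : MapsTo G' V U) :
    JC (fun k z => F k (F' k z)) (fun z => G (G' z)) V := by
  intro z hz
  exact (h (G' z) (hm hz)).comp (tendsto_fst.prodMk (h' z hz))

theorem jc_congr (h : JC F G U) (hU : IsOpen U) (h1 : ∀ k, ∀ z ∈ U, F' k z = F k z)
    (h2 : ∀ z ∈ U, G' z = G z) : JC F' G' U := by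
  intro z hz
  rw [h2 z hz]
  refine (h z hz).congr' ?_
  have h3 : ∀ᶠ w in 𝓝 z, w ∈ U := hU.mem_nhds hz
  filter_upwards [h3.prod_inr (atTop : Filter ℕ)] with w hw
  exact (h1 w.1 w.2 hw).symm

/-- constant sequences -/
theorem jc_const (hU : IsOpen U) (h : ContinuousOn G U) : JC (fun _ => G) G U := by
  intro z hz
  exact (h.continuousAt (hU.mem_nhds hz)).tendsto.comp tendsto_snd

/-- the limit is continuous -/
theorem jc_cont (hU : IsOpen U) (h : JC F G U) : ContinuousOn G U := by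
  intro z hz
  refine ContinuousAt.continuousWithinAt ?_
  rw [ContinuousAt, Metric.tendsto_nhds]
  intro ε hε
  have h1 := (Metric.tendsto_nhds.1 (h z hz)) (ε / 2) (by linarith)
  obtain ⟨pa, hpa, pb, hpb, hab⟩ := eventually_prod_iff.1 h1
  filter_upwards [hpb, hU.mem_nhds hz] with y hy hyU
  have h2 : ∀ᶠ k in atTop, dist (F k y) (G z) ≤ ε / 2 := by
    filter_upwards [hpa] with k hk
    exact (hab hk hy).le
  have h3 := le_of_tendsto ((jc_pt h hyU).dist tendsto_const_nhds) h2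
  linarith

end JC

section Dom

variable {U : Set ℂ} {F : ℂ → ℂ} {n : ℕ → ℕ}

theorem Dom.itm (h : Dom U F n) (m : ℕ) : MapsTo F^[m] U U := h.bj.mapsTo.iterate m

theorem Dom.itd (h : Dom U F n) (m : ℕ) : DifferentiableOn ℂ F^[m] U := by
  induction m with
  | zero =>
    rw [Function.iterate_zero]
    exact differentiableOn_id
  | succ m ih =>
    rw [Function.iterate_succ]
    exact ih.comp h.df h.bj.mapsTo

theorem Dom.iti (h : Dom U F n) (m : ℕ) : InjOn F^[m] U := by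
  induction m with
  | zero => exact fun x _ y _ he => he
  | succ m ih =>
    rw [Function.iterate_succ]
    exact ih.comp h.bj.injOn h.bj.mapsTo

theorem Dom.sub (h : Dom U F n) {σ : ℕ → ℕ} (hσ : Tendsto σ atTop atTop) : Dom U F (n ∘ σ) :=
  ⟨h.op, h.pc, h.ne, h.bd, h.df, h.bj, h.tn.comp hσ, jc_sub h.id hσ, h.np⟩

end Dom

end Pool.Agent.H56.RD
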