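import Pool.Agent.H56.RD.LM3
import Pool.Agent.H56.RD.DIA

/-!
# Module LM4: compactness of the limit maps

PROOF. The `g k` are holomorphic (`lim_diff`) and bounded on `U` (`h.bd`, `g k` maps `U` to `U`): `mtm`: `σ` strictly increasing, `g (σ k) → g0` (`JC`), `g0` holomorphic; `g0 z = y` (`jc_mv`). Let `g' k` be the inverse of `g k` (`lim_inv`); the `g' k : U → U` are holomorphic and bounded by `M`. `ball y (2 r) ⊆ U`. Cauchy: `‖deriv (g' k) y'‖ ≤ M / r` for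
`y' ∈ ball y r`. Chain rule for `g' k (g k w) = w`: `r / M ≤ ‖deriv (g k) (u k)‖` if `u k ∈ U`, `g k (u k) ∈ ball y r` (large `k`), and `deriv (g (σ k)) (u (σ k)) → deriv g0 z` (`jc_deriv`, `jc_mv`). So `deriv g0 z ≠ 0` and `g0` maps `U` to `U` (`hur_map`).
`g0` is a limit of iterates: `dia` with `H j = F^[j]`: let `K ⊆ U` be compact, `ε > 0`, `N`. Choose `k` with `‖g (σ k) z - g0 z‖ < ε / 2` on `K` (`jc_unif`) and, `g (σ k)` being a limit of iterates `F^[m i]`, `i` with `m i ≥ N` and `‖F^[m i] z - g (σ k) z‖ < ε / 2` on `K` (`jc_unif`).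
-/

set_option autoImplicit false

open Filter Topology Metric Set

namespace Pool.Agent.H56.RD

private theorem lm4_low {U : Set ℂ} {F : ℂ → ℂ} {n : ℕ → ℕ} (h : Dom U F n) {M : ℝ}
    (hM : U ⊆ ball 0 M) {y : ℂ} {r : ℝ} (hr : 0 < r) (hb : ball y (2 * r) ⊆ U) {g : ℂ → ℂ}
    (hg : Lim U F g) {z : ℂ} (hz : z ∈ U) (hzy : g z ∈ ball y r) :
    r ≤ M * ‖deriv g z‖ := by
  obtain ⟨H, hH, hHg, -⟩ := lim_inv h hg
  have i1 := lim_diff h hH
  have i2 := hH.1
  have hcb : closedBall (g z) r ⊆ U := by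
    refine Subset.trans ?_ hb
    intro w hw
    rw [mem_ball]
    rw [mem_closedBall] at hw
    rw [mem_ball] at hzy
    have := dist_triangle w (g z) y
    linarith
  have hd1 : ‖deriv H (g z)‖ ≤ M / r := by
    refine Complex.norm_deriv_le_of_forall_mem_sphere_norm_le hr
      (DifferentiableOn.diffContOnCl_ball (i1.mono hcb) subset_rfl) fun w hw => ?_
    have h1 := hM (i2 (hcb (sphere_subset_closedBall hw)))
    rw [mem_ball_zero_iff] at h1
    exact h1.le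
  have e1 : HasDerivAt g (deriv g z) z :=
    ((lim_diff h hg).differentiableAt (h.op.mem_nhds hz)).hasDerivAt
  have e2 : HasDerivAt H (deriv H (g z)) (g z) :=
    (i1.differentiableAt (h.op.mem_nhds (hg.1 hz))).hasDerivAt
  have e3 := e2.comp z e1
  have e4 : HasDerivAt (H ∘ g) 1 z := by
    refine (hasDerivAt_id z).congr_of_eventuallyEq ?_
    filter_upwards [h.op.mem_nhds hz] with w hw
    exact hHg w hw
  have e5 := congrArg norm (e3.unique e4)
  rw [norm_mul, norm_one] at e5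
  have e6 : 1 ≤ M / r * ‖deriv g z‖ := by
    rw [← e5]
    exact mul_le_mul_of_nonneg_right hd1 (norm_nonneg _)
  calc r = r * 1 := (mul_one r).symm
    _ ≤ r * (M / r * ‖deriv g z‖) := mul_le_mul_of_nonneg_left e6 hr.le
    _ = M * ‖deriv g z‖ := by
      field_simp

theorem lim_cpt {U : Set ℂ} {F : ℂ → ℂ} {n : ℕ → ℕ} (h : Dom U F n) {g : ℕ → ℂ → ℂ}
    (hg : ∀ k, Lim U F (g k)) {u : ℕ → ℂ} {z y : ℂ} (hz : z ∈ U) (hu : Tendsto u atTop (𝓝 z))
    (hy : y ∈ U) (hl : Tendsto (fun k => g k (u k)) atTop (𝓝 y)) :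
    ∃ (σ : ℕ → ℕ) (g0 : ℂ → ℂ), StrictMono σ ∧ Lim U F g0 ∧ JC (fun k => g (σ k)) g0 U ∧
      g0 z = y := by
  obtain ⟨M, hM0, hM⟩ := h.bd.subset_ball_lt 0 0
  obtain ⟨r, hr, hb⟩ : ∃ r : ℝ, 0 < r ∧ ball y (2 * r) ⊆ U := by
    obtain ⟨s, hs, hb⟩ := Metric.isOpen_iff.1 h.op y hy
    refine ⟨s / 2, half_pos hs, ?_⟩
    rw [mul_div_cancel₀ s two_ne_zero]
    exact hb
  have hgd : ∀ k, DifferentiableOn ℂ (g k) U := fun k => lim_diff h (hg k)
  obtain ⟨σ, g0, hσ, hg0, hgj⟩ := mtm (F := g) h.op hgd (by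
    intro w hw
    obtain ⟨s, hs, hsb⟩ := Metric.isOpen_iff.1 h.op w hw
    refine ⟨s, hs, M, Eventually.of_forall fun k w' hw' => ?_⟩
    have h1 := hM ((hg k).1 (hsb hw'))
    rw [mem_ball_zero_iff] at h1
    exact h1.le)
  have hσt := hσ.tendsto_atTop
  have huσ : Tendsto (fun k => u (σ k)) atTop (𝓝 z) := hu.comp hσt
  have hlσ : Tendsto (fun k => g (σ k) (u (σ k))) atTop (𝓝 y) := hl.comp hσt
  have hgz : g0 z = y := tendsto_nhds_unique (jc_mv hgj hz tendsto_id huσ) hlσ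
  have hder := jc_mv (jc_deriv h.op (fun k => hgd (σ k)) hgj) hz tendsto_id huσ
  have hlow : r / M ≤ ‖deriv g0 z‖ := by
    refine ge_of_tendsto hder.norm ?_
    filter_upwards [huσ.eventually (h.op.mem_nhds hz), hlσ.eventually (ball_mem_nhds y hr)]
      with k hk1 hk2
    rw [div_le_iff₀ hM0, mul_comm]
    exact lm4_low h hM hr hb (hg (σ k)) hk1 hk2
  have hgne : deriv g0 z ≠ 0 := by
    rw [← norm_pos_iff]
    exact lt_of_lt_of_le (div_pos hr hM0) hlow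
  have hgm : MapsTo g0 U U := hur_map h.op h.pc (fun k => hgd (σ k))
    (fun k => (hg (σ k)).1) hgj ⟨z, hz, hgne⟩
  refine ⟨σ, g0, hσ, ⟨hgm, ?_⟩, hgj, hgz⟩
  refine dia (H := fun j => F^[j]) h.op hg0.continuousOn fun K hK hKc ε hε N => ?_
  obtain ⟨k, hk⟩ := (jc_unif h.op hgj hKc hK (half_pos hε)).exists
  obtain ⟨-, m, hm, hmj⟩ := hg (σ k)
  obtain ⟨i, hi1, hi2⟩ :=
    ((jc_unif h.op hmj hKc hK (half_pos hε)).and (hm.eventually_ge_atTop N)).exists
  refine ⟨m i, hi2, fun w hw => ?_⟩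
  have h1 := hi1 w hw
  have h2 := hk w hw
  calc ‖F^[m i] w - g0 w‖ = ‖(F^[m i] w - g (σ k) w) + (g (σ k) w - g0 w)‖ := by
        rw [sub_add_sub_cancel]
    _ ≤ ‖F^[m i] w - g (σ k) w‖ + ‖g (σ k) w - g0 w‖ := norm_add_le _ _
    _ < ε := by linarith

end Pool.Agent.H56.RD
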