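import Pool.Agent.H56.RD.SOU
import Pool.Agent.H56.RD.LM4

/-!
# Module FLW: the real flow consists of limit maps

PROOF. If `t = 0` take `h = id` (`lim_id`). Let `t > 0`, `G k = F^[n k]`, `j k = ⌊t / e k⌋₊`: `j k * e k → t` (`e k → 0`), `j k → ∞`, so `j k ≥ 1` for large `k`.
CLAIM: for every `δ > t` and every solution `Φ` on `ball 0 δ`: `(G k)^[j k] (Φ 0) → Φ t`. Let `z = Φ 0 ∈ U`. `Φ` is analytic at `0` with derivative `X z ≠ 0`; let `θ` be its local inverse at `z` (`HasStrictDerivAt.localInverse` / `to_localInverse`): `θ z = 0`, `Φ (θ w) = w` for `w` near `z`, derivative `1 / X z` at `z`. `G k z → z` (`v.dom.id`), `(G k z - z) / e k → X z`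
(`v.lim`). Put `c k = θ (G k z)`: `Φ (c k) = G k z` for large `k` and `c k / e k → 1` (derivative of `θ` at `z`, along `G k z = z + e k * (X z + o(1))`). So `(j k : ℂ) * c k → t`, and for large `k` `‖(i : ℂ) * c k‖ < δ` for all `i ≤ j k`.
`(G k)^[i] z = Φ (i * c k)` for `i ≤ j k`: induction on `i`: `G k ∘ Φ` is a solution on `ball 0 δ` (`sol_lim`, `lim_it`) and `ζ ↦ Φ (ζ + c k)` is a solution on `{ζ | ζ + c k ∈ ball 0 δ}` (`sol_shift`); they agree at `ζ = 0`, so on the lens `{ζ | ζ ∈ ball 0 δ ∧ ζ + c k ∈ ball 0 δ}` (`lens_pc`, `lens_op`, `sol_uniq`), which contains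
`i * c k`, `i < j k`. `i = j k`: `(G k)^[j k] z = Φ (j k * c k) → Φ t` (`Φ` is continuous at `t`).
Apply the claim to `E`: `F^[n k * j k] (E 0) → E t ∈ U` (`Function.iterate_mul`), `n k * j k → ∞`. `lim_cpt0`: `σ`, `h ∈ Lim`, `F^[n (σ k) * j (σ k)] → h` (`JC`). For every `δ`, `Φ` as in the statement: `h (Φ 0) = lim F^[n (σ k) * j (σ k)] (Φ 0) = Φ t` by the claim.
-/

set_option autoImplicit false

open Filter Topology Metric Set

namespace Pool.Agent.H56.RD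

private theorem flw_it {U : Set ℂ} {F : ℂ → ℂ} {n : ℕ → ℕ} {X : ℂ → ℂ} {e : ℕ → ℝ}
    (v : Vec U F n X e) {δ : ℝ} {Φ : ℂ → ℂ} (hδ : 0 < δ) (hΦ : Sol X U (ball 0 δ) Φ) {c : ℂ}
    {g : ℂ → ℂ} (hg : Lim U F g) (hc : c ∈ ball (0 : ℂ) δ) (h0 : Φ c = g (Φ 0)) (J : ℕ)
    (hJ : ∀ i ≤ J, (i : ℂ) * c ∈ ball (0 : ℂ) δ) :
    ∀ i ≤ J, g^[i] (Φ 0) = Φ ((i : ℂ) * c) := by
  have key : ∀ ζ ∈ {ζ : ℂ | ζ ∈ ball (0 : ℂ) δ ∧ ζ + c ∈ ball (0 : ℂ) δ},
      g (Φ ζ) = Φ (ζ + c) := by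
    refine sol_uniq v.fld (lens_op δ c) (lens_pc δ c) (ζ0 := 0)
      (sol_mono (sol_lim v hΦ hg) fun ζ hζ => hζ.1)
      (sol_mono (sol_shift hΦ c) fun ζ hζ => hζ.2) ⟨mem_ball_self hδ, ?_⟩ ?_
    · rw [zero_add]
      exact hc
    · show g (Φ 0) = Φ (0 + c)
      rw [zero_add, h0]
  intro i
  induction i with
  | zero =>
    intro _
    rw [Function.iterate_zero, Nat.cast_zero, zero_mul]
    rfl
  | succ i ih =>
    intro hi
    rw [Function.iterate_succ_apply', ih (by omega)]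
    have e1 : ((i + 1 : ℕ) : ℂ) * c = (i : ℂ) * c + c := by
      push_cast
      ring
    rw [e1]
    refine key _ ⟨hJ i (by omega), ?_⟩
    rw [← e1]
    exact hJ (i + 1) hi

private theorem flw_claim {U : Set ℂ} {F : ℂ → ℂ} {n : ℕ → ℕ} {X : ℂ → ℂ} {e : ℕ → ℝ}
    (v : Vec U F n X e) {t δ : ℝ} (ht : 0 ≤ t) {j : ℕ → ℕ}
    (hj : Tendsto (fun k => (j k : ℝ) * e k) atTop (𝓝 t)) {Φ : ℂ → ℂ} (htδ : t < δ)
    (hΦ : Sol X U (ball 0 δ) Φ) :
    Tendsto (fun k => F^[n k * j k] (Φ 0)) atTop (𝓝 (Φ (t : ℂ))) := by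
  have hδ : 0 < δ := lt_of_le_of_lt ht htδ
  have h0m : (0 : ℂ) ∈ ball (0 : ℂ) δ := mem_ball_self hδ
  have hzU : Φ 0 ∈ U := hΦ.maps h0m
  have hXz : X (Φ 0) ≠ 0 := v.nz _ hzU
  have hs : HasStrictDerivAt Φ (X (Φ 0)) 0 := by
    have h3 : AnalyticAt ℂ Φ 0 := (sol_diff hΦ).analyticAt (isOpen_ball.mem_nhds h0m)
    have h4 := h3.hasStrictDerivAt
    rwa [(hΦ.der 0 h0m).deriv] at h4
  obtain ⟨θ, hθ1, hθ2, hθ3⟩ : ∃ θ : ℂ → ℂ, HasDerivAt θ (X (Φ 0))⁻¹ (Φ 0) ∧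
      (∀ᶠ w in 𝓝 (Φ 0), Φ (θ w) = w) ∧ θ (Φ 0) = 0 := by
    refine ⟨(hs.hasStrictFDerivAt_equiv hXz).localInverse _ _ _, ?_, ?_, ?_⟩
    · exact (hs.to_localInverse hXz).hasDerivAt
    · exact (hs.hasStrictFDerivAt_equiv hXz).eventually_right_inverse
    · exact (hs.hasStrictFDerivAt_equiv hXz).localInverse_apply_image
  obtain ⟨w, hw⟩ : ∃ w : ℕ → ℂ, w = fun k => F^[n k] (Φ 0) := ⟨_, rfl⟩
  have hwt : Tendsto w atTop (𝓝 (Φ 0)) := by
    rw [hw]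
    exact jc_pt v.dom.id hzU
  have hwv : Tendsto (fun k => (w k - Φ 0) / (e k : ℂ)) atTop (𝓝 (X (Φ 0))) := by
    rw [hw]
    exact jc_pt v.lim hzU
  have hek : ∀ k, (e k : ℂ) ≠ 0 := fun k => by
    rw [Ne, Complex.ofReal_eq_zero]
    exact (v.e0 k).ne'
  have hθw : Tendsto (fun k => θ (w k)) atTop (𝓝 0) := by
    have := hθ1.continuousAt.tendsto.comp hwt
    rwa [hθ3] at this
  have hds : Tendsto (fun k => dslope θ (Φ 0) (w k)) atTop (𝓝 (X (Φ 0))⁻¹) := by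
    have h1 : ContinuousAt (dslope θ (Φ 0)) (Φ 0) :=
      continuousAt_dslope_same.2 hθ1.differentiableAt
    have h2 := h1.tendsto.comp hwt
    rw [dslope_same, hθ1.deriv] at h2
    exact h2
  have hce : Tendsto (fun k => θ (w k) / (e k : ℂ)) atTop (𝓝 1) := by
    have h1 := hwv.mul hds
    rw [mul_inv_cancel₀ hXz] at h1
    refine h1.congr fun k => ?_
    have h2 := sub_smul_dslope θ (Φ 0) (w k)
    rw [hθ3, sub_zero, smul_eq_mul] at h2
    rw [← h2]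
    ring
  have hjc : Tendsto (fun k => (j k : ℂ) * θ (w k)) atTop (𝓝 (t : ℂ)) := by
    have h1 : Tendsto (fun k => (((j k : ℝ) * e k : ℝ) : ℂ)) atTop (𝓝 (t : ℂ)) :=
      (Complex.continuous_ofReal.tendsto t).comp hj
    have h2 := h1.mul hce
    rw [mul_one] at h2
    refine h2.congr fun k => ?_
    rw [Complex.ofReal_mul, Complex.ofReal_natCast]
    have := hek k
    field_simp
  have hjn : ∀ᶠ k in atTop, ‖(j k : ℂ) * θ (w k)‖ < δ := by
    have h1 := hjc.norm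
    rw [Complex.norm_real, Real.norm_of_nonneg ht] at h1
    exact h1.eventually_lt_const htδ
  have hfin : ∀ᶠ k in atTop, Φ ((j k : ℂ) * θ (w k)) = F^[n k * j k] (Φ 0) := by
    filter_upwards [hjn, hwt.eventually hθ2, hθw.eventually (ball_mem_nhds 0 hδ)] with k h1 h2 h3
    rw [Function.iterate_mul]
    refine (flw_it v hδ hΦ (lim_it v.dom (n k)) h3 ?_ (j k) ?_ (j k) le_rfl).symm
    · rw [h2, hw]
    · intro i hi
      rw [mem_ball_zero_iff]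
      refine lt_of_le_of_lt ?_ h1
      rw [norm_mul, norm_mul, Complex.norm_natCast, Complex.norm_natCast]
      exact mul_le_mul_of_nonneg_right (by exact_mod_cast hi) (norm_nonneg _)
  have htm : (t : ℂ) ∈ ball (0 : ℂ) δ := by
    rw [mem_ball_zero_iff, Complex.norm_real, Real.norm_of_nonneg ht]
    exact htδ
  exact ((hΦ.der _ htm).continuousAt.tendsto.comp hjc).congr' hfin

theorem flw {U : Set ℂ} {F : ℂ → ℂ} {n : ℕ → ℕ} {X : ℂ → ℂ} {e : ℕ → ℝ} (v : Vec U F n X e)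
    {t δ0 : ℝ} (ht : 0 ≤ t) (htδ : t < δ0) {E : ℂ → ℂ} (hE : Sol X U (ball 0 δ0) E) :
    ∃ h, Lim U F h ∧ ∀ (δ : ℝ) (Φ : ℂ → ℂ), t < δ → Sol X U (ball 0 δ) Φ →
      h (Φ 0) = Φ (t : ℂ) := by
  rcases ht.eq_or_lt with rfl | htp
  · refine ⟨fun z => z, lim_id v.dom, fun δ Φ _ _ => ?_⟩
    rw [Complex.ofReal_zero]
  have hδ0 : 0 < δ0 := lt_of_le_of_lt ht htδ
  obtain ⟨j, hj⟩ : ∃ j : ℕ → ℕ, j = fun k => ⌊t / e k⌋₊ := ⟨_, rfl⟩
  have hj1 : Tendsto (fun k => (j k : ℝ) * e k) atTop (𝓝 t) := by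
    have h1 : Tendsto (fun k => t - e k) atTop (𝓝 t) := by
      have := (tendsto_const_nhds (x := t)).sub v.et
      rwa [sub_zero] at this
    refine tendsto_of_tendsto_of_tendsto_of_le_of_le h1 tendsto_const_nhds (fun k => ?_) fun k => ?_
    · show t - e k ≤ (j k : ℝ) * e k
      rw [hj]
      have h2 := Nat.lt_floor_add_one (t / e k)
      rw [div_lt_iff₀ (v.e0 k)] at h2
      show t - e k ≤ (⌊t / e k⌋₊ : ℝ) * e k
      linarith
    · show (j k : ℝ) * e k ≤ t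
      rw [hj]
      have h2 := Nat.floor_le (div_nonneg ht (v.e0 k).le)
      exact (le_div_iff₀ (v.e0 k)).1 h2
  have hj2 : ∀ᶠ k in atTop, 1 ≤ j k := by
    filter_upwards [v.et.eventually_lt_const htp] with k hk
    rw [hj]
    refine Nat.le_floor ?_
    rw [Nat.cast_one, one_le_div (v.e0 k)]
    exact hk.le
  have hmt : Tendsto (fun k => n k * j k) atTop atTop := by
    refine tendsto_atTop_mono' atTop ?_ v.dom.tn
    filter_upwards [hj2] with k hk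
    exact Nat.le_mul_of_pos_right _ hk
  have h0m : (0 : ℂ) ∈ ball (0 : ℂ) δ0 := mem_ball_self hδ0
  have htm : (t : ℂ) ∈ ball (0 : ℂ) δ0 := by
    rw [mem_ball_zero_iff, Complex.norm_real, Real.norm_of_nonneg ht]
    exact htδ
  obtain ⟨σ, h, hσ, hh, hhj, -⟩ := lim_cpt0 v.dom hmt (u := fun _ => E 0) (hE.maps h0m)
    tendsto_const_nhds (hE.maps htm) (flw_claim v ht hj1 htδ hE)
  refine ⟨h, hh, fun δ Φ hδ hΦ => ?_⟩
  have h1 : Tendsto (fun k => F^[n (σ k) * j (σ k)] (Φ 0)) atTop (𝓝 (h (Φ 0))) :=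
    jc_pt hhj (hΦ.maps (mem_ball_self (lt_of_le_of_lt ht hδ)))
  have h2 := (flw_claim v ht hj1 hδ hΦ).comp hσ.tendsto_atTop
  exact tendsto_nhds_unique h1 h2

end Pool.Agent.H56.RD
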