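import Pool.Agent.H56.RD.FLW
import Pool.Agent.H56.RD.LM4

/-!
# Module LGP: the local group of the times

PROOF. `lg_tr`: `g ∘ E` is a solution on `ball 0 δ` (`sol_lim`), `ζ ↦ E (ζ + c)` on `{ζ | ζ + c ∈ ball 0 δ}` (`sol_shift`); they agree at `0`, so on the lens (`lens_pc`, `lens_op`, `sol_mono`, `sol_uniq`).
`lg_pow`: induction on `i`: `g^[i + 1] (E 0) = g (g^[i] (E 0)) = g (E (i * c)) = E (i * c + c)`. (`‖i * c‖ ≤ ‖N * c‖`.)
`tim_add`: `g (E 0) = E c`, `g' (E 0) = E c'`: `g (g' (E 0)) = g (E c') = E (c' + c)` (`lg_tr`), `lim_comp`. `tim_neg`: `lg_tr` with `ζ = -c`: `g (E (-c)) = E 0`; with `g'` the inverse of `g` (`lim_inv`): `g' (E 0) = E (-c)`.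
`tim_lim`: `g k (E 0) = E (c k) → E c ∈ U` (`E` is continuous at `c`), `lim_cpt` with `u k = z = E 0`: `g0 ∈ Lim`, `g0 (E 0) = E c`. `tim_real`: `flw` for `0 ≤ t` (`Φ = E`, `δ`), `tim_neg` for `t < 0`.
`tim_near`: `E '' ball 0 r` is a neighbourhood of `E 0` (`sol_img`; `0 ∈ ball 0 δ`).
-/

set_option autoImplicit false

open Filter Topology Metric Set

namespace Pool.Agent.H56.RD

variable {U : Set ℂ} {F : ℂ → ℂ} {n : ℕ → ℕ} {X : ℂ → ℂ} {e : ℕ → ℝ} {E : ℂ → ℂ} {δ : ℝ}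

theorem lg_tr (v : Vec U F n X e) (hδ : 0 < δ) (hE : Sol X U (ball 0 δ) E) {g : ℂ → ℂ}
    (hg : Lim U F g) {c : ℂ} (hc : c ∈ ball (0 : ℂ) δ) (h : g (E 0) = E c) {ζ : ℂ}
    (hζ : ζ ∈ ball (0 : ℂ) δ) (hζc : ζ + c ∈ ball (0 : ℂ) δ) : g (E ζ) = E (ζ + c) := by
  have h1 : Sol X U {ζ : ℂ | ζ ∈ ball (0 : ℂ) δ ∧ ζ + c ∈ ball (0 : ℂ) δ} (fun ζ => g (E ζ)) :=
    sol_mono (sol_lim v hE hg) fun w hw => hw.1
  have h2 : Sol X U {ζ : ℂ | ζ ∈ ball (0 : ℂ) δ ∧ ζ + c ∈ ball (0 : ℂ) δ}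
      (fun ζ => E (ζ + c)) :=
    sol_mono (sol_shift hE c) fun w hw => hw.2
  have h0 : (0 : ℂ) ∈ {ζ : ℂ | ζ ∈ ball (0 : ℂ) δ ∧ ζ + c ∈ ball (0 : ℂ) δ} := by
    refine ⟨mem_ball_self hδ, ?_⟩
    rw [zero_add]
    exact hc
  have h3 : g (E 0) = E (0 + c) := by
    rw [zero_add]
    exact h
  exact sol_uniq v.fld (lens_op δ c) (lens_pc δ c) h1 h2 h0 h3 ζ ⟨hζ, hζc⟩

theorem lg_pow (v : Vec U F n X e) (hδ : 0 < δ) (hE : Sol X U (ball 0 δ) E) {g : ℂ → ℂ}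
    (hg : Lim U F g) {c : ℂ} {N : ℕ} (hc : (N : ℂ) * c ∈ ball (0 : ℂ) δ) (h : g (E 0) = E c) :
    ∀ i ≤ N, g^[i] (E 0) = E ((i : ℂ) * c) := by
  have hb : ∀ i : ℕ, i ≤ N → (i : ℂ) * c ∈ ball (0 : ℂ) δ := by
    intro i hi
    rw [mem_ball_zero_iff, norm_mul, Complex.norm_natCast] at hc ⊢
    have h1 : (i : ℝ) ≤ N := by exact_mod_cast hi
    exact (mul_le_mul_of_nonneg_right h1 (norm_nonneg c)).trans_lt hc
  intro i
  induction i with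
  | zero => intro _; simp
  | succ i ih =>
    intro hi
    have h1 := ih (by omega)
    have h2 : c ∈ ball (0 : ℂ) δ := by
      have h3 := hb 1 (by omega)
      rwa [Nat.cast_one, one_mul] at h3
    have h4 : (i : ℂ) * c + c = ((i + 1 : ℕ) : ℂ) * c := by
      push_cast
      ring
    rw [Function.iterate_succ_apply', h1, ← h4]
    refine lg_tr v hδ hE hg h2 h (hb i (by omega)) ?_
    rw [h4]
    exact hb (i + 1) hi

theorem tim_add (v : Vec U F n X e) (hδ : 0 < δ) (hE : Sol X U (ball 0 δ) E) {c c' : ℂ}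
    (hc : c ∈ ball (0 : ℂ) δ) (hc' : c' ∈ ball (0 : ℂ) δ) (hcc : c + c' ∈ ball (0 : ℂ) δ)
    (h : Tim U F E c) (h' : Tim U F E c') : Tim U F E (c + c') := by
  obtain ⟨g, hg, h1⟩ := h
  obtain ⟨g', hg', h1'⟩ := h'
  refine ⟨fun z => g (g' z), lim_comp v.dom hg hg', ?_⟩
  show g (g' (E 0)) = E (c + c')
  rw [h1', lg_tr v hδ hE hg hc h1 hc' (by rw [add_comm]; exact hcc), add_comm]

theorem tim_neg (v : Vec U F n X e) (hδ : 0 < δ) (hE : Sol X U (ball 0 δ) E) {c : ℂ}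
    (hc : c ∈ ball (0 : ℂ) δ) (h : Tim U F E c) : Tim U F E (-c) := by
  obtain ⟨g, hg, h1⟩ := h
  obtain ⟨g', hg', h2, -⟩ := lim_inv v.dom hg
  refine ⟨g', hg', ?_⟩
  have hc' : -c ∈ ball (0 : ℂ) δ := by
    rw [mem_ball_zero_iff] at hc ⊢
    rwa [norm_neg]
  have h3 := lg_tr v hδ hE hg hc h1 hc' (by rw [neg_add_cancel]; exact mem_ball_self hδ)
  rw [neg_add_cancel] at h3
  rw [← h3]
  exact h2 _ (hE.maps hc')

theorem tim_lim (v : Vec U F n X e) (hδ : 0 < δ) (hE : Sol X U (ball 0 δ) E) {c : ℂ}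
    (hc : c ∈ ball (0 : ℂ) δ) {u : ℕ → ℂ} (hu : Tendsto u atTop (𝓝 c))
    (h : ∀ k, Tim U F E (u k)) : Tim U F E c := by
  choose g hg h1 using h
  have hl : Tendsto (fun k => g k (E 0)) atTop (𝓝 (E c)) := by
    simp only [h1]
    exact (hE.der c hc).continuousAt.tendsto.comp hu
  obtain ⟨σ, g0, -, h2, -, h3⟩ := lim_cpt v.dom hg (hE.maps (mem_ball_self hδ))
    (u := fun _ => E 0) tendsto_const_nhds (hE.maps hc) hl
  exact ⟨g0, h2, h3⟩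

theorem tim_real (v : Vec U F n X e) (hδ : 0 < δ) (hE : Sol X U (ball 0 δ) E) {t : ℝ}
    (ht : |t| < δ) : Tim U F E (t : ℂ) := by
  have hpos : ∀ s : ℝ, 0 ≤ s → s < δ → Tim U F E (s : ℂ) := by
    intro s hs hsδ
    obtain ⟨h, h1, h2⟩ := flw v hs hsδ hE
    exact ⟨h, h1, h2 δ E hsδ hE⟩
  rcases le_or_gt 0 t with h0 | h0
  · exact hpos t h0 ((le_abs_self t).trans_lt ht)
  · have h1 := hpos (-t) (by linarith) ((neg_le_abs t).trans_lt ht)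
    have h2 : ((-t : ℝ) : ℂ) ∈ ball (0 : ℂ) δ := by
      rw [mem_ball_zero_iff, Complex.norm_real, norm_neg]
      exact ht
    have h3 := tim_neg v hδ hE h2 h1
    rwa [Complex.ofReal_neg, neg_neg] at h3

theorem tim_near (v : Vec U F n X e) (hδ : 0 < δ) (hE : Sol X U (ball 0 δ) E) {g : ℕ → ℂ → ℂ}
    (hl : Tendsto (fun k => g k (E 0)) atTop (𝓝 (E 0))) {r : ℝ} (hr : 0 < r) :
    ∀ᶠ k in atTop, ∃ c ∈ ball (0 : ℂ) r, g k (E 0) = E c := by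
  have h1 := sol_img v.fld isOpen_ball hE (mem_ball_self hδ) (ball_mem_nhds (0 : ℂ) hr)
  filter_upwards [hl h1] with k hk
  obtain ⟨c, hc, h2⟩ := hk
  exact ⟨c, hc, h2.symm⟩

end Pool.Agent.H56.RD
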