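import Pool.Agent.H56.RD.LM1

/-!
# Module LM2: limit maps commute and are determined by one value

PROOF. `g` is the limit of `F^[m k]`, `m k → ∞` (continuous convergence), `g'` of `F^[l k]`. `lim_comm_it`: `F^[m k] (F^[j] z) = F^[j] (F^[m k] z)` (`Function.iterate_add_apply`, commutativity of `+`); the left side tends to `g (F^[j] z)` (`jc_pt`, `Dom.itm`), the right side to `F^[j] (g z)` (`F^[j]` is continuous at `g z ∈ U`, `Dom.itd`). `lim_comm`: apply
`lim_comm_it` for `g` and `j = l k`: `g (F^[l k] z) = F^[l k] (g z)`; the left side tends to `g (g' z)` (`g` is continuous at `g' z ∈ U`: `lim_diff`), the right side to `g' (g z)` (`jc_pt`).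
`lim_eq`: `g (F^[n k] y) = F^[n k] (g y) = F^[n k] (g' y) = g' (F^[n k] y)` and `u k = F^[n k] y → y` (`h.id`), `u k ≠ y` for large `k` (`h.np`, `n k > 0`). So `g = g'` frequently in `𝓝[≠] y`; both are analytic on `U`: `AnalyticOnNhd.eqOn_of_preconnected_of_frequently_eq`. `lim_fix`: `g' = id`, `lim_id`.
-/

set_option autoImplicit false

open Filter Topology Metric Set

namespace Pool.Agent.H56.RD

variable {U : Set ℂ} {F g g' : ℂ → ℂ} {n : ℕ → ℕ}

theorem lim_comm_it (h : Dom U F n) (hg : Lim U F g) (j : ℕ) {z : ℂ} (hz : z ∈ U) :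
    g (F^[j] z) = F^[j] (g z) := by
  obtain ⟨hm, m, ht, hj⟩ := hg
  have h1 : Tendsto (fun k => F^[m k] (F^[j] z)) atTop (𝓝 (g (F^[j] z))) := jc_pt hj (h.itm j hz)
  have hc : ContinuousAt F^[j] (g z) :=
    ((h.itd j).differentiableAt (h.op.mem_nhds (hm hz))).continuousAt
  have h2 : Tendsto (fun k => F^[j] (F^[m k] z)) atTop (𝓝 (F^[j] (g z))) :=
    hc.tendsto.comp (jc_pt hj hz)
  have e : (fun k => F^[m k] (F^[j] z)) = fun k => F^[j] (F^[m k] z) := by
    funext k
    rw [← Function.iterate_add_apply, ← Function.iterate_add_apply, Nat.add_comm]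
  rw [e] at h1
  exact tendsto_nhds_unique h1 h2

theorem lim_comm (h : Dom U F n) (hg : Lim U F g) (hg' : Lim U F g') {z : ℂ} (hz : z ∈ U) :
    g (g' z) = g' (g z) := by
  have hd := lim_diff h hg
  have hgm := hg.1
  have h0 : ∀ j, g (F^[j] z) = F^[j] (g z) := fun j => lim_comm_it h hg j hz
  obtain ⟨hm', l, hl, hj'⟩ := hg'
  have hc : ContinuousAt g (g' z) := (hd.differentiableAt (h.op.mem_nhds (hm' hz))).continuousAt
  have h1 : Tendsto (fun k => g (F^[l k] z)) atTop (𝓝 (g (g' z))) :=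
    hc.tendsto.comp (jc_pt hj' hz)
  have h2 : Tendsto (fun k => F^[l k] (g z)) atTop (𝓝 (g' (g z))) := jc_pt hj' (hgm hz)
  have e : (fun k => g (F^[l k] z)) = fun k => F^[l k] (g z) := by
    funext k
    exact h0 (l k)
  rw [e] at h1
  exact tendsto_nhds_unique h1 h2

theorem lim_eq (h : Dom U F n) (hg : Lim U F g) (hg' : Lim U F g') {y : ℂ} (hy : y ∈ U)
    (he : g y = g' y) : ∀ z ∈ U, g z = g' z := by
  have h1 : ∀ k, g (F^[n k] y) = g' (F^[n k] y) := by
    intro k
    rw [lim_comm_it h hg _ hy, lim_comm_it h hg' _ hy, he]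
  have h2 : Tendsto (fun k => F^[n k] y) atTop (𝓝 y) := jc_pt h.id hy
  have h3 : ∀ᶠ k in atTop, F^[n k] y ∈ ({y}ᶜ : Set ℂ) := by
    filter_upwards [h.tn.eventually_gt_atTop 0] with k hk
    exact h.np _ hk y hy
  have h4 : Tendsto (fun k => F^[n k] y) atTop (𝓝[≠] y) :=
    tendsto_nhdsWithin_iff.2 ⟨h2, h3⟩
  have h5 : ∃ᶠ w in 𝓝[≠] y, g w = g' w := h4.frequently (Frequently.of_forall h1)
  have ha : AnalyticOnNhd ℂ g U := (lim_diff h hg).analyticOnNhd h.op
  have ha' : AnalyticOnNhd ℂ g' U := (lim_diff h hg').analyticOnNhd h.op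
  exact ha.eqOn_of_preconnected_of_frequently_eq ha' h.pc hy h5

theorem lim_fix (h : Dom U F n) (hg : Lim U F g) {y : ℂ} (hy : y ∈ U) (he : g y = y) :
    ∀ z ∈ U, g z = z := lim_eq h hg (lim_id h) hy he

end Pool.Agent.H56.RD
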