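import Pool.Agent.H56.RD.SOL

/-!
# Module LOC: local solutions

PROOF. Let `ball y r ⊆ U`. `1 / X` is holomorphic on `ball y r` (`hX.nz`, `hX.df`) and has a primitive `P` there (`DifferentiableOn.isExactOn_ball` or a similar lemma). `P` has the strict derivative `1 / X y ≠ 0` at `y` (`AnalyticAt.hasStrictDerivAt`): let `e` be the open partial homeomorphism `HasStrictDerivAt.toOpenPartialHomeomorph` of `P` at `y`, restricted to
`ball y r`: `e.source ⊆ ball y r` is an open neighbourhood of `y`, `e = P` on it, `e.target` is an open neighbourhood of `P y`. For `w ∈ e.target`, `e.symm w ∈ e.source ⊆ U` and `e.symm` has the derivative `1 / (1 / X (e.symm w)) = X (e.symm w)` at `w` (`OpenPartialHomeomorph.hasDerivAt_symm`).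
Choose `η > 0` with `ball (P y) η ⊆ e.target`, `δ = min δ0 (η / 2)`, and `ρ > 0` with `ball y ρ ⊆ e.source` and `‖P z - P y‖ < δ / 2` for `z ∈ ball y ρ` (continuity). For `z ∈ ball y ρ` put `Φ ζ = e.symm (P z + ζ)`, `ζ ∈ ball 0 δ`: `‖P z + ζ - P y‖ < δ / 2 + δ < η`. `Φ` is a solution, `Φ 0 = z` (`e.left_inv`), and for `z' ∈ ball y ρ`, `c = P z' - P z`, `‖c‖ < δ`, `Φ c = z'`.
-/

set_option autoImplicit false

open Filter Topology Metric Set

namespace Pool.Agent.H56.RD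

theorem loc {X : ℂ → ℂ} {U : Set ℂ} (hX : Fld X U) {y : ℂ} (hy : y ∈ U) {δ0 : ℝ} (h0 : 0 < δ0) :
    ∃ δ ρ : ℝ, 0 < δ ∧ δ ≤ δ0 ∧ 0 < ρ ∧ ball y ρ ⊆ U ∧ ∀ z ∈ ball y ρ, ∃ Φ : ℂ → ℂ,
      Sol X U (ball 0 δ) Φ ∧ Φ 0 = z ∧ ∀ z' ∈ ball y ρ, ∃ c ∈ ball (0 : ℂ) δ, Φ c = z' := by
  obtain ⟨r, hr, hrU⟩ := Metric.isOpen_iff.1 hX.op y hy
  have hdiv : DifferentiableOn ℂ (fun z => 1 / X z) (ball y r) := by
    refine DifferentiableOn.div (differentiableOn_const _) (hX.df.mono hrU) fun z hz => ?_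
    exact hX.nz z (hrU hz)
  obtain ⟨P, hP⟩ := hdiv.isExactOn_ball
  have hPd : DifferentiableOn ℂ P (ball y r) := fun z hz =>
    (hP z hz).differentiableAt.differentiableWithinAt
  have hPs : HasStrictDerivAt P (1 / X y) y := by
    have h3 : AnalyticAt ℂ P y := hPd.analyticAt (isOpen_ball.mem_nhds (mem_ball_self hr))
    have h4 := h3.hasStrictDerivAt
    rwa [(hP y (mem_ball_self hr)).deriv] at h4
  have hne : 1 / X y ≠ 0 := one_div_ne_zero (hX.nz y hy)
  obtain ⟨e, he1, he2, he3⟩ : ∃ e : OpenPartialHomeomorph ℂ ℂ, (e : ℂ → ℂ) = P ∧ y ∈ e.source ∧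
      e.source ⊆ ball y r := by
    refine ⟨((hPs.hasStrictFDerivAt_equiv hne).toOpenPartialHomeomorph P).restrOpen (ball y r)
      isOpen_ball, rfl, ?_, ?_⟩
    · rw [OpenPartialHomeomorph.restrOpen_source]
      exact ⟨HasStrictFDerivAt.mem_toOpenPartialHomeomorph_source _, mem_ball_self hr⟩
    · rw [OpenPartialHomeomorph.restrOpen_source]
      exact inter_subset_right
  have hPy : P y ∈ e.target := by
    rw [← he1]
    exact e.map_source he2
  obtain ⟨η, hη, hηt⟩ := Metric.isOpen_iff.1 e.open_target (P y) hPy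
  have hQ : ∀ w ∈ e.target, e.symm w ∈ ball y r ∧ HasDerivAt e.symm (X (e.symm w)) w := by
    intro w hw
    have h1 := he3 (e.map_target hw)
    refine ⟨h1, ?_⟩
    have h2 : HasDerivAt e (1 / X (e.symm w)) (e.symm w) := by
      rw [he1]
      exact hP _ h1
    have h3 := e.hasDerivAt_symm hw (one_div_ne_zero (hX.nz _ (hrU h1))) h2
    rwa [one_div, inv_inv] at h3
  obtain ⟨δ, hδ⟩ : ∃ δ, δ = min δ0 (η / 2) := ⟨_, rfl⟩
  have hδ0 : 0 < δ := by
    rw [hδ]
    exact lt_min h0 (half_pos hη)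
  have hδη : δ ≤ η / 2 := hδ ▸ min_le_right _ _
  have hev : ∀ᶠ z in 𝓝 y, z ∈ e.source ∧ dist (P z) (P y) < δ / 2 := by
    refine Filter.Eventually.and (e.open_source.mem_nhds he2) ?_
    exact (Metric.tendsto_nhds.1 (hP y (mem_ball_self hr)).continuousAt) (δ / 2) (half_pos hδ0)
  obtain ⟨ρ, hρ, hρb⟩ := Metric.eventually_nhds_iff_ball.1 hev
  refine ⟨δ, ρ, hδ0, hδ ▸ min_le_left _ _, hρ, fun z hz => hrU (he3 (hρb z hz).1), ?_⟩
  intro z hz
  have hzt : ∀ ζ ∈ ball (0 : ℂ) δ, P z + ζ ∈ e.target := by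
    intro ζ hζ
    refine hηt ?_
    rw [mem_ball_zero_iff] at hζ
    rw [mem_ball, dist_eq_norm]
    have h1 := (hρb z hz).2
    rw [dist_eq_norm] at h1
    have h2 : ‖P z + ζ - P y‖ ≤ ‖P z - P y‖ + ‖ζ‖ := by
      rw [show P z + ζ - P y = (P z - P y) + ζ by ring]
      exact norm_add_le _ _
    linarith
  have hinv : ∀ x ∈ ball y ρ, e.symm (P x) = x := by
    intro x hx
    have h1 := e.left_inv (hρb x hx).1
    rwa [he1] at h1
  refine ⟨fun ζ => e.symm (P z + ζ), ⟨fun ζ hζ => hrU (hQ _ (hzt ζ hζ)).1, fun ζ hζ => ?_⟩, ?_, ?_⟩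
  · exact HasDerivAt.comp_const_add (P z) ζ (hQ _ (hzt ζ hζ)).2
  · show e.symm (P z + 0) = z
    rw [add_zero]
    exact hinv z hz
  · intro z' hz'
    refine ⟨P z' - P z, ?_, ?_⟩
    · rw [mem_ball_zero_iff, ← dist_eq_norm]
      have h1 := dist_triangle_right (P z') (P z) (P y)
      have h2 := (hρb z hz).2
      have h3 := (hρb z' hz').2
      linarith
    · show e.symm (P z + (P z' - P z)) = z'
      rw [add_sub_cancel]
      exact hinv z' hz'

end Pool.Agent.H56.RD
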