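import Pool.Agent.H56.RD.Defs

/-!
# Module MTL: continuous convergence of holomorphic functions

PROOF. `jc_tlu`: `Metric.tendstoLocallyUniformlyOn_iff`; at `x ∈ U`, `ε > 0`: `JC` at `x` gives `K` and a neighbourhood of `x` with `dist (F k y) (G x) < ε / 2` (`eventually_prod_iff`), and `dist (G y) (G x) < ε / 2` for `y ∈ U` near `x` (`jc_cont`; compare the proof in H91/CS/HURJ).
`tlu_jc`: `dist (F k y) (G z) ≤ dist (F k y) (G y) + dist (G y) (G z)`, `U` open.
`jc_diff`: `TendstoLocallyUniformlyOn.differentiableOn`. `jc_deriv`: `TendstoLocallyUniformlyOn.deriv` and `tlu_jc` (the derivative of a holomorphic function is continuous: `DifferentiableOn.deriv`).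
-/

set_option autoImplicit false

open Filter Topology Metric Set

namespace Pool.Agent.H56.RD

variable {F : ℕ → ℂ → ℂ} {G : ℂ → ℂ} {U : Set ℂ}

theorem jc_tlu (hU : IsOpen U) (h : JC F G U) : TendstoLocallyUniformlyOn F G atTop U := by
  rw [Metric.tendstoLocallyUniformlyOn_iff]
  intro ε hε x hx
  have h1 := (Metric.tendsto_nhds.1 (h x hx)) (ε / 2) (by linarith)
  obtain ⟨pa, hpa, pb, hpb, hab⟩ := eventually_prod_iff.1 h1
  have hc : ContinuousAt G x := (jc_cont hU h).continuousAt (hU.mem_nhds hx)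
  have h2 : ∀ᶠ y in 𝓝 x, dist (G y) (G x) < ε / 2 :=
    (Metric.tendsto_nhds.1 hc) (ε / 2) (by linarith)
  refine ⟨{y | pb y ∧ dist (G y) (G x) < ε / 2}, mem_nhdsWithin_of_mem_nhds (hpb.and h2), ?_⟩
  filter_upwards [hpa] with k hk y hy
  have h3 := hab hk hy.1
  have h4 : dist (G y) (G x) < ε / 2 := hy.2
  have h5 := dist_triangle_right (G y) (F k y) (G x)
  have h6 : dist (F k y) (G x) < ε / 2 := h3
  linarith

theorem tlu_jc (hU : IsOpen U) (hG : ContinuousOn G U)
    (h : TendstoLocallyUniformlyOn F G atTop U) : JC F G U := by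
  intro z hz
  rw [Metric.tendsto_nhds]
  intro ε hε
  rw [Metric.tendstoLocallyUniformlyOn_iff] at h
  obtain ⟨t, ht, h1⟩ := h (ε / 2) (by linarith) z hz
  rw [hU.nhdsWithin_eq hz] at ht
  have h2 : ∀ᶠ y in 𝓝 z, dist (G y) (G z) < ε / 2 :=
    (Metric.tendsto_nhds.1 (hG.continuousAt (hU.mem_nhds hz))) (ε / 2) (by linarith)
  have h3 : ∀ᶠ y in 𝓝 z, y ∈ t ∧ dist (G y) (G z) < ε / 2 := (eventually_mem_set.2 ht).and h2
  filter_upwards [h1.prod_mk h3] with w hw
  have h4 := hw.1 w.2 hw.2.1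
  have h5 := dist_triangle (F w.1 w.2) (G w.2) (G z)
  rw [dist_comm (G w.2)] at h4
  have h6 := hw.2.2
  linarith

theorem jc_diff (hU : IsOpen U) (hF : ∀ k, DifferentiableOn ℂ (F k) U) (h : JC F G U) :
    DifferentiableOn ℂ G U :=
  (jc_tlu hU h).differentiableOn (Eventually.of_forall hF) hU

theorem jc_deriv (hU : IsOpen U) (hF : ∀ k, DifferentiableOn ℂ (F k) U) (h : JC F G U) :
    JC (fun k => deriv (F k)) (deriv G) U := by
  have h1 := (jc_tlu hU h).deriv (Eventually.of_forall hF) hU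
  exact tlu_jc hU ((jc_diff hU hF h).deriv hU).continuousOn h1

/-- uniform convergence on compact sets -/
theorem jc_unif (hU : IsOpen U) (h : JC F G U) {K : Set ℂ} (hK : IsCompact K) (hKU : K ⊆ U)
    {ε : ℝ} (hε : 0 < ε) : ∀ᶠ k in atTop, ∀ z ∈ K, ‖F k z - G z‖ < ε := by
  have h1 := (tendstoLocallyUniformlyOn_iff_tendstoUniformlyOn_of_compact hK).1
    ((jc_tlu hU h).mono hKU)
  rw [Metric.tendstoUniformlyOn_iff] at h1
  filter_upwards [h1 ε hε] with k hk z hz
  have := hk z hz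
  rwa [dist_comm, dist_eq_norm] at this

end Pool.Agent.H56.RD
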