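import Pool.Agent.H56.RD.DIM
import Pool.Agent.H56.RD.LOC

/-!
# Module PRI: the real flow is periodic

PROOF. Let `z0 ∈ U`, `E` a solution on `ball 0 δ` with `E 0 = z0` (`loc` with `δ0 = 1`, `y = z = z0`), `δ1` from `dim`. Choose `0 < τ < δ / 4` and let `h ∈ Lim`, `h z0 = E τ` (`tim_real`).
(1) `h^[i] z0 ∈ K` compact in `U` (`orb_cpt`, `lim_pow`): a strictly increasing `m` with `h^[m j] z0 → y ∈ U`. `q j = h^[m (j + 1) - m j] ∈ Lim` maps `h^[m j] z0 → y` to `h^[m (j + 1)] z0 → y`. `lim_cpt` (`u j = h^[m j] z0`, `z = y`): `q (σ j) → q` (`JC`), `q ∈ Lim`, `q y = y`, so `q = id` on `U` (`lim_fix`) and `q (σ j) z0 → z0`. `tim_near` with `r = min δ1 (τ / 2)`: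
for some `j`, `q (σ j) z0 = E c`, `‖c‖ < r`. `c` is a time, so it is real (`dim`). With `N = m (σ j + 1) - m (σ j) ≥ 1`: `h^[N] z0 = E c`, `c` real, `|c| < τ / 2`.
(2) `T = N τ - c > 0`, `s = T / N = τ - a`, `a = c / N`, `|a| < τ / 2`, `0 < s < 3 τ / 2 < δ`. Let `δ0 > 0`; choose `m ≥ 1` with `T / (N m) < δ0`; `flw` with `t = s / m = T / (N m) ≤ s < δ`: `g ∈ Lim` with `g (Φ 0) = Φ t` for all solutions `Φ` on balls of radius larger than `t`. The answer is `N' = m N`, `g`. It remains to prove `g^[m N] = id` on `U`.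
(3) `g z0 = E t`, `lg_pow`: `g^[m] z0 = E (m t) = E s`. Let `k ∈ Lim`, `k z0 = E a` (`tim_real`), `G = g^[m] ∈ Lim`. `k (G z0) = k (E s) = E (s + a) = E τ = h z0` (`lg_tr`), so `k ∘ G = h` on `U` (`lim_eq`). `lg_pow`: `k^[N] z0 = E (N a) = E c`. On `U` `k` and `G` commute (`lim_comm`), so `h^[N] = k^[N] ∘ G^[N] = G^[N] ∘ k^[N]` on `U` (induction; all maps preserve `U`).
At `z0`: `E c = h^[N] z0 = G^[N] (k^[N] z0) = G^[N] (E c)`: `G^[N] ∈ Lim` fixes `E c ∈ U`, so `G^[N] = id` on `U` (`lim_fix`); `G^[N] = g^[m N]` (`Function.iterate_mul`).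
-/

set_option autoImplicit false

open Filter Topology Metric Set

namespace Pool.Agent.H56.RD

theorem pri {U : Set ℂ} {F : ℂ → ℂ} {n : ℕ → ℕ} {X : ℂ → ℂ} {e : ℕ → ℝ} (v : Vec U F n X e) :
    ∃ T : ℝ, 0 < T ∧ ∀ δ0 : ℝ, 0 < δ0 → ∃ (N : ℕ) (g : ℂ → ℂ), 0 < N ∧ T / (N : ℝ) < δ0 ∧
      Lim U F g ∧ (∀ z ∈ U, g^[N] z = z) ∧
      ∀ (δ : ℝ) (Φ : ℂ → ℂ), T / (N : ℝ) < δ → Sol X U (ball 0 δ) Φ →
        g (Φ 0) = Φ ((T / (N : ℝ) : ℝ) : ℂ) := by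
  have hD : Dom U F n := v.dom
  obtain ⟨z0, hz0⟩ := hD.ne
  obtain ⟨δ, ρ, hδ, -, hρ, -, hloc⟩ := loc v.fld hz0 (one_pos : (0 : ℝ) < 1)
  obtain ⟨E, hE, hE0, -⟩ := hloc z0 (mem_ball_self hρ)
  obtain ⟨δ1, hδ1, hdim⟩ := dim v hδ hE
  obtain ⟨τ, hτ0, hτ⟩ : ∃ τ : ℝ, 0 < τ ∧ τ < δ / 4 := ⟨δ / 8, by linarith, by linarith⟩
  obtain ⟨h, hh, hhE⟩ := tim_real v hδ hE (t := τ) (by rw [abs_of_pos hτ0]; linarith)
  obtain ⟨K, hKU, hK, hKg⟩ := orb_cpt hD hz0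
  obtain ⟨y, hyK, m, hm, hmy⟩ := hK.tendsto_subseq (x := fun i => h^[i] z0)
    (fun i => hKg _ (lim_pow hD hh i))
  have hyU := hKU hyK
  have hmy' : Tendsto (fun j => h^[m j] z0) atTop (𝓝 y) := hmy
  have hq1 : ∀ j, h^[m (j + 1) - m j] (h^[m j] z0) = h^[m (j + 1)] z0 := by
    intro j
    rw [← Function.iterate_add_apply, Nat.sub_add_cancel (hm.monotone (Nat.le_succ j))]
  obtain ⟨σ, q0, hσ, hq0, hJ, hq0y⟩ := lim_cpt hD (g := fun j => h^[m (j + 1) - m j])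
    (fun j => lim_pow hD hh _) (u := fun j => h^[m j] z0) hyU hmy' hyU (by
      have h1 : (fun k => (fun j => h^[m (j + 1) - m j]) k ((fun j => h^[m j] z0) k)) =
          fun k => h^[m (k + 1)] z0 := by
        funext k
        exact hq1 k
      rw [h1]
      exact hmy'.comp (tendsto_add_atTop_nat 1))
  have hqid := lim_fix hD hq0 hyU hq0y
  have hqz : Tendsto (fun j => h^[m (σ j + 1) - m (σ j)] (E 0)) atTop (𝓝 (E 0)) := by
    rw [hE0]
    have h1 := jc_pt hJ hz0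
    rwa [hqid z0 hz0] at h1
  obtain ⟨j, c, hc, hqc⟩ := (tim_near v hδ hE (g := fun j => h^[m (σ j + 1) - m (σ j)]) hqz
    (r := min δ1 (τ / 2)) (lt_min hδ1 (by linarith))).exists
  obtain ⟨N, hN⟩ : ∃ N, N = m (σ j + 1) - m (σ j) := ⟨_, rfl⟩
  have hN0 : 0 < N := by
    have h1 := hm (Nat.lt_succ_self (σ j))
    rw [hN]
    exact Nat.sub_pos_of_lt h1
  have hqc' : h^[N] (E 0) = E c := by rw [hN]; exact hqc
  have hcim : c.im = 0 := by
    refine hdim c ?_ ⟨h^[N], lim_pow hD hh N, hqc'⟩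
    exact ball_subset_ball (min_le_left _ _) hc
  obtain ⟨c0, hc0⟩ : ∃ c0 : ℝ, c = (c0 : ℂ) := ⟨c.re, by
    apply Complex.ext
    · simp
    · simpa using hcim⟩
  have hc0τ : |c0| < τ / 2 := by
    have h1 := ball_subset_ball (min_le_right δ1 (τ / 2)) hc
    rw [mem_ball_zero_iff, hc0, Complex.norm_real, Real.norm_eq_abs] at h1
    exact h1
  subst hc0
  have hN1 : (1 : ℝ) ≤ N := by exact_mod_cast hN0
  have hNpos : (0 : ℝ) < N := by linarith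
  have hc0l := (abs_lt.1 hc0τ).1
  have hc0u := (abs_lt.1 hc0τ).2
  obtain ⟨T, hT⟩ : ∃ T : ℝ, T = N * τ - c0 := ⟨_, rfl⟩
  have hT0 : 0 < T := by
    have : τ ≤ N * τ := by nlinarith
    linarith
  refine ⟨T, hT0, ?_⟩
  intro δ0 hδ0
  obtain ⟨a, ha⟩ : ∃ a : ℝ, a = c0 / N := ⟨_, rfl⟩
  have haN : (N : ℝ) * a = c0 := by rw [ha]; field_simp
  have haτ : |a| < τ / 2 := by
    rw [ha, abs_div, abs_of_pos hNpos, div_lt_iff₀ hNpos]
    nlinarith [abs_nonneg c0]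
  have hal := (abs_lt.1 haτ).1
  have hau := (abs_lt.1 haτ).2
  obtain ⟨s, hs⟩ : ∃ s : ℝ, s = T / N := ⟨_, rfl⟩
  have hs1 : s = τ - a := by
    rw [hs, hT, sub_div, ← ha]
    field_simp
  have hs0 : 0 < s := by linarith
  have hsδ : s < δ := by linarith
  -- the number `m'`
  obtain ⟨m', hm'⟩ := exists_nat_gt (s / δ0)
  have hm'pos : (0 : ℝ) < m' := lt_of_le_of_lt (div_nonneg hs0.le hδ0.le) hm'
  have hm'0 : 0 < m' := by exact_mod_cast hm'pos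
  have hm'1 : (1 : ℝ) ≤ m' := by exact_mod_cast hm'0
  obtain ⟨t, ht⟩ : ∃ t : ℝ, t = s / m' := ⟨_, rfl⟩
  have ht0 : 0 < t := by rw [ht]; exact div_pos hs0 hm'pos
  have htm : (m' : ℝ) * t = s := by rw [ht]; field_simp
  have htδ0 : t < δ0 := by
    rw [ht, div_lt_iff₀ hm'pos]
    rw [div_lt_iff₀ hδ0] at hm'
    linarith
  have hts : t ≤ s := by nlinarith
  have hTt : T / ((m' * N : ℕ) : ℝ) = t := by
    rw [ht, hs]
    push_cast
    field_simp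
  obtain ⟨g, hg, hgΦ⟩ := flw v ht0.le (lt_of_le_of_lt hts hsδ) hE
  refine ⟨m' * N, g, Nat.mul_pos hm'0 hN0, by rw [hTt]; exact htδ0, hg, ?_, ?_⟩
  swap
  · rw [hTt]
    exact hgΦ
  have hgE : g (E 0) = E (t : ℂ) := hgΦ δ E (lt_of_le_of_lt hts hsδ) hE
  have hnorm : ∀ r : ℝ, |r| < δ → (r : ℂ) ∈ ball (0 : ℂ) δ := by
    intro r hr
    rw [mem_ball_zero_iff, Complex.norm_real, Real.norm_eq_abs]
    exact hr
  have hsb : (s : ℂ) ∈ ball (0 : ℂ) δ := hnorm s (by rw [abs_of_pos hs0]; exact hsδ)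
  have htmC : (m' : ℂ) * (t : ℂ) = (s : ℂ) := by
    rw [← htm]
    push_cast
    ring
  have hGE : g^[m'] (E 0) = E (s : ℂ) := by
    have h1 := lg_pow v hδ hE hg (c := (t : ℂ)) (N := m') (by rw [htmC]; exact hsb) hgE m' le_rfl
    rwa [htmC] at h1
  have hG : Lim U F g^[m'] := lim_pow hD hg m'
  obtain ⟨k, hk, hkE⟩ := tim_real v hδ hE (t := a) (by linarith)
  have hkG : k (g^[m'] (E 0)) = h (E 0) := by
    rw [hGE, hhE]
    have hsa : (s : ℂ) + (a : ℂ) = (τ : ℂ) := by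
      rw [hs1]
      push_cast
      ring
    have h1 := lg_tr v hδ hE hk (c := (a : ℂ)) (hnorm a (by linarith)) hkE (ζ := (s : ℂ)) hsb
      (by rw [hsa]; exact hnorm τ (by rw [abs_of_pos hτ0]; linarith))
    rwa [hsa] at h1
  rw [hE0] at hkG
  have hkGU : ∀ z ∈ U, k (g^[m'] z) = h z := lim_eq hD (lim_comp hD hk hG) hh hz0 hkG
  have haNC : (N : ℂ) * (a : ℂ) = (c0 : ℂ) := by
    rw [← haN]
    push_cast
    ring
  have hc0b : (c0 : ℂ) ∈ ball (0 : ℂ) δ := hnorm c0 (by linarith)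
  have hkN : k^[N] (E 0) = E (c0 : ℂ) := by
    have h1 := lg_pow v hδ hE hk (c := (a : ℂ)) (N := N) (by rw [haNC]; exact hc0b) hkE N le_rfl
    rwa [haNC] at h1
  have hind : ∀ i : ℕ, ∀ z ∈ U, h^[i] z = (g^[m'])^[i] (k^[i] z) := by
    intro i
    induction i with
    | zero => intro z _; rfl
    | succ i ih =>
      intro z hz
      rw [Function.iterate_succ_apply, ← hkGU z hz, ih _ (hk.1 (hG.1 hz))]
      rw [← Function.iterate_succ_apply k, lim_comm hD (lim_pow hD hk (i + 1)) hG hz,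
        ← Function.iterate_succ_apply g^[m']]
  have h3 : (g^[m'])^[N] (E (c0 : ℂ)) = E (c0 : ℂ) := by
    have h4 := hind N (E 0) (by rw [hE0]; exact hz0)
    rw [hkN, hqc'] at h4
    exact h4.symm
  intro z hz
  rw [Function.iterate_mul]
  exact lim_fix hD (lim_pow hD hG N) (hE.maps hc0b) h3 z hz

end Pool.Agent.H56.RD
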