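import Pool.Agent.H47.RJ.RCR

/-!
# Rotation domains on the sphere: definition

`Cyl f A p b`: `A` is a component of the Fatou set of exact period `p`, `f^p` is bijective on `A` and `f^(p b k) → id` locally uniformly on `A`.
-/

set_option autoImplicit false

open Filter Topology Polynomial Metric Set

namespace Pool.Agent.H56.RD

open Pool.Agent.H44.Fatou Pool.Agent.H32.BT Pool.Agent.H79.Eul Pool.Agent.H79.Par
open Pool.Agent.H35.EX Pool.Agent.H44.RR Pool.Agent.H56.HR Pool.Agent.H44.RC Pool.Agent.H47.RJ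

structure Cyl (f : OnePoint ℂ → OnePoint ℂ) (A : Set (OnePoint ℂ)) (p : ℕ) (b : ℕ → ℕ) : Prop where
  comp : ∃ x ∈ FS f, A = connectedComponentIn (FS f) x
  hp : 0 < p
  bj : BijOn f^[p] A A
  min : ∀ j, 0 < j → j < p → f^[j] '' A ≠ A
  tb : Tendsto b atTop atTop
  id : ∀ x ∈ A, Tendsto (fun w : ℕ × OnePoint ℂ => (f^[p])^[b w.1] w.2) (atTop ×ˢ 𝓝 x) (𝓝 x)

theorem Cyl.op {f : OnePoint ℂ → OnePoint ℂ} {A : Set (OnePoint ℂ)} {p : ℕ} {b : ℕ → ℕ}
    (h : Cyl f A p b) : IsOpen A := by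
  obtain ⟨x, -, rfl⟩ := h.comp
  exact fc_open f x

theorem Cyl.sub {f : OnePoint ℂ → OnePoint ℂ} {A : Set (OnePoint ℂ)} {p : ℕ} {b : ℕ → ℕ}
    (h : Cyl f A p b) : A ⊆ FS f := by
  obtain ⟨x, -, rfl⟩ := h.comp
  exact connectedComponentIn_subset _ _

theorem Cyl.pc {f : OnePoint ℂ → OnePoint ℂ} {A : Set (OnePoint ℂ)} {p : ℕ} {b : ℕ → ℕ}
    (h : Cyl f A p b) : IsPreconnected A := by
  obtain ⟨x, -, rfl⟩ := h.comp
  exact isPreconnected_connectedComponentIn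

theorem Cyl.ne {f : OnePoint ℂ → OnePoint ℂ} {A : Set (OnePoint ℂ)} {p : ℕ} {b : ℕ → ℕ}
    (h : Cyl f A p b) : A.Nonempty := by
  obtain ⟨x, hx, rfl⟩ := h.comp
  exact ⟨x, mem_connectedComponentIn hx⟩

end Pool.Agent.H56.RD
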