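import Pool.Agent.H56.RD.SDC
import Pool.Agent.H47.RJ.CNT

/-!
# Module SNC: a rotation domain is not dense in the sphere

PROOF. `f = Rf v`, `G = f^[p]`. Suppose that every nonempty open set meets `A`. (a) `FS f = A`: for `y ∈ FS f` the component `Fc f y` is open (`fc_open`) and contains `y`, so it meets `A = connectedComponentIn (FS f) x`, so the two components agree (`connectedComponentIn_eq`) and `y ∈ A`.
(b) `f` is not injective: `cnt_ge` (H47/RJ/CNT) with `n = 1`, `S = univ` (infinite): some point has at least `d ≥ 2` preimages (`Set.one_lt_ncard`): `x1 ≠ x2`, `f x1 = f x2`, so `G x1 = G x2` (`p ≥ 1`).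
(c) Let `N1, N2` be disjoint open neighbourhoods of `x1, x2`. `G` is continuous and open (`rat_continuous`, `rat_open`, iterates). `N1 ∩ G⁻¹' (G '' N2)` is open and contains `x1`, so it contains `u1 ∈ A`; `G u1 = G u2`, `u2 ∈ N2`. `u1 ∈ FS f`, so `G u1 ∈ FS f` and `u2 ∈ FS f = A` (`fs_iff`). `u1 ≠ u2`: contradiction to `h.bj.injOn`.
-/

set_option autoImplicit false

open Filter Topology Polynomial Metric Set

namespace Pool.Agent.H56.RD

open Pool.Agent.H44.Fatou Pool.Agent.H32.BT Pool.Agent.H79.Eul Pool.Agent.H79.Par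
open Pool.Agent.H35.EX Pool.Agent.H44.RR Pool.Agent.H56.HR Pool.Agent.H44.RC Pool.Agent.H47.RJ

variable {d : ℕ} {v : E d}

theorem out_ex (hd : 2 ≤ d) (hcop : IsCoprime (pol v.1) (pol v.2))
    (hdeg : max (pol v.1).natDegree (pol v.2).natDegree = d) {A : Set (OnePoint ℂ)} {p : ℕ}
    {b : ℕ → ℕ} (h : Cyl (Rf v) A p b) :
    ∃ O : Set (OnePoint ℂ), IsOpen O ∧ O.Nonempty ∧ Disjoint O A := by
  by_contra hcon
  have hden : ∀ O : Set (OnePoint ℂ), IsOpen O → O.Nonempty → (O ∩ A).Nonempty := by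
    intro O hO hne
    by_contra h1
    rw [not_nonempty_iff_eq_empty, ← disjoint_iff_inter_eq_empty] at h1
    exact hcon ⟨O, hO, hne, h1⟩
  have hd1 : 1 ≤ d := by omega
  have hFS : FS (Rf v) ⊆ A := by
    intro y hy
    obtain ⟨x, hx, hA⟩ := h.comp
    obtain ⟨a, ha1, ha2⟩ := hden (Fc (Rf v) y) (fc_open _ _) ⟨y, mem_connectedComponentIn hy⟩
    have e1 : connectedComponentIn (FS (Rf v)) y = connectedComponentIn (FS (Rf v)) a :=
      connectedComponentIn_eq ha1
    rw [hA] at ha2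
    have e2 : connectedComponentIn (FS (Rf v)) x = connectedComponentIn (FS (Rf v)) a :=
      connectedComponentIn_eq ha2
    rw [hA, e2, ← e1]
    exact mem_connectedComponentIn hy
  -- two points with the same image
  have hinf : (univ : Set (OnePoint ℂ)).Infinite := by
    have h1 : Set.Infinite (range ((↑) : ℂ → OnePoint ℂ)) :=
      infinite_range_of_injective OnePoint.coe_injective
    exact h1.mono (subset_univ _)
  obtain ⟨x, -, hx⟩ := cnt_ge hd1 hcop hdeg 1 hinf
  rw [pow_one] at hx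
  have hfin : {z | (Rf v)^[1] z = x}.Finite := by
    apply finite_of_ncard_ne_zero
    omega
  obtain ⟨x1, x2, hx1, hx2, hne⟩ := (Set.one_lt_ncard_iff hfin).mp (by omega)
  rw [mem_setOf_eq, Function.iterate_one] at hx1 hx2
  have hG : (Rf v)^[p] x1 = (Rf v)^[p] x2 := by
    obtain ⟨q, hq⟩ : ∃ q, p = q + 1 := ⟨p - 1, by have := h.hp; omega⟩
    rw [hq, Function.iterate_succ_apply, Function.iterate_succ_apply, hx1, hx2]
  have hcont : Continuous (Rf v) := rat_continuous hcop
  have hopen : IsOpenMap (Rf v) := rat_open hcop (by rw [hdeg]; exact hd1)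
  have hGc : Continuous (Rf v)^[p] := hcont.iterate p
  have hGo : IsOpenMap (Rf v)^[p] := by
    have h1 : ∀ n, IsOpenMap (Rf v)^[n] := by
      intro n
      induction n with
      | zero => exact IsOpenMap.id
      | succ n ih =>
        rw [Function.iterate_succ]
        exact ih.comp hopen
    exact h1 p
  obtain ⟨N1, N2, hN1, hN2, hx1N, hx2N, hdis⟩ := t2_separation hne
  obtain ⟨u1, ⟨hu1, hu2⟩, huA⟩ := hden (N1 ∩ (Rf v)^[p] ⁻¹' ((Rf v)^[p] '' N2))
    (hN1.inter ((hGo N2 hN2).preimage hGc)) ⟨x1, hx1N, x2, hx2N, hG.symm⟩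
  obtain ⟨u2, hu2N, hu12⟩ := hu2
  have h1 : (Rf v)^[p] u1 ∈ FS (Rf v) := (fs_iff hd1 hcop hdeg p u1).mpr (h.sub huA)
  rw [← hu12] at h1
  have h2 : u2 ∈ A := hFS ((fs_iff hd1 hcop hdeg p u2).mp h1)
  have h3 : u2 = u1 := h.bj.injOn h2 huA hu12
  rw [h3] at hu2N
  exact (disjoint_left.mp hdis) hu1 hu2N

end Pool.Agent.H56.RD
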