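import Pool.Agent.H56.RD.LM1

/-!
# Solutions of the differential equation: basic lemmas (proved)
-/

set_option autoImplicit false

open Filter Topology Metric Set

namespace Pool.Agent.H56.RD

/-- a vector field without zeros -/
structure Fld (X : ℂ → ℂ) (U : Set ℂ) : Prop where
  op : IsOpen U
  df : DifferentiableOn ℂ X U
  nz : ∀ z ∈ U, X z ≠ 0

/-- the possible times of the limit maps along the solution `E` -/
def Tim (U : Set ℂ) (F E : ℂ → ℂ) (c : ℂ) : Prop := ∃ g, Lim U F g ∧ g (E 0) = E c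

variable {U D D' : Set ℂ} {F X Φ Ψ : ℂ → ℂ} {n : ℕ → ℕ} {e : ℕ → ℝ}

theorem Vec.fld (v : Vec U F n X e) : Fld X U := ⟨v.dom.op, v.df, v.nz⟩

theorem sol_mono (h : Sol X U D Φ) (hD : D' ⊆ D) : Sol X U D' Φ :=
  ⟨h.maps.mono_left hD, fun ζ hζ => h.der ζ (hD hζ)⟩

theorem sol_congr (hD : IsOpen D) (h : Sol X U D Φ) (he : ∀ ζ ∈ D, Ψ ζ = Φ ζ) : Sol X U D Ψ := by
  refine ⟨fun ζ hζ => ?_, fun ζ hζ => ?_⟩
  · rw [he ζ hζ]
    exact h.maps hζ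
  · rw [he ζ hζ]
    refine (h.der ζ hζ).congr_of_eventuallyEq ?_
    filter_upwards [hD.mem_nhds hζ] with w hw
    exact he w hw

theorem sol_shift (h : Sol X U D Φ) (c : ℂ) : Sol X U {ζ | ζ + c ∈ D} (fun ζ => Φ (ζ + c)) := by
  refine ⟨fun ζ hζ => h.maps hζ, fun ζ hζ => ?_⟩
  exact HasDerivAt.comp_add_const ζ c (h.der (ζ + c) hζ)

theorem sol_lim (v : Vec U F n X e) (h : Sol X U D Φ) {g : ℂ → ℂ} (hg : Lim U F g) :
    Sol X U D (fun ζ => g (Φ ζ)) := by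
  refine ⟨fun ζ hζ => hg.1 (h.maps hζ), fun ζ hζ => ?_⟩
  have h1 : DifferentiableAt ℂ g (Φ ζ) :=
    (lim_diff v.dom hg).differentiableAt (v.dom.op.mem_nhds (h.maps hζ))
  have h2 := h1.hasDerivAt.comp ζ (h.der ζ hζ)
  rw [v.eqv g hg _ (h.maps hζ)]
  exact h2

theorem sol_diff (h : Sol X U D Φ) : DifferentiableOn ℂ Φ D :=
  fun ζ hζ => (h.der ζ hζ).differentiableAt.differentiableWithinAt

/-- images of neighbourhoods are neighbourhoods -/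
theorem sol_img (hX : Fld X U) (hD : IsOpen D) (h : Sol X U D Φ) {ζ : ℂ} (hζ : ζ ∈ D) {V : Set ℂ}
    (hV : V ∈ 𝓝 ζ) : Φ '' V ∈ 𝓝 (Φ ζ) := by
  have h1 : AnalyticAt ℂ Φ ζ := (sol_diff h).analyticAt (hD.mem_nhds hζ)
  have h2 : HasStrictDerivAt Φ (X (Φ ζ)) ζ := by
    have h3 := h1.hasStrictDerivAt
    rwa [(h.der ζ hζ).deriv] at h3
  rw [← h2.map_nhds_eq (hX.nz _ (h.maps hζ))]
  exact image_mem_map hV

theorem lens_pc (δ : ℝ) (c : ℂ) : IsPreconnected {ζ : ℂ | ζ ∈ ball (0 : ℂ) δ ∧ ζ + c ∈ ball (0 : ℂ) δ} := by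
  have h1 : Convex ℝ {ζ : ℂ | ζ ∈ ball (0 : ℂ) δ ∧ ζ + c ∈ ball (0 : ℂ) δ} := by
    have e : {ζ : ℂ | ζ ∈ ball (0 : ℂ) δ ∧ ζ + c ∈ ball (0 : ℂ) δ} = ball 0 δ ∩ ball (-c) δ := by
      ext ζ
      simp [mem_ball, dist_eq_norm]
    rw [e]
    exact (convex_ball _ _).inter (convex_ball _ _)
  exact h1.isPreconnected

theorem lens_op (δ : ℝ) (c : ℂ) : IsOpen {ζ : ℂ | ζ ∈ ball (0 : ℂ) δ ∧ ζ + c ∈ ball (0 : ℂ) δ} := by
  have e : {ζ : ℂ | ζ ∈ ball (0 : ℂ) δ ∧ ζ + c ∈ ball (0 : ℂ) δ} = ball 0 δ ∩ ball (-c) δ := by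
    ext ζ
    simp [mem_ball, dist_eq_norm]
  rw [e]
  exact isOpen_ball.inter isOpen_ball

theorem str_op {I : Set ℝ} (hI : IsOpen I) : IsOpen (Str I) := hI.preimage Complex.continuous_im

theorem str_convex {I : Set ℝ} (hI : I.OrdConnected) : Convex ℝ (Str I) := by
  have h1 : Str I = Complex.imLm ⁻¹' I := rfl
  rw [h1]
  exact hI.convex.linear_preimage Complex.imLm

theorem str_pc {I : Set ℝ} (hI : I.OrdConnected) : IsPreconnected (Str I) :=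
  (str_convex hI).isPreconnected

end Pool.Agent.H56.RD
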