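import Pool.Agent.H56.RD.SOL

/-!
# Module SOU: uniqueness and gluing of solutions

PROOF. `sol_uniq`. The set `A = {ζ ∈ D | Φ1 ζ = Φ2 ζ}` is relatively closed in `D` (continuity) and contains `ζ0`; it is open: let `Φ1 ζ = Φ2 ζ = y ∈ U`, `ball y r ⊆ U`. `1 / X` is holomorphic on `ball y r` (`hX.nz`); let `P` be a primitive of `1 / X` on `ball y r` (`DifferentiableOn.isExactOn_ball` or a similar lemma of Mathlib; many files of the library use primitives on discs).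
For `w` in a small ball about `ζ` both `Φi w ∈ ball y r` and `(P ∘ Φi)' w = (1 / X (Φi w)) X (Φi w) = 1`, so `P (Φ1 w) = P y + (w - ζ) = P (Φ2 w)` (constant difference on a ball: `P ∘ Φi - id` has derivative 0). `deriv P y = 1 / X y ≠ 0`: `P` is injective near `y` (`HasStrictDerivAt`), so `Φ1 w = Φ2 w` for `w` near `ζ`. `D` is preconnected: `A = D`
(`IsPreconnected.subset_of_closure_inter_subset`).
`sol_glue`. By `sol_uniq` on the open preconnected set `D1 ∩ D2` (`sol_mono`) `Φ1 = Φ2` there. Put `Φ = Φ1` on `D1`, `Φ2` elsewhere (classical `if`). Near a point of `D1` it is `Φ1`, near a point of `D2` it is `Φ2` (`D1`, `D2` are open): `sol_congr` on each.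
-/

set_option autoImplicit false

open Filter Topology Metric Set

namespace Pool.Agent.H56.RD

variable {U D D1 D2 : Set ℂ} {X Φ1 Φ2 : ℂ → ℂ}

private theorem sou_loc (hX : Fld X U) (hD : IsOpen D) (h1 : Sol X U D Φ1)
    (h2 : Sol X U D Φ2) {ζ0 : ℂ} (hζ : ζ0 ∈ D) (he : Φ1 ζ0 = Φ2 ζ0) : Φ1 =ᶠ[𝓝 ζ0] Φ2 := by
  obtain ⟨y, hy⟩ : ∃ y, y = Φ1 ζ0 := ⟨_, rfl⟩
  have hyU : y ∈ U := hy ▸ h1.maps hζ
  obtain ⟨r, hr, hrU⟩ := Metric.isOpen_iff.1 hX.op y hyU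
  have hdiv : DifferentiableOn ℂ (fun z => 1 / X z) (ball y r) := by
    refine DifferentiableOn.div (differentiableOn_const _) (hX.df.mono hrU) fun z hz => ?_
    exact hX.nz z (hrU hz)
  obtain ⟨P, hP⟩ := hdiv.isExactOn_ball
  have hPd : DifferentiableOn ℂ P (ball y r) := fun z hz =>
    (hP z hz).differentiableAt.differentiableWithinAt
  have hPs : HasStrictDerivAt P (1 / X y) y := by
    have h3 : AnalyticAt ℂ P y := hPd.analyticAt (isOpen_ball.mem_nhds (mem_ball_self hr))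
    have h4 := h3.hasStrictDerivAt
    rwa [(hP y (mem_ball_self hr)).deriv] at h4
  have hne : 1 / X y ≠ 0 := one_div_ne_zero (hX.nz y hyU)
  obtain ⟨Q, hQ⟩ : ∃ Q : ℂ → ℂ, ∀ᶠ x in 𝓝 y, Q (P x) = x :=
    ⟨_, hPs.eventually_left_inverse hne⟩
  have c1 : Tendsto Φ1 (𝓝 ζ0) (𝓝 y) := by
    rw [hy]
    exact (h1.der ζ0 hζ).continuousAt
  have c2 : Tendsto Φ2 (𝓝 ζ0) (𝓝 y) := by
    rw [hy, he]
    exact (h2.der ζ0 hζ).continuousAt
  have hball : ball y r ∈ 𝓝 y := isOpen_ball.mem_nhds (mem_ball_self hr)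
  have hall : ∀ᶠ w in 𝓝 ζ0, w ∈ D ∧ Φ1 w ∈ ball y r ∧ Φ2 w ∈ ball y r :=
    Filter.Eventually.and (hD.mem_nhds hζ) (Filter.Eventually.and (c1 hball) (c2 hball))
  obtain ⟨s, hs, hsb⟩ := Metric.eventually_nhds_iff_ball.1 hall
  have hder : ∀ Φ : ℂ → ℂ, Sol X U D Φ → ∀ w, w ∈ D → Φ w ∈ ball y r →
      HasDerivAt (fun w => P (Φ w)) 1 w := by
    intro Φ hΦ w hw hw2
    have h3 := (hP (Φ w) hw2).comp w (hΦ.der w hw)
    have h4 : 1 / X (Φ w) * X (Φ w) = 1 := one_div_mul_cancel (hX.nz _ (hΦ.maps hw))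
    rw [h4] at h3
    exact h3
  have heq : ∀ w ∈ ball ζ0 s, P (Φ1 w) = P (Φ2 w) := by
    have h5 : ∀ w ∈ ball ζ0 s, HasDerivAt (fun w => P (Φ1 w) - P (Φ2 w)) 0 w := by
      intro w hw
      have h6 := (hder Φ1 h1 w (hsb w hw).1 (hsb w hw).2.1).sub
        (hder Φ2 h2 w (hsb w hw).1 (hsb w hw).2.2)
      rw [sub_self] at h6
      exact h6
    intro w hw
    have h7 := (convex_ball ζ0 s).norm_image_sub_le_of_norm_hasDerivWithin_le (𝕜 := ℂ) (C := 0)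
      (fun w hw => (h5 w hw).hasDerivWithinAt) (fun w _ => by rw [norm_zero])
      (mem_ball_self hs) hw
    rw [he, sub_self, sub_zero, zero_mul] at h7
    exact sub_eq_zero.1 (norm_le_zero_iff.1 h7)
  filter_upwards [ball_mem_nhds ζ0 hs, c1.eventually hQ, c2.eventually hQ] with w hw hw1 hw2
  rw [← hw1, heq w hw, hw2]

theorem sol_uniq (hX : Fld X U) (hD : IsOpen D) (hc : IsPreconnected D) (h1 : Sol X U D Φ1)
    (h2 : Sol X U D Φ2) {ζ0 : ℂ} (hζ : ζ0 ∈ D) (he : Φ1 ζ0 = Φ2 ζ0) : ∀ ζ ∈ D, Φ1 ζ = Φ2 ζ := by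
  have h3 := AnalyticOnNhd.eqOn_of_preconnected_of_eventuallyEq
    ((sol_diff h1).analyticOnNhd hD) ((sol_diff h2).analyticOnNhd hD) hc hζ
    (sou_loc hX hD h1 h2 hζ he)
  exact h3

theorem sol_glue (hX : Fld X U) (hD1 : IsOpen D1) (hD2 : IsOpen D2)
    (hc : IsPreconnected (D1 ∩ D2)) (h1 : Sol X U D1 Φ1) (h2 : Sol X U D2 Φ2) {ζ0 : ℂ}
    (hζ1 : ζ0 ∈ D1) (hζ2 : ζ0 ∈ D2) (he : Φ1 ζ0 = Φ2 ζ0) :
    ∃ Φ : ℂ → ℂ, Sol X U (D1 ∪ D2) Φ ∧ (∀ ζ ∈ D1, Φ ζ = Φ1 ζ) ∧ ∀ ζ ∈ D2, Φ ζ = Φ2 ζ := by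
  classical
  have h12 : ∀ ζ ∈ D1 ∩ D2, Φ1 ζ = Φ2 ζ := sol_uniq hX (hD1.inter hD2) hc
    (sol_mono h1 inter_subset_left) (sol_mono h2 inter_subset_right) ⟨hζ1, hζ2⟩ he
  have e1 : ∀ ζ ∈ D1, (fun ζ => if ζ ∈ D1 then Φ1 ζ else Φ2 ζ) ζ = Φ1 ζ := fun ζ hζ => if_pos hζ
  have e2 : ∀ ζ ∈ D2, (fun ζ => if ζ ∈ D1 then Φ1 ζ else Φ2 ζ) ζ = Φ2 ζ := by
    intro ζ hζ
    by_cases h3 : ζ ∈ D1
    · exact (if_pos h3).trans (h12 ζ ⟨h3, hζ⟩)
    · exact if_neg h3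
  have s1 := sol_congr hD1 h1 e1
  have s2 := sol_congr hD2 h2 e2
  refine ⟨fun ζ => if ζ ∈ D1 then Φ1 ζ else Φ2 ζ, ⟨?_, ?_⟩, e1, e2⟩
  · rintro ζ (hζ | hζ)
    · exact s1.maps hζ
    · exact s2.maps hζ
  · rintro ζ (hζ | hζ)
    · exact s1.der ζ hζ
    · exact s2.der ζ hζ

end Pool.Agent.H56.RD
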