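import Pool.Agent.H56.RD.SDC

/-!
# Module SPE: the exact period of a rotation domain

PROOF. `f = Rf v`, `A = Fc f z0` (= `connectedComponentIn (FS f) z0`), `f^[q * k]` maps `A` to `A` (`fc_self`, `h.hz`, `h.hm`). (1) `f^[q] '' A = A`: let `y ∈ A`. `ψ = id` on `A ∈ 𝓝 y` (`h.id`), so `ψ` is not constant near `y` (`𝓝[≠] y` is not trivial in `OnePoint ℂ`; see `cov_inf` in H47/RJ/COV). `lf_hur` for `h.hL`, `U = A`: for large `j`, `y = ψ y = f^[q * b j] x`, `x ∈ A`, `b j ≥ 1`: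
`y = f^[q] (f^[q * (b j - 1)] x)`.
(2) Let `p > 0` be minimal with `f^[p] '' A = A` (`Nat.find`; `q` has the property, `h.hp`). `q = p * m + r`, `r < p`: `f^[p * m] '' A = A` (induction), `f^[q] '' A = f^[r] '' (f^[p * m] '' A) = f^[r] '' A`, so `r = 0` by minimality. `q = p * m`, `m ≥ 1`.
(3) `f^[q] = f^[p * (m - 1)] ∘ f^[p]` is injective on `A` (`h.inj 1`), so `f^[p]` is. (4) `b' k = m * b k`: `(f^[p])^[m * b k] = f^[p * (m * b k)] = f^[q * b k]` (`Function.iterate_mul`), and `h.hL x` gives the convergence to `ψ x = x`.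
-/

set_option autoImplicit false

open Filter Topology Polynomial Metric Set

namespace Pool.Agent.H56.RD

open Pool.Agent.H44.Fatou Pool.Agent.H32.BT Pool.Agent.H79.Eul Pool.Agent.H79.Par
open Pool.Agent.H35.EX Pool.Agent.H44.RR Pool.Agent.H56.HR Pool.Agent.H44.RC Pool.Agent.H47.RJ

variable {d : ℕ} {v : E d}

private theorem spe_inf {x : OnePoint ℂ} {U : Set (OnePoint ℂ)} (hU : U ∈ 𝓝 x) : U.Infinite := by
  have h : (𝓝[≠] x).NeBot := by
    induction x using OnePoint.rec with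
    | infty => infer_instance
    | coe z => infer_instance
  exact infinite_of_mem_nhds x hU

private theorem spe_onto (hd : 1 ≤ d) (hcop : IsCoprime (pol v.1) (pol v.2))
    (hdeg : max (pol v.1).natDegree (pol v.2).natDegree = d) {q : ℕ} {z0 : OnePoint ℂ} {b : ℕ → ℕ}
    {ψ : OnePoint ℂ → OnePoint ℂ} (h : RotD (Rf v) q z0 b ψ) :
    (Rf v)^[q] '' Fc (Rf v) z0 = Fc (Rf v) z0 := by
  apply Subset.antisymm
  · rintro _ ⟨x, hx, rfl⟩
    have h1 := fc_self hd hcop hdeg h.hz h.hm 1 hx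
    rwa [mul_one] at h1
  · intro y hy
    have hn : ¬ ∀ᶠ x in 𝓝 y, ψ x = ψ y := by
      intro h0
      have h1 : ∀ᶠ x in 𝓝 y, x ∈ Fc (Rf v) z0 := (fc_open (Rf v) z0).mem_nhds hy
      have h2 : ({y} : Set (OnePoint ℂ)) ∈ 𝓝 y := by
        filter_upwards [h0, h1] with x hx0 hx1
        rw [h.id x hx1, h.id y hy] at hx0
        exact hx0
      exact spe_inf h2 (finite_singleton y)
    have h3 := lf_hur hd hcop hdeg h.hL (fc_sub _ _ hy) hn ((fc_open (Rf v) z0).mem_nhds hy)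
    obtain ⟨k, ⟨x, hx, hxy⟩, hk⟩ := (h3.and (h.hb.eventually_ge_atTop 1)).exists
    rw [h.id y hy] at hxy
    refine ⟨(Rf v)^[q * (b k - 1)] x, fc_self hd hcop hdeg h.hz h.hm _ hx, ?_⟩
    rw [← Function.iterate_add_apply]
    have h4 : q + q * (b k - 1) = q * b k := by
      obtain ⟨c, hc⟩ := Nat.exists_eq_add_of_le hk
      rw [hc, Nat.add_sub_cancel_left]
      ring
    rw [h4]
    exact hxy

theorem cyl_ex (hd : 1 ≤ d) (hcop : IsCoprime (pol v.1) (pol v.2))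
    (hdeg : max (pol v.1).natDegree (pol v.2).natDegree = d) {q : ℕ} {z0 : OnePoint ℂ} {b : ℕ → ℕ}
    {ψ : OnePoint ℂ → OnePoint ℂ} (h : RotD (Rf v) q z0 b ψ) :
    ∃ (p : ℕ) (b' : ℕ → ℕ), Cyl (Rf v) (Fc (Rf v) z0) p b' := by
  classical
  have hq := spe_onto hd hcop hdeg h
  have hex : ∃ j : ℕ, 0 < j ∧ (Rf v)^[j] '' Fc (Rf v) z0 = Fc (Rf v) z0 := ⟨q, h.hp, hq⟩
  obtain ⟨p, hp⟩ : ∃ p : ℕ, p = Nat.find hex := ⟨_, rfl⟩
  have hp1 : 0 < p ∧ (Rf v)^[p] '' Fc (Rf v) z0 = Fc (Rf v) z0 := by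
    rw [hp]
    exact Nat.find_spec hex
  have hmin : ∀ j, 0 < j → j < p → (Rf v)^[j] '' Fc (Rf v) z0 ≠ Fc (Rf v) z0 := by
    intro j hj hjp he
    rw [hp] at hjp
    exact Nat.find_min hex hjp ⟨hj, he⟩
  have hpm : ∀ m : ℕ, (Rf v)^[p * m] '' Fc (Rf v) z0 = Fc (Rf v) z0 := by
    intro m
    induction m with
    | zero => simp
    | succ m ih =>
      rw [Nat.mul_succ, Function.iterate_add, image_comp, hp1.2, ih]
  obtain ⟨m, hm⟩ : ∃ m : ℕ, m = q / p := ⟨_, rfl⟩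
  have hqm : q = p * m := by
    have h1 : q % p + p * m = q := by
      rw [hm]
      exact Nat.mod_add_div q p
    have h2 : (Rf v)^[q % p] '' Fc (Rf v) z0 = Fc (Rf v) z0 := by
      have h3 : (Rf v)^[q % p + p * m] '' Fc (Rf v) z0 = Fc (Rf v) z0 := by rw [h1, hq]
      rwa [Function.iterate_add, image_comp, hpm m] at h3
    have h4 : q % p = 0 := by
      by_contra h0
      exact hmin (q % p) (Nat.pos_of_ne_zero h0) (Nat.mod_lt _ hp1.1) h2
    omega
  have hm1 : 1 ≤ m := by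
    rcases Nat.eq_zero_or_pos m with h0 | h0
    · rw [h0, mul_zero] at hqm
      have := h.hp
      omega
    · exact h0
  refine ⟨p, fun k => m * b k, ⟨z0, h.hz, rfl⟩, hp1.1, ⟨?_, ?_, ?_⟩, hmin, ?_, ?_⟩
  · intro x hx
    have h1 : (Rf v)^[p] x ∈ (Rf v)^[p] '' Fc (Rf v) z0 := ⟨x, hx, rfl⟩
    rwa [hp1.2] at h1
  · intro x hx y hy he
    have h1 := h.inj 1
    rw [mul_one] at h1
    refine h1 hx hy ?_
    have h2 : q = p * (m - 1) + p := by
      obtain ⟨c, hc⟩ := Nat.exists_eq_add_of_le hm1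
      rw [hqm, hc, Nat.add_sub_cancel_left]
      ring
    rw [h2, Function.iterate_add_apply, Function.iterate_add_apply, he]
  · intro y hy
    rw [hp1.2]
    exact hy
  · refine tendsto_atTop_mono (fun k => ?_) h.hb
    calc b k = 1 * b k := (one_mul _).symm
      _ ≤ m * b k := Nat.mul_le_mul_right _ hm1
  · intro x hx
    have h1 := h.hL x (fc_sub _ _ hx)
    rw [h.id x hx] at h1
    refine h1.congr (fun w => ?_)
    show (Rf v)^[q * b w.1] w.2 = ((Rf v)^[p])^[m * b w.1] w.2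
    rw [← Function.iterate_mul, hqm, Nat.mul_assoc]

end Pool.Agent.H56.RD
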