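import Pool.Agent.H56.RD.THN

/-!
# Module SRJ: the maximal strip covers the domain

PROOF. `A = Φ '' Str I ⊆ U` is open (`sol_img`: images of neighbourhoods are neighbourhoods) and nonempty (`Φ 0`). `A` is closed in `U`: let `y ∈ U ∩ closure A`. `thn` at `y`: `ρ, κ`. `loc` at `y` with `δ0 = κ`: `δ ≤ κ`, `ρ'`. Choose `ζ' ∈ Str I` with `z = Φ ζ' ∈ ball y ρ ∩ ball y ρ'`. `thn`: a solution `Ψ` on `Str (Ioo (-κ) κ)`, `Ψ 0 = z`. Let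
`J = Ioo (ζ'.im - κ) (ζ'.im + κ)`, `Ψ1 ζ = Ψ (ζ - ζ')`, a solution on `Str J` (`sol_shift` with `c = -ζ'`), `Ψ1 ζ' = z = Φ ζ'`. `hm.max`: `J ⊆ I`. By `sol_uniq` on `Str J` (`str_op`, `str_pc`) `Φ = Ψ1` on `Str J`. `loc`: a solution `Φ'` on `ball 0 δ` with `Φ' 0 = z` and `c ∈ ball 0 δ` with `Φ' c = y`. `ball 0 δ ⊆ Str (Ioo (-κ) κ)` (`|c.im| ≤ ‖c‖ < δ ≤ κ`), so
`Ψ = Φ'` on `ball 0 δ` (`sol_uniq`) and `y = Ψ c = Ψ1 (ζ' + c) = Φ (ζ' + c) ∈ A`. `U` is preconnected: `U ⊆ A` (`IsPreconnected.subset_of_closure_inter_subset`).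
-/

set_option autoImplicit false

open Filter Topology Metric Set

namespace Pool.Agent.H56.RD

theorem srj {U : Set ℂ} {F : ℂ → ℂ} {n : ℕ → ℕ} {X : ℂ → ℂ} {e : ℕ → ℝ} (v : Vec U F n X e)
    {z0 : ℂ} {I : Set ℝ} {Φ : ℂ → ℂ} (hm : MaxS X U z0 I Φ) : SurjOn Φ (Str I) U := by
  have hX := v.fld
  have h0 : (0 : ℂ) ∈ Str I := by
    show (0 : ℂ).im ∈ I
    rw [Complex.zero_im]
    exact hm.zero
  have hop : IsOpen (Φ '' Str I) := by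
    rw [isOpen_iff_mem_nhds]
    rintro _ ⟨ζ, hζ, rfl⟩
    exact sol_img hX (str_op hm.op) hm.sol hζ ((str_op hm.op).mem_nhds hζ)
  refine v.dom.pc.subset_of_closure_inter_subset hop ⟨Φ 0, hm.sol.maps h0, 0, h0, rfl⟩ ?_
  rintro y ⟨hyc, hyU⟩
  obtain ⟨ρ, κ, hρ, hκ, -, hthn⟩ := thn v hyU
  obtain ⟨δ, ρ', hδ, hδκ, hρ', -, hloc⟩ := loc hX hyU hκ
  obtain ⟨_, ⟨hz1, hz2⟩, ζ', hζ', rfl⟩ := mem_closure_iff.1 hyc _ (isOpen_ball.inter isOpen_ball)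
    ⟨mem_ball_self hρ, mem_ball_self hρ'⟩
  obtain ⟨Ψ, hΨ, hΨ0⟩ := hthn _ hz1
  obtain ⟨Φ', hΦ', hΦ0, hcov⟩ := hloc _ hz2
  obtain ⟨c, hc, hcy⟩ := hcov y (mem_ball_self hρ')
  obtain ⟨J, hJ⟩ : ∃ J : Set ℝ, J = Ioo (ζ'.im - κ) (ζ'.im + κ) := ⟨_, rfl⟩
  have hζJ : ζ'.im ∈ J := by
    rw [hJ]
    exact ⟨by linarith, by linarith⟩
  have hJo : IsOpen J := by rw [hJ]; exact isOpen_Ioo
  have hJc : J.OrdConnected := by rw [hJ]; exact ordConnected_Ioo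
  have hS1 : Sol X U (Str J) (fun ζ => Ψ (ζ + -ζ')) := by
    refine sol_mono (sol_shift hΨ (-ζ')) fun ζ hζ => ?_
    have h1 : ζ.im ∈ J := hζ
    rw [hJ] at h1
    show (ζ + -ζ').im ∈ Ioo (-κ) κ
    rw [Complex.add_im, Complex.neg_im]
    exact ⟨by linarith [h1.1], by linarith [h1.2]⟩
  have he1 : (fun ζ => Ψ (ζ + -ζ')) ζ' = Φ ζ' := by
    show Ψ (ζ' + -ζ') = Φ ζ'
    rw [add_neg_cancel, hΨ0]
  have hJI := hm.max J _ ζ' hJo hJc hζ' hζJ hS1 he1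
  have hu1 := sol_uniq hX (str_op hJo) (str_pc hJc) (sol_mono hm.sol fun ζ hζ => hJI hζ) hS1
    (ζ0 := ζ') hζJ he1.symm
  have hbs : ball (0 : ℂ) δ ⊆ Str (Ioo (-κ) κ) := by
    intro w hw
    rw [mem_ball_zero_iff] at hw
    have h1 := (Complex.abs_im_le_norm w).trans_lt hw
    rw [abs_lt] at h1
    show w.im ∈ Ioo (-κ) κ
    exact ⟨by linarith [h1.1], by linarith [h1.2]⟩
  have hu2 := sol_uniq hX isOpen_ball (convex_ball (0 : ℂ) δ).isPreconnected (sol_mono hΨ hbs) hΦ'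
    (ζ0 := 0) (mem_ball_self hδ) (hΨ0.trans hΦ0.symm) c hc
  have hcJ : ζ' + c ∈ Str J := by
    have h1 : c.im ∈ Ioo (-κ) κ := hbs hc
    show (ζ' + c).im ∈ J
    rw [hJ, Complex.add_im]
    exact ⟨by linarith [h1.1], by linarith [h1.2]⟩
  refine ⟨ζ' + c, hJI hcJ, ?_⟩
  rw [hu1 _ hcJ]
  show Ψ (ζ' + c + -ζ') = y
  rw [add_neg_cancel_comm, hu2, hcy]

end Pool.Agent.H56.RD
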