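import Pool.Agent.H56.RD.PRI

/-!
# Module THN: solutions on thin strips

PROOF. `loc` at `y` (`δ0 = 1`): `δ, ρ`. `pri` with `δ0 = δ / 4`: `N, g`, `τ = T / N < δ / 4`, `τ > 0`. `κ = δ / 4`. Let `z ∈ ball y ρ`, `Φ` the solution on `ball 0 δ` with `Φ 0 = z`.
(1) `g (Φ η) = Φ (η + τ)` if `η, η + τ ∈ ball 0 δ`: `g ∘ Φ` (`sol_lim`) and `Φ (· + τ)` (`sol_shift`) are solutions on the lens (`lens_pc`, `lens_op`, `sol_uniq`), equal at `0`. So `g^[i] (Φ η) = Φ (η + i τ)` if `η, η + i τ ∈ ball 0 δ` (induction; the intermediate points are in the ball by convexity).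
(2) For an integer `m` let `A m = (m % N).toNat` (`0 ≤ m % N < N`). `g^[A m] w = g^[A (m - i)] (g^[i] w)` for `w ∈ U`, `i : ℕ`: `A m ≡ A (m - i) + i` modulo `N` and `g^[N] = id` on `U` (`g^[i] w` depends on `i` modulo `N` only). So if `‖ζ - τ m‖ < δ` and `‖ζ - τ m'‖ < δ` then `g^[A m] (Φ (ζ - τ m)) = g^[A m'] (Φ (ζ - τ m'))`:
let `m = m' + i`, `i ≥ 0`; `Φ (ζ - τ m') = Φ ((ζ - τ m) + i τ) = g^[i] (Φ (ζ - τ m))`, so the right side is `g^[A m' + i] (Φ (ζ - τ m))`, `A m' + i ≡ A m`.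
(3) `Ψ ζ = g^[A m] (Φ (ζ - τ m))` with `m = ⌊ζ.re / τ⌋`. If `|ζ.im| < κ` then `0 ≤ (ζ - τ m).re < τ`, so `‖ζ - τ m‖ < τ + κ < δ / 2`. For `ζ'` near `ζ0` (both in the strip), with `m0 = ⌊ζ0.re / τ⌋`: `‖ζ' - τ m0‖ < δ`, so by (2) `Ψ ζ' = g^[A m0] (Φ (ζ' - τ m0))`, and this is a solution near `ζ0` (`sol_lim` with `lim_pow`, `sol_shift`). `Ψ 0 = Φ 0 = z`.
-/

set_option autoImplicit false

open Filter Topology Metric Set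

namespace Pool.Agent.H56.RD

theorem thn {U : Set ℂ} {F : ℂ → ℂ} {n : ℕ → ℕ} {X : ℂ → ℂ} {e : ℕ → ℝ} (v : Vec U F n X e)
    {y : ℂ} (hy : y ∈ U) : ∃ ρ κ : ℝ, 0 < ρ ∧ 0 < κ ∧ ball y ρ ⊆ U ∧ ∀ z ∈ ball y ρ,
      ∃ Ψ : ℂ → ℂ, Sol X U (Str (Ioo (-κ) κ)) Ψ ∧ Ψ 0 = z := by
  obtain ⟨δ, ρ, hδ, -, hρ, hρU, hloc⟩ := loc v.fld hy one_pos
  obtain ⟨T, hT, hpri⟩ := pri v
  obtain ⟨N, g, hN, hτδ, hg, hgN, hgΦ⟩ := hpri (δ / 4) (by linarith)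
  obtain ⟨τ, hτ⟩ : ∃ τ : ℝ, τ = T / (N : ℝ) := ⟨_, rfl⟩
  rw [← hτ] at hτδ hgΦ
  have hNr : (0 : ℝ) < N := by exact_mod_cast hN
  have hτ0 : 0 < τ := by
    rw [hτ]
    positivity
  refine ⟨ρ, δ / 4, hρ, by linarith, hρU, fun z hz => ?_⟩
  obtain ⟨Φ, hΦ, hΦ0, -⟩ := hloc z hz
  -- (1)
  have h1 : ∀ η : ℂ, η ∈ ball (0 : ℂ) δ → η + (τ : ℂ) ∈ ball (0 : ℂ) δ →
      g (Φ η) = Φ (η + (τ : ℂ)) := by
    intro η h2 h3
    have h0 : (0 : ℂ) ∈ {ζ : ℂ | ζ ∈ ball (0 : ℂ) δ ∧ ζ + (τ : ℂ) ∈ ball (0 : ℂ) δ} := by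
      refine ⟨mem_ball_self hδ, ?_⟩
      rw [zero_add, mem_ball_zero_iff, Complex.norm_real, Real.norm_eq_abs, abs_of_pos hτ0]
      linarith
    exact sol_uniq v.fld (lens_op δ (τ : ℂ)) (lens_pc δ (τ : ℂ))
      (sol_mono (sol_lim v hΦ hg) fun ζ hζ => hζ.1)
      (sol_mono (sol_shift hΦ (τ : ℂ)) fun ζ hζ => hζ.2) h0
      (by
        rw [zero_add]
        exact hgΦ δ Φ (by linarith) hΦ) η ⟨h2, h3⟩
  have h1' : ∀ (i : ℕ) (η : ℂ), η ∈ ball (0 : ℂ) δ → η + (i : ℂ) * (τ : ℂ) ∈ ball (0 : ℂ) δ →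
      g^[i] (Φ η) = Φ (η + (i : ℂ) * (τ : ℂ)) := by
    intro i
    induction i with
    | zero =>
      intro η _ _
      rw [Function.iterate_zero, id, Nat.cast_zero, zero_mul, add_zero]
    | succ i ih =>
      intro η h2 h3
      have h4 : η + (i : ℂ) * (τ : ℂ) ∈ ball (0 : ℂ) δ := by
        have hi : (0 : ℝ) < (i : ℝ) + 1 := by positivity
        have h5 : (1 / ((i : ℝ) + 1)) • η + ((i : ℝ) / ((i : ℝ) + 1)) •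
            (η + ((i + 1 : ℕ) : ℂ) * (τ : ℂ)) ∈ ball (0 : ℂ) δ :=
          (convex_ball (0 : ℂ) δ) h2 h3 (by positivity) (by positivity) (by field_simp; ring)
        have h6 : (1 / ((i : ℝ) + 1)) • η + ((i : ℝ) / ((i : ℝ) + 1)) •
            (η + ((i + 1 : ℕ) : ℂ) * (τ : ℂ)) = η + (i : ℂ) * (τ : ℂ) := by
          rw [Complex.real_smul, Complex.real_smul]
          push_cast
          have hi' : ((i : ℂ) + 1) ≠ 0 := by exact_mod_cast hi.ne'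
          field_simp
          ring
        rw [h6] at h5
        exact h5
      have h5 : η + ((i + 1 : ℕ) : ℂ) * (τ : ℂ) = (η + (i : ℂ) * (τ : ℂ)) + (τ : ℂ) := by
        push_cast
        ring
      rw [Function.iterate_succ_apply', ih η h2 h4, h5]
      rw [h5] at h3
      exact h1 _ h4 h3
  -- (2)
  set A : ℤ → ℕ := fun m => (m % (N : ℤ)).toNat with hA
  have hper : ∀ w ∈ U, Function.IsPeriodicPt g N w := fun w hw => hgN w hw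
  have h2 : ∀ (ζ : ℂ) (m' : ℤ) (i : ℕ), ζ - (τ : ℂ) * ((m' + i : ℤ) : ℂ) ∈ ball (0 : ℂ) δ →
      ζ - (τ : ℂ) * (m' : ℂ) ∈ ball (0 : ℂ) δ →
      g^[A (m' + i)] (Φ (ζ - (τ : ℂ) * ((m' + i : ℤ) : ℂ))) =
        g^[A m'] (Φ (ζ - (τ : ℂ) * (m' : ℂ))) := by
    intro ζ m' i h3 h4
    have h5 : ζ - (τ : ℂ) * (m' : ℂ) = (ζ - (τ : ℂ) * ((m' + i : ℤ) : ℂ)) + (i : ℂ) * (τ : ℂ) := by
      push_cast
      ring
    have h6 : Φ (ζ - (τ : ℂ) * (m' : ℂ)) = g^[i] (Φ (ζ - (τ : ℂ) * ((m' + i : ℤ) : ℂ))) := by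
      rw [h5] at h4 ⊢
      exact (h1' i _ h3 h4).symm
    rw [h6, ← Function.iterate_add_apply]
    have h7 := hper _ (hΦ.maps h3)
    rw [← h7.iterate_mod_apply (A (m' + i)), ← h7.iterate_mod_apply (A m' + i)]
    have hN0 : (N : ℤ) ≠ 0 := by exact_mod_cast hN.ne'
    have hA1 : ∀ m : ℤ, ((A m : ℕ) : ℤ) = m % (N : ℤ) := fun m =>
      Int.toNat_of_nonneg (Int.emod_nonneg _ hN0)
    have h8 : (((A (m' + i)) % N : ℕ) : ℤ) = ((A m' + i) % N : ℕ) := by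
      push_cast
      rw [hA1, hA1, Int.emod_emod_of_dvd _ (dvd_refl _), Int.emod_add_emod]
    have h9 : (A (m' + i)) % N = (A m' + i) % N := by exact_mod_cast h8
    rw [h9]
  have h3 : ∀ (ζ : ℂ) (m m' : ℤ), ζ - (τ : ℂ) * (m : ℂ) ∈ ball (0 : ℂ) δ →
      ζ - (τ : ℂ) * (m' : ℂ) ∈ ball (0 : ℂ) δ →
      g^[A m] (Φ (ζ - (τ : ℂ) * (m : ℂ))) = g^[A m'] (Φ (ζ - (τ : ℂ) * (m' : ℂ))) := by
    intro ζ m m' h4 h5
    rcases le_total m' m with h | h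
    · obtain ⟨i, hi⟩ := Int.le.dest h
      rw [← hi] at h4 ⊢
      exact h2 ζ m' i h4 h5
    · obtain ⟨i, hi⟩ := Int.le.dest h
      rw [← hi] at h5 ⊢
      exact (h2 ζ m i h5 h4).symm
  -- (3)
  have h4 : ∀ ζ ∈ Str (Ioo (-(δ / 4)) (δ / 4)),
      ζ - (τ : ℂ) * ((⌊ζ.re / τ⌋ : ℤ) : ℂ) ∈ ball (0 : ℂ) δ := by
    intro ζ hζ
    rw [mem_ball_zero_iff]
    refine lt_of_le_of_lt (Complex.norm_le_abs_re_add_abs_im _) ?_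
    have hre : (ζ - (τ : ℂ) * ((⌊ζ.re / τ⌋ : ℤ) : ℂ)).re = ζ.re - τ * (⌊ζ.re / τ⌋ : ℤ) := by
      rw [Complex.sub_re, Complex.re_ofReal_mul, Complex.intCast_re]
    have him : (ζ - (τ : ℂ) * ((⌊ζ.re / τ⌋ : ℤ) : ℂ)).im = ζ.im := by
      rw [Complex.sub_im, Complex.im_ofReal_mul, Complex.intCast_im, mul_zero, sub_zero]
    rw [hre, him]
    have h5 : |ζ.im| < δ / 4 := abs_lt.mpr hζ
    have h6 := Int.floor_le (ζ.re / τ)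
    have h7 := Int.lt_floor_add_one (ζ.re / τ)
    rw [le_div_iff₀ hτ0] at h6
    rw [div_lt_iff₀ hτ0] at h7
    have h8 : |ζ.re - τ * (⌊ζ.re / τ⌋ : ℤ)| ≤ τ := by
      rw [abs_le]
      constructor <;> nlinarith
    linarith
  refine ⟨fun ζ => g^[A ⌊ζ.re / τ⌋] (Φ (ζ - (τ : ℂ) * ((⌊ζ.re / τ⌋ : ℤ) : ℂ))), ⟨?_, ?_⟩, ?_⟩
  · intro ζ hζ
    exact (lim_pow v.dom hg _).1 (hΦ.maps (h4 ζ hζ))
  · intro ζ hζ
    obtain ⟨m0, hm0⟩ : ∃ m0 : ℤ, m0 = ⌊ζ.re / τ⌋ := ⟨_, rfl⟩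
    have hs : Sol X U {ζ' : ℂ | ζ' + (-((τ : ℂ) * (m0 : ℂ))) ∈ ball (0 : ℂ) δ}
        (fun ζ' => g^[A m0] (Φ (ζ' + (-((τ : ℂ) * (m0 : ℂ)))))) :=
      sol_lim v (sol_shift hΦ _) (lim_pow v.dom hg _)
    have h5 := h4 ζ hζ
    rw [← hm0] at h5
    have h6 := hs.der ζ (by
      change ζ + (-((τ : ℂ) * (m0 : ℂ))) ∈ ball (0 : ℂ) δ
      rw [← sub_eq_add_neg]
      exact h5)
    have hev : (fun ζ => g^[A ⌊ζ.re / τ⌋] (Φ (ζ - (τ : ℂ) * ((⌊ζ.re / τ⌋ : ℤ) : ℂ)))) =ᶠ[𝓝 ζ]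
        fun ζ' => g^[A m0] (Φ (ζ' + (-((τ : ℂ) * (m0 : ℂ))))) := by
      have ho : IsOpen {ζ' : ℂ | ζ' - (τ : ℂ) * (m0 : ℂ) ∈ ball (0 : ℂ) δ} :=
        isOpen_ball.preimage (continuous_id.sub continuous_const)
      filter_upwards [(str_op isOpen_Ioo).mem_nhds hζ, ho.mem_nhds h5] with ζ' h7 h8
      rw [← sub_eq_add_neg]
      exact h3 ζ' _ m0 (h4 ζ' h7) h8
    have h7 := h6.congr_of_eventuallyEq hev
    have h8 := hev.self_of_nhds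
    simp only at h8
    rw [← h8] at h7
    exact h7
  · change g^[A ⌊(0 : ℂ).re / τ⌋] (Φ (0 - (τ : ℂ) * ((⌊(0 : ℂ).re / τ⌋ : ℤ) : ℂ))) = z
    have h5 : ⌊(0 : ℂ).re / τ⌋ = 0 := by
      rw [Complex.zero_re, zero_div, Int.floor_zero]
    have h6 : A 0 = 0 := by
      rw [hA]
      simp
    rw [h5, h6, Int.cast_zero, mul_zero, sub_zero, Function.iterate_zero, id, hΦ0]

end Pool.Agent.H56.RD
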