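import Pool.Agent.H56.RD.DSP

/-!
# Module VEC: the invariant vector field

PROOF. Let `z0 ∈ U`, `ε k = ‖F^[n k] z0 - z0‖`: `ε k → 0` (`h.id`, `jc_pt`) and `ε k > 0` if `n k > 0` (`h.np`), so for `k ≥ k0`. Let `H k z = (F^[n (k + k0)] z - z) / ε (k + k0)`, holomorphic on `U`. Locally bounded: for `z ∈ U` take `closedBall z r ⊆ U` and `dsp`. `mtm`: `σ` strictly increasing, `H (σ k) → X` (`JC`), `X` holomorphic. `‖H k z0‖ = 1`, so `‖X z0‖ = 1`.
`H k z ≠ 0` on `U` (`h.np`): `hur_nz`: `X` has no zeros. Answer: `σ' k = σ k + k0`, `e k = ε (σ' k)`; `Dom.sub`.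
`eqv`: `g ∈ Lim`, `z ∈ U`, `k → ∞` along `σ'`, `G k = F^[n (σ' k)]`: `(G k (g z) - g z) / e k → X (g z)` (`jc_pt` at `g z ∈ U`). `G k (g z) = g (G k z)` (`lim_comm_it`), `G k z → z`, `G k z ≠ z`: `(g (G k z) - g z) / (G k z - z) → deriv g z` (`lim_diff`, `hasDerivAt_iff_tendsto_slope`), times `(G k z - z) / e k → X z`. So `X (g z) = deriv g z * X z`.
-/

set_option autoImplicit false

open Filter Topology Metric Set

namespace Pool.Agent.H56.RD

private theorem vec_eqv {U : Set ℂ} {F : ℂ → ℂ} {n : ℕ → ℕ} (h : Dom U F n) {X : ℂ → ℂ}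
    {e : ℕ → ℝ} (hn : ∀ k, 0 < n k)
    (hlim : JC (fun k z => (F^[n k] z - z) / (e k : ℂ)) X U) {g : ℂ → ℂ} (hg : Lim U F g)
    {z : ℂ} (hz : z ∈ U) : X (g z) = deriv g z * X z := by
  have hgz : g z ∈ U := hg.1 hz
  have h1 : Tendsto (fun k => (F^[n k] (g z) - g z) / (e k : ℂ)) atTop (𝓝 (X (g z))) :=
    jc_pt hlim hgz
  have h2 : Tendsto (fun k => (F^[n k] z - z) / (e k : ℂ)) atTop (𝓝 (X z)) := jc_pt hlim hz
  have hzz : Tendsto (fun k => F^[n k] z) atTop (𝓝 z) := jc_pt h.id hz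
  have hzz' : Tendsto (fun k => F^[n k] z) atTop (𝓝[≠] z) := by
    refine tendsto_nhdsWithin_iff.2 ⟨hzz, Eventually.of_forall fun k => ?_⟩
    exact h.np (n k) (hn k) z hz
  have hgd : HasDerivAt g (deriv g z) z :=
    ((lim_diff h hg).differentiableAt (h.op.mem_nhds hz)).hasDerivAt
  have h3 : Tendsto (fun k => slope g z (F^[n k] z)) atTop (𝓝 (deriv g z)) :=
    (hasDerivAt_iff_tendsto_slope.1 hgd).comp hzz'
  have h4 := h3.mul h2
  refine tendsto_nhds_unique h1 (h4.congr fun k => ?_)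
  have hne : F^[n k] z - z ≠ 0 := sub_ne_zero.2 (h.np (n k) (hn k) z hz)
  rw [slope_def_field, lim_comm_it h hg (n k) hz]
  field_simp

theorem vec {U : Set ℂ} {F : ℂ → ℂ} {n : ℕ → ℕ} (h : Dom U F n) :
    ∃ (σ : ℕ → ℕ) (X : ℂ → ℂ) (e : ℕ → ℝ), StrictMono σ ∧ Vec U F (n ∘ σ) X e := by
  obtain ⟨z0, hz0⟩ := h.ne
  obtain ⟨ε, hεd⟩ : ∃ ε : ℕ → ℝ, ∀ k, ε k = ‖F^[n k] z0 - z0‖ := ⟨_, fun _ => rfl⟩
  obtain ⟨k0, hk0⟩ := eventually_atTop.1 (h.tn.eventually_gt_atTop 0)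
  have hεp : ∀ k, k0 ≤ k → 0 < ε k := by
    intro k hk
    rw [hεd, norm_pos_iff, sub_ne_zero]
    exact h.np (n k) (hk0 k hk) z0 hz0
  have hε0 : Tendsto ε atTop (𝓝 0) := by
    have h1 : Tendsto (fun k => F^[n k] z0) atTop (𝓝 z0) := jc_pt h.id hz0
    have h2 := tendsto_iff_norm_sub_tendsto_zero.1 h1
    exact h2.congr fun k => (hεd k).symm
  have hHd : ∀ k, DifferentiableOn ℂ (fun z => (F^[n (k + k0)] z - z) / (ε (k + k0) : ℂ)) U :=
    fun k => ((h.itd _).sub differentiableOn_id).div_const _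
  have hHB : ∀ z ∈ U, ∃ r : ℝ, 0 < r ∧ ∃ B : ℝ, ∀ᶠ k in atTop, ∀ w ∈ ball z r,
      ‖(F^[n (k + k0)] w - w) / (ε (k + k0) : ℂ)‖ ≤ B := by
    intro z hz
    obtain ⟨r, hr, hrU⟩ := Metric.isOpen_iff.1 h.op z hz
    have hsub : closedBall z (r / 2) ⊆ U := (closedBall_subset_ball (by linarith)).trans hrU
    obtain ⟨C, hC⟩ := dsp h hz0 (isCompact_closedBall z (r / 2)) hsub
    refine ⟨r / 2, by linarith, C, ?_⟩
    have h1 := (tendsto_add_atTop_nat k0).eventually hC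
    filter_upwards [h1] with k hk w hw
    have h2 := hk w (ball_subset_closedBall hw)
    rw [← hεd] at h2
    have h3 := hεp (k + k0) (by omega)
    rw [norm_div, Complex.norm_real, Real.norm_eq_abs, abs_of_pos h3, div_le_iff₀ h3]
    exact h2
  obtain ⟨σ, X, hσ, hXd, hX⟩ := mtm h.op hHd hHB
  have hσ' : StrictMono fun k => σ k + k0 := fun a b hab => by
    have := hσ hab
    simp only
    omega
  have hnz : ∀ z ∈ U, X z ≠ 0 := by
    refine hur_nz h.op h.pc (fun k => hHd (σ k)) (fun k z hz => ?_) hX ⟨z0, hz0, ?_⟩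
    · have h3 := hεp (σ k + k0) (by omega)
      refine div_ne_zero (sub_ne_zero.2 (h.np _ (hk0 _ (by omega)) z hz)) ?_
      exact_mod_cast h3.ne'
    · intro h0
      have h1 : Tendsto (fun k => (F^[n (σ k + k0)] z0 - z0) / (ε (σ k + k0) : ℂ)) atTop
        (𝓝 (X z0)) := jc_pt hX hz0
      rw [h0] at h1
      have h2 := h1.norm
      rw [norm_zero] at h2
      have h3 : ∀ k, ‖(F^[n (σ k + k0)] z0 - z0) / (ε (σ k + k0) : ℂ)‖ = 1 := by
        intro k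
        have h4 := hεp (σ k + k0) (by omega)
        rw [norm_div, Complex.norm_real, Real.norm_eq_abs, abs_of_pos h4, ← hεd]
        exact div_self h4.ne'
      have h5 := tendsto_nhds_unique h2 (tendsto_const_nhds.congr fun k => (h3 k).symm)
      exact zero_ne_one h5
  refine ⟨fun k => σ k + k0, X, fun k => ε (σ k + k0), hσ', ?_⟩
  have hdom := h.sub hσ'.tendsto_atTop
  refine ⟨hdom, fun k => hεp _ (by omega), hε0.comp hσ'.tendsto_atTop, hXd, hnz, hX, ?_⟩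
  intro g hg z hz
  exact vec_eqv hdom (fun k => hk0 (σ k + k0) (by omega)) hX hg hz

end Pool.Agent.H56.RD
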